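import Pool.Agent.H967.KRU.AbsK

set_option autoImplicit false

/-! # Existence and uniqueness of the knot, the other two cases -/

namespace Pool.Agent.H967.KRU

open Real Set MeasureTheory
open Pool.Agent.Q82.KR (Uni)

variable {φ φ₁ φ₂ : ℝ → ℝ}

lemma ii_nonpos {a b : ℝ} {f : ℝ → ℝ} (hab : a ≤ b) (hf : ∀ x ∈ Icc a b, f x ≤ 0) :
    ∫ x in a..b, f x ≤ 0 := by
  have := intervalIntegral.integral_nonneg (μ := volume) (f := fun x => -f x) hab
    fun x hx => neg_nonneg.2 (hf x hx)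
  rw [intervalIntegral.integral_neg] at this
  linarith

lemma knot_shape (h : Shp φ φ₁ φ₂) {α : ℝ} (hk : IsKnotA φ α) :
    StrictMonoOn φ (Icc (1 / 2) α) ∧ (∀ x, 1 / 2 < x → x ≤ α → 0 < φ₂ x) ∧
      (∀ x, 1 / 2 < x → x ≤ α → 0 < φ₁ x) ∧ φ₁ α < bk φ α := by
  obtain ⟨p, q, h1, h2, h3, h4, h5, h6⟩ := knot_pattern h hk
  have hb := bk_nonneg hk
  obtain ⟨hα, hpos, _, _⟩ := hk
  set b := bk φ α with hbdef
  set x₀ := (p + q) / 2 with hx₀
  have g0 := h4 x₀ (by linarith) (by linarith)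
  have hαx : α < x₀ := by linarith
  have hx1 : x₀ < 1 := by linarith
  have t0 : 0 ≤ b * (x₀ - α) := mul_nonneg hb (by linarith)
  obtain ⟨γ, hγ, hγpos, hmax, hmono, hanti⟩ := exists_max h.uni (x₀ := x₀)
    ⟨by linarith [hα.1], hx1.le⟩ (by linarith)
  have hαγ : α < γ := by
    by_contra hc
    push Not at hc
    have := hanti α x₀ hc hαx hx1.le (by linarith)
    linarith
  obtain ⟨x₄, hp4, h4γ, p4⟩ : ∃ x₄, p ≤ x₄ ∧ x₄ ≤ γ ∧ φ α + b * (x₄ - α) < φ x₄ := by
    rcases le_or_gt x₀ γ with hc | hc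
    · exact ⟨x₀, by linarith, hc, g0⟩
    · have t1 := hmax x₀ ⟨by linarith [hα.1], hx1.le⟩
      have t2 : b * (γ - α) ≤ b * (x₀ - α) := mul_le_mul_of_nonneg_left (by linarith) hb
      have t3 : φ α + b * (γ - α) < φ γ := by linarith
      refine ⟨γ, ?_, le_rfl, t3⟩
      by_contra hcc
      push Not at hcc
      linarith [h5 γ hαγ.le hcc]
  set z := (α + p) / 2 with hz
  have hz1 : α < z := by linarith
  have hz2 : z < p := by linarith
  have gz := h5 z hz1.le hz2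
  have hcont : ∀ u v : ℝ, 1 / 2 ≤ u → v ≤ 1 → ContinuousOn φ (Icc u v) := fun u v hu hv =>
    h.uni.cont.mono (Icc_subset_Icc hu hv)
  obtain ⟨ξ₁, hξ₁, e₁⟩ := exists_hasDerivAt_eq_slope φ φ₁ hz1 (hcont _ _ hα.1.le (by linarith))
    fun y hy => h.d1 y (by linarith [hy.1, hα.1]) (by linarith [hy.2])
  obtain ⟨ξ₂, hξ₂, e₂⟩ := exists_hasDerivAt_eq_slope φ φ₁ (show z < x₄ by linarith)
    (hcont _ _ (by linarith [hα.1]) (by linarith [hγ.2]))
    fun y hy => h.d1 y (by linarith [hy.1, hα.1]) (by linarith [hy.2, hγ.2])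
  have s1 : φ₁ ξ₁ ≤ b := by
    rw [e₁, div_le_iff₀ (by linarith)]; linarith
  have s2 : b < φ₁ ξ₂ := by
    rw [e₂, lt_div_iff₀ (by linarith)]; linarith
  have l12 : ξ₁ < ξ₂ := hξ₁.2.trans hξ₂.1
  obtain ⟨η, hη, f⟩ := exists_hasDerivAt_eq_slope φ₁ φ₂ l12
    (fun x hx => (h.d2 x (by linarith [hx.1, hξ₁.1, hα.1])
      (by linarith [hx.2, hξ₂.2, hγ.2])).continuousAt.continuousWithinAt)
    fun y hy => h.d2 y (by linarith [hy.1, hξ₁.1, hα.1]) (by linarith [hy.2, hξ₂.2, hγ.2])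
  have t1 : 0 < φ₂ η := by rw [f]; exact div_pos (by linarith) (by linarith)
  have hη1 : α < η := by linarith [hξ₁.1, hη.1]
  have hη2 : η < γ := by linarith [hη.2, hξ₂.2]
  have posη : 0 < φ η := by
    have := hmono (show (1 / 2 : ℝ) ∈ Icc (1 / 2) γ from ⟨le_rfl, hγ.1.le⟩)
      (show η ∈ Icc (1 / 2) γ from ⟨by linarith [hα.1], hη2.le⟩) (by linarith [hα.1])
    rwa [h.uni.half] at this
  have hd : ∀ x, 1 / 2 < x → x < γ → 0 ≤ φ₁ x := fun x a1 a2 =>
    deriv_nonneg_of_mono hmono a1 a2 (h.d1 x a1 (by linarith [hγ.2]))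
  have h2pos : ∀ x, 1 / 2 < x → x < η → 0 < φ₂ x := fun x a1 a2 =>
    h.pat x η a1 a2 (by linarith [hγ.2]) posη (hd η (by linarith [hα.1]) hη2) t1.le
  have hm1 : StrictMonoOn φ₁ (Ioo (1 / 2) η) := by
    apply strictMonoOn_of_deriv_pos (convex_Ioo _ _)
    · intro x hx
      exact (h.d2 x hx.1 (by linarith [hx.2, hγ.2])).continuousAt.continuousWithinAt
    · intro x hx
      rw [interior_Ioo] at hx
      rw [(h.d2 x hx.1 (by linarith [hx.2, hγ.2])).deriv]
      exact h2pos x hx.1 hx.2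
  refine ⟨hmono.mono (Icc_subset_Icc le_rfl hαγ.le), fun x a1 a2 => h2pos x a1 (by linarith),
    fun x a1 a2 => ?_, ?_⟩
  · have := hm1 (show (1 / 2 + x) / 2 ∈ Ioo (1 / 2 : ℝ) η from ⟨by linarith, by linarith⟩)
      (show x ∈ Ioo (1 / 2 : ℝ) η from ⟨a1, by linarith⟩) (by linarith)
    have := hd ((1 / 2 + x) / 2) (by linarith) (by linarith)
    linarith
  · have := hm1 (show α ∈ Ioo (1 / 2 : ℝ) η from ⟨hα.1, hη1⟩)
      (show ξ₁ ∈ Ioo (1 / 2 : ℝ) η from ⟨by linarith [hξ₁.1, hα.1], hη.1⟩) hξ₁.1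
    linarith

/-! ### The functions `I₀`, `I₁` -/

/-- `∫_α^1 φ` -/
noncomputable def I0 (φ : ℝ → ℝ) (α : ℝ) : ℝ := ∫ x in α..1, φ x
/-- `∫_α^1 x φ` -/
noncomputable def I1 (φ : ℝ → ℝ) (α : ℝ) : ℝ := ∫ x in α..1, x * φ x

lemma cont_prim {g : ℝ → ℝ} (hg : ContinuousOn g (Icc (1 / 2) 1)) :
    ContinuousOn (fun α => ∫ x in α..1, g x) (Icc (1 / 2) 1) := by
  have hi : IntegrableOn g (uIcc (1 : ℝ) (1 / 2)) := by
    rw [uIcc_of_ge (by norm_num)]
    exact hg.integrableOn_Icc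
  have h2 := (intervalIntegral.continuousOn_primitive_interval (f := g) (μ := volume) hi).neg
  rw [uIcc_of_ge (by norm_num)] at h2
  refine h2.congr fun x _ => ?_
  exact intervalIntegral.integral_symm _ _

lemma deriv_prim {g : ℝ → ℝ} (hg : ContinuousOn g (Icc (1 / 2) 1)) {x : ℝ} (hx1 : 1 / 2 < x)
    (hx2 : x < 1) : HasDerivAt (fun α => ∫ x in α..1, g x) (-g x) x := by
  have hn : Icc (1 / 2 : ℝ) 1 ∈ nhds x := Icc_mem_nhds hx1 hx2
  apply intervalIntegral.integral_hasDerivAt_left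
  · apply ContinuousOn.intervalIntegrable
    rw [uIcc_of_le hx2.le]
    exact hg.mono (Icc_subset_Icc hx1.le le_rfl)
  · exact ContinuousOn.stronglyMeasurableAtFilter isOpen_Ioo
      (hg.mono Ioo_subset_Icc_self) x ⟨hx1, hx2⟩
  · exact hg.continuousAt hn

lemma knot_eq_iff (h : Uni φ) {α : ℝ} (hα : 1 / 2 ≤ α) (hα1 : α ≤ 1) :
    ∫ x in α..1, (4 + 2 * α - 6 * x) * φ x = (4 + 2 * α) * I0 φ α - 6 * I1 φ α := by
  have e1 : ∫ x in α..1, (4 + 2 * α - 6 * x) * φ x =
      (4 + 2 * α) * (∫ x in α..1, φ x) + (-6) * ∫ x in α..1, x * φ x := by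
    rw [← int_lin h hα hα1]
    apply intervalIntegral.integral_congr
    intro x _
    simp only; ring
  rw [e1]; unfold I0 I1; ring

/-- the function whose zero is the knot -/
noncomputable def Gk (φ : ℝ → ℝ) (α : ℝ) : ℝ :=
  (1 - α) ^ 2 * φ α - ((4 + 2 * α) * I0 φ α - 6 * I1 φ α)

lemma hasDerivAt_Gk (h : Shp φ φ₁ φ₂) {x : ℝ} (hx1 : 1 / 2 < x) (hx2 : x < 1) :
    HasDerivAt (Gk φ) ((1 - x) ^ 2 * φ₁ x + 2 * (1 - x) * φ x - 2 * I0 φ x) x := by
  have d0 : HasDerivAt (I0 φ) (-φ x) x := deriv_prim h.uni.cont hx1 hx2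
  have d1 : HasDerivAt (I1 φ) (-(x * φ x)) x :=
    deriv_prim (continuousOn_id.mul h.uni.cont) hx1 hx2
  have d := (((((hasDerivAt_id x).const_sub 1).pow 2).mul (h.d1 x hx1 hx2)).sub
    (((((hasDerivAt_id x).const_mul 2).const_add 4).mul d0).sub (d1.const_mul 6)))
  refine d.congr_deriv ?_
  simp
  ring

lemma hasDerivAt_dGk (h : Shp φ φ₁ φ₂) {x : ℝ} (hx1 : 1 / 2 < x) (hx2 : x < 1) :
    HasDerivAt (fun x => (1 - x) ^ 2 * φ₁ x + 2 * (1 - x) * φ x - 2 * I0 φ x)
      ((1 - x) ^ 2 * φ₂ x) x := by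
  have d0 : HasDerivAt (I0 φ) (-φ x) x := deriv_prim h.uni.cont hx1 hx2
  have d := ((((((hasDerivAt_id x).const_sub 1).pow 2).mul (h.d2 x hx1 hx2)).add
    ((((hasDerivAt_id x).const_sub 1).const_mul 2).mul (h.d1 x hx1 hx2))).sub (d0.const_mul 2))
  refine d.congr_deriv ?_
  simp
  ring

lemma cont_Gk (h : Uni φ) : ContinuousOn (Gk φ) (Icc (1 / 2) 1) := by
  have c0 : ContinuousOn (I0 φ) (Icc (1 / 2) 1) := cont_prim h.cont
  have c1 : ContinuousOn (I1 φ) (Icc (1 / 2) 1) := cont_prim (continuousOn_id.mul h.cont)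
  have := h.cont
  unfold Gk
  fun_prop

lemma knot_unique (h : Shp φ φ₁ φ₂) {α β : ℝ} (hα : IsKnotA φ α) (hβ : IsKnotA φ β) : ¬ α < β := by
  intro hab
  obtain ⟨_, s2, _, s4⟩ := knot_shape h hβ
  have eα : Gk φ α = 0 := by
    have := hα.2.2.2
    rw [knot_eq_iff h.uni hα.1.1.le hα.1.2.le] at this
    unfold Gk; linarith
  have eβ : Gk φ β = 0 := by
    have := hβ.2.2.2
    rw [knot_eq_iff h.uni hβ.1.1.le hβ.1.2.le] at this
    unfold Gk; linarith
  have hL : 0 < 1 - β := by linarith [hβ.1.2]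
  have dβ : (1 - β) ^ 2 * φ₁ β + 2 * (1 - β) * φ β - 2 * I0 φ β < 0 := by
    have e : (1 - β) ^ 2 * φ₁ β + 2 * (1 - β) * φ β - 2 * I0 φ β =
        (1 - β) ^ 2 * (φ₁ β - bk φ β) := by
      unfold bk I0
      field_simp
      ring
    rw [e]
    exact mul_neg_of_pos_of_neg (by positivity) (by linarith)
  have hm : StrictMonoOn (fun x => (1 - x) ^ 2 * φ₁ x + 2 * (1 - x) * φ x - 2 * I0 φ x)
      (Ioc (1 / 2) β) := by
    apply strictMonoOn_of_deriv_pos (convex_Ioc _ _)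
    · intro x hx
      exact (hasDerivAt_dGk h hx.1 (by linarith [hx.2])).continuousAt.continuousWithinAt
    · intro x hx
      rw [interior_Ioc] at hx
      rw [(hasDerivAt_dGk h hx.1 (by linarith [hx.2])).deriv]
      have := s2 x hx.1 hx.2.le
      have : 0 < 1 - x := by linarith [hx.2]
      positivity
  have ha : StrictAntiOn (Gk φ) (Icc α β) := by
    apply strictAntiOn_of_deriv_neg (convex_Icc _ _)
    · exact (cont_Gk h.uni).mono (Icc_subset_Icc hα.1.1.le hβ.1.2.le)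
    · intro x hx
      rw [interior_Icc] at hx
      rw [(hasDerivAt_Gk h (by linarith [hx.1, hα.1.1]) (by linarith [hx.2])).deriv]
      have := hm (show x ∈ Ioc (1 / 2) β from ⟨by linarith [hx.1, hα.1.1], hx.2.le⟩)
        (show β ∈ Ioc (1 / 2) β from ⟨hβ.1.1, le_rfl⟩) hx.2
      simp only at this
      linarith
  have := ha (left_mem_Icc.2 hab.le) (right_mem_Icc.2 hab.le) hab
  linarith

lemma exists_knot (h : Shp φ φ₁ φ₂) (hJ : 0 < ∫ x in (1 / 2 : ℝ)..1, (x - 1 / 2) * φ x)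
    (hI : ∫ x in (1 / 2 : ℝ)..1, φ x < 3 * ∫ x in (1 / 2 : ℝ)..1, (x - 1 / 2) * φ x) :
    ∃ α, IsKnotA φ α := by
  have hu := h.uni
  -- `∫ (x - 1/2) φ = I₁ - I₀ / 2`
  have eJ : ∫ x in (1 / 2 : ℝ)..1, (x - 1 / 2) * φ x = I1 φ (1 / 2) - I0 φ (1 / 2) / 2 := by
    have : ∫ x in (1 / 2 : ℝ)..1, (x - 1 / 2) * φ x = ∫ x in (1 / 2 : ℝ)..1, (-(1 / 2) + 1 * x) * φ x := by
      apply intervalIntegral.integral_congr
      intro x _
      simp only; ring
    rw [this, int_lin hu le_rfl (by norm_num)]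
    unfold I0 I1; ring
  have eI : ∫ x in (1 / 2 : ℝ)..1, φ x = I0 φ (1 / 2) := rfl
  -- positivity of `∫ φ`
  have hI0 : 0 < I0 φ (1 / 2) := by
    obtain ⟨x₀, hx₀, c1, c2⟩ := hu.exists_sign
    have t1 : ∫ x in (1 / 2 : ℝ)..1, (-x₀ + 1 * x) * φ x ≤ 0 := by
      apply ii_nonpos (by norm_num)
      intro x hx
      rcases eq_or_lt_of_le hx.1 with e | e
      · rw [← e, hu.half, mul_zero]
      rcases eq_or_lt_of_le hx.2 with e' | e'
      · rw [e', hu.one, mul_zero]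
      rcases lt_trichotomy x x₀ with c | c | c
      · exact mul_nonpos_of_nonpos_of_nonneg (by linarith) (c1 x e c).le
      · rw [c]; simp
      · exact mul_nonpos_of_nonneg_of_nonpos (by linarith) (c2 x c e').le
    rw [int_lin hu le_rfl (by norm_num)] at t1
    have t2 : I1 φ (1 / 2) ≤ x₀ * I0 φ (1 / 2) := by unfold I0 I1; linarith
    rw [eJ] at hJ
    have t3 : 0 < (x₀ - 1 / 2) * I0 φ (1 / 2) := by linarith
    exact (mul_pos_iff_of_pos_left (lt_of_le_of_ne (by linarith [hx₀.1]) (fun e => by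
      rw [← e, zero_mul] at t3; exact lt_irrefl _ t3))).1 t3
  -- the maximum
  obtain ⟨x₀, hx₀, hx₀p⟩ : ∃ x₀ ∈ Icc (1 / 2 : ℝ) 1, 0 < φ x₀ := by
    by_contra hcon
    push Not at hcon
    have : I0 φ (1 / 2) ≤ 0 :=
      ii_nonpos (by norm_num) fun x hx => hcon x hx
    linarith
  obtain ⟨γ, hγ, hγpos, hmax, hmono, hanti⟩ := exists_max hu hx₀ hx₀p
  have c0 : ContinuousOn (I0 φ) (Icc (1 / 2) 1) := cont_prim hu.cont
  set m : ℝ → ℝ := fun x => min (Gk φ x) (I0 φ x - (1 - x) * φ x) with hm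
  have hmc : ContinuousOn m (Icc (1 / 2) γ) := by
    apply ContinuousOn.mono _ (Icc_subset_Icc (le_refl (1 / 2 : ℝ)) hγ.2.le)
    have := hu.cont
    exact continuous_min.comp_continuousOn ((cont_Gk hu).prodMk (c0.sub (by fun_prop)))
  have hm0 : 0 < m (1 / 2) := by
    simp only [hm, lt_min_iff]
    constructor
    · unfold Gk
      rw [hu.half]
      rw [eJ, eI] at hI
      linarith
    · rw [hu.half]; linarith
  have hmγ : m γ ≤ 0 := by
    apply (min_le_right _ _).trans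
    have : I0 φ γ ≤ ∫ x in γ..1, φ γ :=
      intervalIntegral.integral_mono_on hγ.2.le (hu.int hγ.1.le hγ.2.le le_rfl)
        intervalIntegrable_const fun x hx => hmax x ⟨hγ.1.le.trans hx.1, hx.2⟩
    rw [intervalIntegral.integral_const, smul_eq_mul] at this
    linarith
  obtain ⟨α, hα, e⟩ := intermediate_value_Icc' hγ.1.le hmc ⟨hmγ, hm0.le⟩
  have hα1 : 1 / 2 < α := by
    rcases eq_or_lt_of_le hα.1 with e' | e'
    · rw [← e'] at e; linarith
    · exact e'
  have hα2 : α < 1 := lt_of_le_of_lt hα.2 hγ.2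
  have hφα : 0 < φ α := by
    have := hmono (show (1 / 2 : ℝ) ∈ Icc (1 / 2) γ from ⟨le_rfl, hγ.1.le⟩) hα hα1
    rwa [hu.half] at this
  have g1 : 0 ≤ Gk φ α := by rw [← e]; exact min_le_left _ _
  have g2 : 0 ≤ I0 φ α - (1 - α) * φ α := by rw [← e]; exact min_le_right _ _
  refine ⟨α, ⟨hα1, hα2⟩, hφα, by unfold I0 at g2; linarith, ?_⟩
  rw [knot_eq_iff hu hα1.le hα2.le]
  rcases eq_or_lt_of_le g1 with e1 | e1
  · unfold Gk at e1; linarith
  exfalso
  have e2 : I0 φ α - (1 - α) * φ α = 0 := by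
    simp only [hm] at e
    rcases min_choice (Gk φ α) (I0 φ α - (1 - α) * φ α) with c | c
    · rw [c] at e; linarith
    · rw [c] at e; exact e
  obtain ⟨x₁, hx₁, k1, k2⟩ := hu.crossing ⟨hα1, hα2⟩ hφα
    (show (1 - α) * φ α = ∫ x in α..1, φ x by unfold I0 at e2; linarith)
  have t1 : ∫ x in α..1, ((α - x₁) + 1 * (x - α)) * (φ x - (φ α + 0 * (x - α))) ≤ 0 := by
    apply ii_nonpos hα2.le
    intro x hx
    rcases le_or_gt x x₁ with c | c
    · exact mul_nonpos_of_nonpos_of_nonneg (by linarith) (by linarith [k1 x ⟨hx.1, c⟩])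
    · rcases eq_or_lt_of_le hx.2 with c' | c'
      · rw [c', hu.one]
        exact mul_nonpos_of_nonneg_of_nonpos (by linarith) (by linarith)
      · exact mul_nonpos_of_nonneg_of_nonpos (by linarith) (by linarith [k2 x ⟨c.le, c'⟩])
  rw [int_lin_h hu hα1.le hα2.le] at t1
  unfold Gk at e1
  have e3 : I0 φ α = (1 - α) * φ α := by linarith
  have e4 : ∫ x in α..1, φ x = (1 - α) * φ α := e3
  have e5 : ∫ x in α..1, x * φ x = I1 φ α := rfl
  rw [e4, e5] at t1
  rw [e3] at e1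
  nlinarith

/-- the integral of an affine function against `φ - λ (x - 1/2)` -/
lemma unif_orth (h : Uni φ) (u v : ℝ) :
    ∫ x in (1 / 2 : ℝ)..1, (u + v * (x - 1 / 2)) *
      (φ x - (0 + 24 * (∫ x in (1 / 2 : ℝ)..1, (x - 1 / 2) * φ x) * (x - 1 / 2))) =
      u * ((∫ x in (1 / 2 : ℝ)..1, φ x) - 3 * ∫ x in (1 / 2 : ℝ)..1, (x - 1 / 2) * φ x) := by
  rw [int_lin_h h le_rfl (by norm_num)]
  have : ∫ x in (1 / 2 : ℝ)..1, (x - 1 / 2) * φ x =
      (∫ x in (1 / 2 : ℝ)..1, x * φ x) - (∫ x in (1 / 2 : ℝ)..1, φ x) / 2 := by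
    have e : ∫ x in (1 / 2 : ℝ)..1, (x - 1 / 2) * φ x = ∫ x in (1 / 2 : ℝ)..1, (-(1 / 2) + 1 * x) * φ x := by
      apply intervalIntegral.integral_congr
      intro x _
      simp only; ring
    rw [e, int_lin h le_rfl (by norm_num)]
    ring
  rw [this]
  ring

/-- the inequality of the projection, case of the uniform law -/
lemma kkt_unif (h : Shp φ φ₁ φ₂) (hJ : 0 < ∫ x in (1 / 2 : ℝ)..1, (x - 1 / 2) * φ x)
    (hI : 3 * (∫ x in (1 / 2 : ℝ)..1, (x - 1 / 2) * φ x) ≤ ∫ x in (1 / 2 : ℝ)..1, φ x)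
    {q : ℝ → ℝ} (hq : ConvexOn ℝ (Ioo (1 / 2) 1) q)
    (hs : ∀ x x', 1 / 2 < x → x < x' → x' < 1 → q x * (x' - 1 / 2) ≤ q x' * (x - 1 / 2))
    (hi : IntervalIntegrable (fun x => q x *
      (φ x - (0 + 24 * (∫ x in (1 / 2 : ℝ)..1, (x - 1 / 2) * φ x) * (x - 1 / 2)))) volume (1 / 2) 1) :
    ∫ x in (1 / 2 : ℝ)..1, q x *
      (φ x - (0 + 24 * (∫ x in (1 / 2 : ℝ)..1, (x - 1 / 2) * φ x) * (x - 1 / 2))) ≤ 0 := by
  have ho := unif_orth h.uni
  set J := ∫ x in (1 / 2 : ℝ)..1, (x - 1 / 2) * φ x with hJdef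
  set g : ℝ → ℝ := fun x => φ x - (0 + 24 * J * (x - 1 / 2)) with hg
  have hc : ContinuousOn g (Icc (1 / 2) 1) := cont_h h.uni le_rfl _ _
  have hg1 : g 1 < 0 := by
    simp only [hg, h.uni.one]; linarith
  have hghalf : g (1 / 2) = 0 := by
    simp only [hg, h.uni.half]; ring
  obtain ⟨x₀, hx₀, hgx⟩ : ∃ x₀ ∈ Icc (1 / 2 : ℝ) 1, 0 < g x₀ := by
    by_contra hcon
    push Not at hcon
    have h1 := ho 0 (-1)
    have h2 : 0 < ∫ x in (1 / 2 : ℝ)..1, (0 + (-1) * (x - 1 / 2)) *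
        (φ x - (0 + 24 * J * (x - 1 / 2))) := by
      apply intervalIntegral.integral_pos (by norm_num)
      · exact (ContinuousOn.mul (by fun_prop) hc)
      · intro x hx
        exact mul_nonneg_of_nonpos_of_nonpos (by linarith [hx.1]) (hcon x ⟨hx.1.le, hx.2⟩)
      · exact ⟨1, ⟨by norm_num, le_rfl⟩, mul_pos_of_neg_of_neg (by norm_num) hg1⟩
    linarith
  obtain ⟨p, r, h1, h2, h3, h4, h5, h6⟩ := crossing_pts hc
    (fun x₁ x₂ x₃ a1 a2 a3 a4 a5 a6 => by
      have := ordConn h (le_refl (1 / 2 : ℝ)) (show 0 ≤ 24 * J by linarith) le_rfl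
        h.uni.half.le a1 a2 a3 a4
        (by simp only [hg] at a5; linarith) (by simp only [hg] at a6; linarith)
      simp only [hg]; linarith) hx₀ hgx hg1
  have hgr : g r ≤ 0 := by
    have hle : ∀ᶠ z in nhdsWithin r (Ioo r 1), g z ≤ 0 := by
      filter_upwards [self_mem_nhdsWithin] with z hz
      exact h6 z hz.1 hz.2.le
    have hne : (nhdsWithin r (Ioo r 1)).NeBot := by
      rw [nhdsWithin_Ioo_eq_nhdsGT h3]; infer_instance
    exact le_of_tendsto ((hc r ⟨by linarith, h3.le⟩).mono (show Ioo r 1 ⊆ Icc (1 / 2) 1 from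
      fun z hz => ⟨by linarith [hz.1], hz.2.le⟩)).tendsto hle
  rcases eq_or_lt_of_le h1 with e | e
  · -- one change of sign
    have hr0 : 0 < r - 1 / 2 := by linarith
    apply int_nonpos (by norm_num) hi (A := fun x => 0 + (q r / (r - 1 / 2)) * (x - 1 / 2))
    · apply ContinuousOn.intervalIntegrable
      rw [uIcc_of_le (by norm_num)]
      exact ContinuousOn.mul (by fun_prop) hc
    · intro x hx1 hx2
      rcases lt_trichotomy x r with c | c | c
      · apply mul_nonpos_of_nonpos_of_nonneg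
        · have := hs x r hx1 c h3
          have e2 : 0 + q r / (r - 1 / 2) * (x - 1 / 2) = q r * (x - 1 / 2) / (r - 1 / 2) := by ring
          rw [e2, sub_nonpos, le_div_iff₀ hr0]
          exact this
        · exact (h4 x (by rw [← e]; exact hx1) c).le
      · rw [c]
        have e2 : q r - (0 + q r / (r - 1 / 2) * (r - 1 / 2)) = 0 := by
          rw [div_mul_cancel₀ _ hr0.ne']; ring
        rw [e2, zero_mul]
      · apply mul_nonpos_of_nonneg_of_nonpos
        · have := hs r x (by linarith) c hx2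
          have e2 : 0 + q r / (r - 1 / 2) * (x - 1 / 2) = q r * (x - 1 / 2) / (r - 1 / 2) := by ring
          rw [e2, sub_nonneg, div_le_iff₀ hr0]
          exact this
        · exact h6 x c hx2.le
    · have := ho 0 (q r / (r - 1 / 2))
      rw [zero_mul] at this
      exact this.le
  · obtain ⟨s, hs1, hs2⟩ := chord_ineq hq e h2 h3
    have hgp : g p ≤ 0 := by
      have hle : ∀ᶠ z in nhdsWithin p (Ioo (1 / 2) p), g z ≤ 0 := by
        filter_upwards [self_mem_nhdsWithin] with z hz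
        exact h5 z hz.1.le hz.2
      have hne : (nhdsWithin p (Ioo (1 / 2) p)).NeBot := by
        rw [nhdsWithin_Ioo_eq_nhdsLT e]; infer_instance
      exact le_of_tendsto ((hc p ⟨e.le, by linarith⟩).mono (show Ioo (1 / 2) p ⊆ Icc (1 / 2) 1 from
        fun z hz => ⟨hz.1.le, by linarith [hz.2]⟩)).tendsto hle
    apply int_nonpos (by norm_num) hi (A := fun x => (q p - s * (p - 1 / 2)) + s * (x - 1 / 2))
    · apply ContinuousOn.intervalIntegrable
      rw [uIcc_of_le (by norm_num)]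
      exact ContinuousOn.mul (by fun_prop) hc
    · intro x hx1 hx2
      have e2 : (q p - s * (p - 1 / 2)) + s * (x - 1 / 2) = q p + s * (x - p) := by ring
      simp only [e2]
      have hh := hs2 x hx1 hx2
      rcases le_or_gt x p with c | c
      · apply mul_nonpos_of_nonneg_of_nonpos (by linarith [hh.2 (Or.inl c)])
        rcases eq_or_lt_of_le c with c' | c'
        · rw [c']; exact hgp
        · exact h5 x hx1.le c'
      · rcases lt_or_ge x r with c2 | c2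
        · exact mul_nonpos_of_nonpos_of_nonneg (by linarith [hh.1 c c2]) (h4 x c c2).le
        · apply mul_nonpos_of_nonneg_of_nonpos (by linarith [hh.2 (Or.inr c2)])
          rcases eq_or_lt_of_le c2 with c' | c'
          · rw [← c']; exact hgr
          · exact h6 x c' hx2.le
    · have hu := ho (q p - s * (p - 1 / 2)) s
      have hneg : q p - s * (p - 1 / 2) ≤ 0 := by
        have t1 := hs p r e h2 h3
        have t2 : (q p - s * (p - 1 / 2)) * (r - p) ≤ 0 := by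
          have : (q p - s * (p - 1 / 2)) * (r - p) = q p * (r - 1 / 2) - q r * (p - 1 / 2) := by
            linear_combination (-(p - 1 / 2)) * hs1
          rw [this]; linarith
        by_contra hcc
        push Not at hcc
        exact absurd (mul_pos hcc (show 0 < r - p by linarith)) (not_lt.2 t2)
      calc _ = _ := hu
        _ ≤ 0 := mul_nonpos_of_nonpos_of_nonneg hneg (by linarith)

/-- the inequality of the projection, the trivial case -/
lemma kkt_zero (h : Uni φ) (hJ : ∫ x in (1 / 2 : ℝ)..1, (x - 1 / 2) * φ x ≤ 0)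
    {q : ℝ → ℝ} (hq : ∀ x, 1 / 2 < x → x < 1 → 0 ≤ q x)
    (hs : ∀ x x', 1 / 2 < x → x < x' → x' < 1 → q x * (x' - 1 / 2) ≤ q x' * (x - 1 / 2))
    (hi : IntervalIntegrable (fun x => q x * φ x) volume (1 / 2) 1) :
    ∫ x in (1 / 2 : ℝ)..1, q x * φ x ≤ 0 := by
  obtain ⟨x₀, hx₀, c1, c2⟩ := h.exists_sign
  rcases eq_or_lt_of_le hx₀.1 with e | e
  · apply int_nonpos (by norm_num) hi (A := fun _ => 0)
    · simp
    · intro x hx1 hx2
      rw [sub_zero]
      exact mul_nonpos_of_nonneg_of_nonpos (hq x hx1 hx2) (c2 x (by rw [← e]; exact hx1) hx2).le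
    · simp
  rcases eq_or_lt_of_le hx₀.2 with e' | e'
  · exfalso
    have : 0 < ∫ x in (1 / 2 : ℝ)..1, (x - 1 / 2) * φ x := by
      apply intervalIntegral.integral_pos (by norm_num)
      · exact ContinuousOn.mul (by fun_prop) h.cont
      · intro x hx
        rcases eq_or_lt_of_le hx.2 with e2 | e2
        · rw [e2, h.one, mul_zero]
        · exact mul_nonneg (by linarith [hx.1]) (c1 x hx.1 (by rw [e']; exact e2)).le
      · exact ⟨3 / 4, by norm_num, mul_pos (by norm_num) (c1 _ (by norm_num) (by rw [e']; norm_num))⟩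
    linarith
  have hr0 : 0 < x₀ - 1 / 2 := by linarith
  apply int_nonpos (by norm_num) hi (A := fun x => (q x₀ / (x₀ - 1 / 2)) * (x - 1 / 2))
  · apply ContinuousOn.intervalIntegrable
    rw [uIcc_of_le (by norm_num)]
    exact ContinuousOn.mul (by fun_prop) h.cont
  · intro x hx1 hx2
    have e2 : q x₀ / (x₀ - 1 / 2) * (x - 1 / 2) = q x₀ * (x - 1 / 2) / (x₀ - 1 / 2) := by ring
    rw [e2]
    rcases lt_trichotomy x x₀ with c | c | c
    · apply mul_nonpos_of_nonpos_of_nonneg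
      · rw [sub_nonpos, le_div_iff₀ hr0]
        exact hs x x₀ hx1 c e'
      · exact (c1 x hx1 c).le
    · rw [c]
      have : q x₀ - q x₀ * (x₀ - 1 / 2) / (x₀ - 1 / 2) = 0 := by
        rw [mul_div_cancel_right₀ _ hr0.ne']; ring
      rw [this, zero_mul]
    · apply mul_nonpos_of_nonneg_of_nonpos
      · rw [sub_nonneg, div_le_iff₀ hr0]
        exact hs x₀ x e c hx2
      · exact (c2 x c hx2).le
  · have e2 : ∫ x in (1 / 2 : ℝ)..1, q x₀ / (x₀ - 1 / 2) * (x - 1 / 2) * φ x =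
        q x₀ / (x₀ - 1 / 2) * ∫ x in (1 / 2 : ℝ)..1, (x - 1 / 2) * φ x := by
      rw [← intervalIntegral.integral_const_mul]
      apply intervalIntegral.integral_congr
      intro x _
      simp only; ring
    rw [e2]
    exact mul_nonpos_of_nonneg_of_nonpos (div_nonneg (hq x₀ e e') hr0.le) hJ

end Pool.Agent.H967.KRU
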