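import Pool.Agent.H967.KRU.AbsU

set_option autoImplicit false

/-! # The knot and the inequalities of the projection -/

namespace Pool.Agent.H967.KRU

open Real Set MeasureTheory
open Pool.Agent.Q82.KR (Uni)

/-- the equations for the knot -/
def IsKnotA (φ : ℝ → ℝ) (α : ℝ) : Prop :=
  α ∈ Ioo (1 / 2 : ℝ) 1 ∧ 0 < φ α ∧ (1 - α) * φ α ≤ ∫ x in α..1, φ x ∧
    (1 - α) ^ 2 * φ α = ∫ x in α..1, (4 + 2 * α - 6 * x) * φ x

/-- the slope of the affine part -/
noncomputable def bk (φ : ℝ → ℝ) (α : ℝ) : ℝ :=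
  2 * ((∫ x in α..1, φ x) - (1 - α) * φ α) / (1 - α) ^ 2

variable {φ φ₁ φ₂ : ℝ → ℝ}

lemma cont_int (h : Uni φ) {α : ℝ} (hα : 1 / 2 ≤ α) (hα1 : α ≤ 1) {c : ℝ → ℝ} (hc : Continuous c) :
    IntervalIntegrable (fun x => c x * φ x) volume α 1 := by
  apply ContinuousOn.intervalIntegrable
  rw [uIcc_of_le hα1]
  exact hc.continuousOn.mul (h.cont.mono (Icc_subset_Icc hα le_rfl))

lemma int_affine (α A B C : ℝ) :
    ∫ x in α..1, (C * (x - α) ^ 2 + B * (x - α) + A) =
      C * (1 - α) ^ 3 / 3 + B * (1 - α) ^ 2 / 2 + A * (1 - α) := by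
  have h : ∀ x ∈ uIcc α 1, HasDerivAt
      (fun x : ℝ => C * (x - α) ^ 3 / 3 + B * (x - α) ^ 2 / 2 + A * (x - α))
      (C * (x - α) ^ 2 + B * (x - α) + A) x := by
    intro x _
    have d := ((((((hasDerivAt_id x).sub_const α).pow 3).const_mul C).div_const 3).add
      (((((hasDerivAt_id x).sub_const α).pow 2).const_mul B).div_const 2)).add
      (((hasDerivAt_id x).sub_const α).const_mul A)
    refine d.congr_deriv ?_
    simp; ring
  rw [intervalIntegral.integral_eq_sub_of_hasDerivAt h
    (Continuous.intervalIntegrable (by fun_prop) _ _)]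
  simp

lemma int_lin (h : Uni φ) {α : ℝ} (hα : 1 / 2 ≤ α) (hα1 : α ≤ 1) (u v : ℝ) :
    ∫ x in α..1, (u + v * x) * φ x = u * (∫ x in α..1, φ x) + v * ∫ x in α..1, x * φ x := by
  have i1 : IntervalIntegrable (fun x => u * φ x) volume α 1 :=
    cont_int h hα hα1 continuous_const
  have i2 : IntervalIntegrable (fun x => v * (x * φ x)) volume α 1 :=
    (cont_int h hα hα1 continuous_id).const_mul v
  rw [← intervalIntegral.integral_const_mul, ← intervalIntegral.integral_const_mul,
    ← intervalIntegral.integral_add i1 i2]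
  apply intervalIntegral.integral_congr
  intro x _
  simp only; ring

/-- integral of an affine function against `φ` minus an affine function -/
lemma int_lin_h (h : Uni φ) {α : ℝ} (hα : 1 / 2 ≤ α) (hα1 : α ≤ 1) (A B u v : ℝ) :
    ∫ x in α..1, (u + v * (x - α)) * (φ x - (A + B * (x - α))) =
      (u - v * α) * (∫ x in α..1, φ x) + v * (∫ x in α..1, x * φ x) -
      (v * B * (1 - α) ^ 3 / 3 + (u * B + v * A) * (1 - α) ^ 2 / 2 + u * A * (1 - α)) := by
  rw [← int_lin h hα hα1, ← int_affine α (u * A) (u * B + v * A) (v * B),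
    ← intervalIntegral.integral_sub (cont_int h hα hα1 (by fun_prop))
      (Continuous.intervalIntegrable (by fun_prop) _ _)]
  apply intervalIntegral.integral_congr
  intro x _
  simp only; ring

lemma knot_orth (h : Uni φ) {α : ℝ} (hk : IsKnotA φ α) (u v : ℝ) :
    ∫ x in α..1, (u + v * (x - α)) * (φ x - (φ α + bk φ α * (x - α))) = 0 := by
  obtain ⟨hα, _, _, he⟩ := hk
  have e1 : ∫ x in α..1, (4 + 2 * α - 6 * x) * φ x =
      (4 + 2 * α) * (∫ x in α..1, φ x) + (-6) * ∫ x in α..1, x * φ x := by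
    rw [← int_lin h hα.1.le hα.2.le]
    apply intervalIntegral.integral_congr
    intro x _
    simp only; ring
  rw [e1] at he
  have hL : (1 - α) ≠ 0 := by linarith [hα.2]
  have eb : bk φ α * (1 - α) ^ 2 = 2 * ((∫ x in α..1, φ x) - (1 - α) * φ α) := by
    unfold bk; field_simp
  rw [int_lin_h h hα.1.le hα.2.le]
  set I₀ := ∫ x in α..1, φ x
  set I₁ := ∫ x in α..1, x * φ x
  have eb3 : bk φ α * (1 - α) ^ 3 = 2 * (I₀ - (1 - α) * φ α) * (1 - α) := by
    rw [← eb]; ring
  have e2 : v * bk φ α * (1 - α) ^ 3 / 3 = v * (2 * (I₀ - (1 - α) * φ α) * (1 - α)) / 3 := by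
    rw [← eb3]; ring
  have e3 : (u * bk φ α + v * φ α) * (1 - α) ^ 2 / 2 =
      u * (2 * (I₀ - (1 - α) * φ α)) / 2 + v * φ α * (1 - α) ^ 2 / 2 := by
    rw [← eb]; ring
  rw [e2, e3]
  linear_combination (v / 6) * he

lemma bk_nonneg {α : ℝ} (hk : IsKnotA φ α) : 0 ≤ bk φ α := by
  obtain ⟨hα, _, h2, _⟩ := hk
  unfold bk
  apply div_nonneg (by linarith) (by positivity)

/-- the chord of a convex function -/
lemma chord_ineq {q : ℝ → ℝ} (hq : ConvexOn ℝ (Ioo (1 / 2) 1) q) {p r : ℝ} (hp : 1 / 2 < p)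
    (hpr : p < r) (hr : r < 1) : ∃ s, s * (r - p) = q r - q p ∧
      ∀ x, 1 / 2 < x → x < 1 → ((p < x → x < r → q x ≤ q p + s * (x - p)) ∧
        (x ≤ p ∨ r ≤ x → q p + s * (x - p) ≤ q x)) := by
  have hd : 0 < r - p := by linarith
  refine ⟨(q r - q p) / (r - p), by field_simp, fun x hx1 hx2 => ⟨fun h1 h2 => ?_, ?_⟩⟩
  · have := hq.slope_mono_adjacent (show p ∈ Ioo (1 / 2 : ℝ) 1 from ⟨hp, by linarith⟩)
      (show r ∈ Ioo (1 / 2 : ℝ) 1 from ⟨by linarith, hr⟩) h1 h2
    rw [div_le_div_iff₀ (by linarith) (by linarith)] at this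
    have e : (q p + (q r - q p) / (r - p) * (x - p)) - q x =
        ((q r - q x) * (x - p) - (q x - q p) * (r - x)) / (r - p) := by
      field_simp; ring
    have : 0 ≤ (q p + (q r - q p) / (r - p) * (x - p)) - q x := by
      rw [e]; exact div_nonneg (by linarith) hd.le
    linarith
  · rintro (h | h)
    · rcases eq_or_lt_of_le h with e | e
      · rw [e]; simp
      · have := hq.slope_mono_adjacent (show x ∈ Ioo (1 / 2 : ℝ) 1 from ⟨hx1, hx2⟩)
          (show r ∈ Ioo (1 / 2 : ℝ) 1 from ⟨by linarith, hr⟩) e hpr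
        rw [div_le_iff₀ (by linarith)] at this
        have e2 : (q r - q p) / (r - p) * (x - p) = -((q r - q p) / (r - p) * (p - x)) := by ring
        linarith
    · rcases eq_or_lt_of_le h with e | e
      · rw [← e]
        have : (q r - q p) / (r - p) * (r - p) = q r - q p := by field_simp
        linarith
      · have := hq.slope_mono_adjacent (show p ∈ Ioo (1 / 2 : ℝ) 1 from ⟨hp, by linarith⟩)
          (show x ∈ Ioo (1 / 2 : ℝ) 1 from ⟨hx1, hx2⟩) hpr e
        rw [le_div_iff₀ (by linarith)] at this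
        have e2 : (q r - q p) / (r - p) * (x - p) =
          (q r - q p) / (r - p) * (x - r) + (q r - q p) := by field_simp; ring
        linarith

lemma int_nonpos {q A h : ℝ → ℝ} {α : ℝ} (hα : α ≤ 1)
    (hqi : IntervalIntegrable (fun x => q x * h x) volume α 1)
    (hAi : IntervalIntegrable (fun x => A x * h x) volume α 1)
    (hp : ∀ x, α < x → x < 1 → (q x - A x) * h x ≤ 0) (hA : ∫ x in α..1, A x * h x ≤ 0) :
    ∫ x in α..1, q x * h x ≤ 0 := by
  refine le_trans ?_ hA
  apply intervalIntegral.integral_mono_on_of_le_Ioo hα hqi hAi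
  intro x hx
  have := hp x hx.1 hx.2
  linarith

lemma cont_h (h : Uni φ) {α : ℝ} (hα : 1 / 2 ≤ α) (A B : ℝ) :
    ContinuousOn (fun x => φ x - (A + B * (x - α))) (Icc α 1) :=
  (h.cont.mono (Icc_subset_Icc hα le_rfl)).sub (by fun_prop)

/-- the pattern of `φ` minus the affine part -/
lemma knot_pattern (h : Shp φ φ₁ φ₂) {α : ℝ} (hk : IsKnotA φ α) :
    ∃ p q, α < p ∧ p < q ∧ q < 1 ∧ (∀ x, p < x → x < q → φ α + bk φ α * (x - α) < φ x) ∧
      (∀ x, α ≤ x → x < p → φ x ≤ φ α + bk φ α * (x - α)) ∧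
      ∀ x, q < x → x ≤ 1 → φ x ≤ φ α + bk φ α * (x - α) := by
  have hb := bk_nonneg hk
  have ho := knot_orth h.uni hk
  obtain ⟨hα, hpos, _, _⟩ := hk
  set b := bk φ α with hbdef
  set g : ℝ → ℝ := fun x => φ x - (φ α + b * (x - α)) with hg
  have hc : ContinuousOn g (Icc α 1) := cont_h h.uni hα.1.le _ _
  have hg1 : g 1 < 0 := by
    simp only [hg, h.uni.one]
    have : 0 ≤ b * (1 - α) := mul_nonneg hb (by linarith [hα.2])
    linarith
  -- `g` is somewhere positive
  obtain ⟨x₀, hx₀, hgx⟩ : ∃ x₀ ∈ Icc α 1, 0 < g x₀ := by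
    by_contra hcon
    push Not at hcon
    have h1 := ho (-1) 0
    have h2 : 0 < ∫ x in α..1, (-1 + 0 * (x - α)) * (φ x - (φ α + b * (x - α))) := by
      apply intervalIntegral.integral_pos hα.2
      · exact (ContinuousOn.mul (by fun_prop) hc)
      · intro x hx
        have := hcon x ⟨hx.1.le, hx.2⟩
        simp only [hg] at this
        nlinarith
      · exact ⟨1, ⟨hα.2.le, le_rfl⟩, by simp only [hg] at hg1; nlinarith⟩
    linarith
  obtain ⟨p, q, h1, h2, h3, h4, h5, h6⟩ := crossing_pts hc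
    (fun x₁ x₂ x₃ a1 a2 a3 a4 a5 a6 => by
      have := ordConn h hα.1.le hb hpos.le le_rfl a1 a2 a3 a4
        (by simp only [hg] at a5; linarith) (by simp only [hg] at a6; linarith)
      simp only [hg]; linarith) hx₀ hgx hg1
  refine ⟨p, q, ?_, h2, h3, fun x a1 a2 => by have := h4 x a1 a2; simp only [hg] at this; linarith,
    fun x a1 a2 => by have := h5 x a1 a2; simp only [hg] at this; linarith,
    fun x a1 a2 => by have := h6 x a1 a2; simp only [hg] at this; linarith⟩
  rcases eq_or_lt_of_le h1 with e | e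
  · exfalso
    have t1 := ho (q - α) (-1)
    have t2 : 0 < ∫ x in α..1, ((q - α) + (-1) * (x - α)) * (φ x - (φ α + b * (x - α))) := by
      apply intervalIntegral.integral_pos hα.2
      · exact (ContinuousOn.mul (by fun_prop) hc)
      · intro x hx
        rcases lt_trichotomy x q with c | c | c
        · have := h4 x (by rw [← e]; exact hx.1) c
          simp only [hg] at this
          exact mul_nonneg (by linarith) this.le
        · rw [c]; simp
        · have := h6 x c hx.2
          simp only [hg] at this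
          exact mul_nonneg_of_nonpos_of_nonpos (by linarith) this
      · refine ⟨1, ⟨hα.2.le, le_rfl⟩, ?_⟩
        simp only [hg] at hg1
        exact mul_pos_of_neg_of_neg (by linarith) hg1
    linarith
  · exact e

/-- the inequality of the projection, case of a knot -/
lemma kkt_knot (h : Shp φ φ₁ φ₂) {α : ℝ} (hk : IsKnotA φ α) {q : ℝ → ℝ}
    (hq : ConvexOn ℝ (Ioo (1 / 2) 1) q)
    (hi : IntervalIntegrable (fun x => q x * (φ x - (φ α + bk φ α * (x - α)))) volume α 1) :
    ∫ x in α..1, q x * (φ x - (φ α + bk φ α * (x - α))) ≤ 0 := by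
  obtain ⟨p, r, h1, h2, h3, h4, h5, h6⟩ := knot_pattern h hk
  have ho := knot_orth h.uni hk
  obtain ⟨hα, hpos, _, _⟩ := hk
  obtain ⟨s, _, hs2⟩ := chord_ineq hq (show 1 / 2 < p by linarith [hα.1]) h2 h3
  apply int_nonpos hα.2.le hi (A := fun x => (q p - s * (p - α)) + s * (x - α))
  · apply ContinuousOn.intervalIntegrable
    rw [uIcc_of_le hα.2.le]
    exact ContinuousOn.mul (by fun_prop) (cont_h h.uni hα.1.le _ _)
  · intro x hx1 hx2
    have e : (q p - s * (p - α)) + s * (x - α) = q p + s * (x - p) := by ring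
    simp only [e]
    have hh := hs2 x (by linarith [hα.1]) hx2
    rcases le_or_gt x p with c | c
    · apply mul_nonpos_of_nonneg_of_nonpos
      · linarith [hh.2 (Or.inl c)]
      · rcases eq_or_lt_of_le c with c' | c'
        · -- by continuity
          have := (cont_h h.uni hα.1.le (φ α) (bk φ α)) p ⟨h1.le, by linarith⟩
          have hle : ∀ᶠ z in nhdsWithin p (Ioo α p), φ z - (φ α + bk φ α * (z - α)) ≤ 0 := by
            filter_upwards [self_mem_nhdsWithin] with z hz
            linarith [h5 z hz.1.le hz.2]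
          have hne : (nhdsWithin p (Ioo α p)).NeBot := by
            rw [nhdsWithin_Ioo_eq_nhdsLT h1]; infer_instance
          have := le_of_tendsto (this.mono (show Ioo α p ⊆ Icc α 1 from fun z hz =>
            ⟨hz.1.le, by linarith [hz.2]⟩)).tendsto hle
          rw [c']; exact this
        · linarith [h5 x hx1.le c']
    · rcases lt_or_ge x r with c2 | c2
      · apply mul_nonpos_of_nonpos_of_nonneg
        · linarith [hh.1 c c2]
        · linarith [h4 x c c2]
      · apply mul_nonpos_of_nonneg_of_nonpos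
        · linarith [hh.2 (Or.inr c2)]
        · rcases eq_or_lt_of_le c2 with c' | c'
          · have := (cont_h h.uni hα.1.le (φ α) (bk φ α)) r ⟨by linarith, h3.le⟩
            have hle : ∀ᶠ z in nhdsWithin r (Ioo r 1), φ z - (φ α + bk φ α * (z - α)) ≤ 0 := by
              filter_upwards [self_mem_nhdsWithin] with z hz
              linarith [h6 z hz.1 hz.2.le]
            have hne : (nhdsWithin r (Ioo r 1)).NeBot := by
              rw [nhdsWithin_Ioo_eq_nhdsGT h3]; infer_instance
            have := le_of_tendsto (this.mono (show Ioo r 1 ⊆ Icc α 1 from fun z hz =>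
              ⟨by linarith [hz.1], hz.2.le⟩)).tendsto hle
            rw [← c']; exact this
          · linarith [h6 x c' hx2.le]
  · exact (ho _ _).le

end Pool.Agent.H967.KRU
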