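import Pool.Graph.R_pool_sql_team_seeded_3997aac3.Q82.KR.Abs

set_option autoImplicit false

/-! # The projection of a convex-concave function on the convex functions -/

namespace Pool.Agent.H967.KRU

open Real Set MeasureTheory
open Pool.Agent.Q82.KR (Uni)

/-- `φ` has a unimodal positive part, changes its sign at most once, and before its maximum it is
first convex and then concave -/
structure Shp (φ φ₁ φ₂ : ℝ → ℝ) : Prop where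
  uni : Uni φ
  d1 : ∀ x, 1 / 2 < x → x < 1 → HasDerivAt φ (φ₁ x) x
  d2 : ∀ x, 1 / 2 < x → x < 1 → HasDerivAt φ₁ (φ₂ x) x
  pat : ∀ x₁ x₂, 1 / 2 < x₁ → x₁ < x₂ → x₂ < 1 → 0 < φ x₂ → 0 ≤ φ₁ x₂ → 0 ≤ φ₂ x₂ → 0 < φ₂ x₁

lemma exists_max {φ : ℝ → ℝ} (h : Uni φ) {x₀ : ℝ} (hx₀ : x₀ ∈ Icc (1 / 2 : ℝ) 1) (hpos : 0 < φ x₀) :
    ∃ γ ∈ Ioo (1 / 2 : ℝ) 1, 0 < φ γ ∧ (∀ x ∈ Icc (1 / 2 : ℝ) 1, φ x ≤ φ γ) ∧
      StrictMonoOn φ (Icc (1 / 2) γ) ∧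
      ∀ x₂ x₃, γ ≤ x₂ → x₂ < x₃ → x₃ ≤ 1 → 0 < φ x₃ → φ x₃ ≤ φ x₂ := by
  obtain ⟨γ, hγ, hmax⟩ := isCompact_Icc.exists_isMaxOn
    (nonempty_Icc.2 (by norm_num : (1 / 2 : ℝ) ≤ 1)) h.cont
  have hmax' : ∀ x ∈ Icc (1 / 2 : ℝ) 1, φ x ≤ φ γ := fun x hx => hmax hx
  have hγpos : 0 < φ γ := hpos.trans_le (hmax' x₀ hx₀)
  have hγ1 : 1 / 2 < γ := by
    rcases eq_or_lt_of_le hγ.1 with e | e
    · rw [← e, h.half] at hγpos; exact absurd hγpos (lt_irrefl _)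
    · exact e
  have hγ2 : γ < 1 := by
    rcases eq_or_lt_of_le hγ.2 with e | e
    · rw [e, h.one] at hγpos; exact absurd hγpos (lt_irrefl _)
    · exact e
  refine ⟨γ, ⟨hγ1, hγ2⟩, hγpos, hmax', ?_, ?_⟩
  · intro x hx y hy hxy
    rcases eq_or_lt_of_le hx.1 with e | e
    · rw [← e, h.half]
      rcases eq_or_lt_of_le hy.2 with e2 | e2
      · rw [e2]; exact hγpos
      · exact h.sgn y γ (by linarith) e2 hγ2 hγpos.le
    · have hxγ : x < γ := lt_of_lt_of_le hxy hy.2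
      have key : ∀ z, x < z → z < γ → φ x < φ z := by
        intro z h1 h2
        have := h.quasi x z γ e h1 h2 hγ2 hγpos
        rwa [min_eq_left (hmax' x ⟨e.le, by linarith⟩)] at this
      rcases eq_or_lt_of_le hy.2 with e2 | e2
      · rw [e2]
        have h1 := key ((x + γ) / 2) (by linarith) (by linarith)
        exact lt_of_lt_of_le h1 (hmax' _ ⟨by linarith, by linarith⟩)
      · exact key y hxy e2
  · intro x₂ x₃ h1 h2 h3 h4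
    have h31 : x₃ < 1 := by
      rcases eq_or_lt_of_le h3 with e | e
      · rw [e, h.one] at h4; exact absurd h4 (lt_irrefl _)
      · exact e
    rcases eq_or_lt_of_le h1 with e | e
    · rw [← e]; exact hmax' _ ⟨by linarith, h3⟩
    · have := h.quasi γ x₂ x₃ hγ1 e h2 h31 h4
      rw [min_eq_right (hmax' x₃ ⟨by linarith, h3⟩)] at this
      exact this.le

variable {φ φ₁ φ₂ : ℝ → ℝ}

lemma deriv_nonneg_of_mono {γ x : ℝ} (hm : StrictMonoOn φ (Icc (1 / 2) γ)) (hx1 : 1 / 2 < x)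
    (hx2 : x < γ) (hd : HasDerivAt φ (φ₁ x) x) : 0 ≤ φ₁ x := by
  rw [← hd.deriv]
  have hn : Icc (1 / 2 : ℝ) γ ∈ nhds x := Icc_mem_nhds hx1 hx2
  rw [← derivWithin_of_mem_nhds hn]
  exact hm.monotoneOn.derivWithin_nonneg

/-- the set where `φ` exceeds an increasing affine function is an interval -/
lemma ordConn (h : Shp φ φ₁ φ₂) {α A B : ℝ} (hα : 1 / 2 ≤ α) (hB : 0 ≤ B) (hA : 0 ≤ A)
    (hle : φ α ≤ A) {x₁ x₂ x₃ : ℝ} (h1 : α ≤ x₁) (h12 : x₁ < x₂) (h23 : x₂ < x₃) (h3 : x₃ ≤ 1)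
    (p1 : A + B * (x₁ - α) < φ x₁) (p3 : A + B * (x₃ - α) < φ x₃) :
    A + B * (x₂ - α) < φ x₂ := by
  by_contra hcon
  push Not at hcon
  have hφ3 : 0 < φ x₃ := by
    have : 0 ≤ B * (x₃ - α) := mul_nonneg hB (by linarith)
    linarith
  obtain ⟨γ, hγ, hγpos, hmax, hmono, hanti⟩ := exists_max h.uni (x₀ := x₃)
    ⟨by linarith, h3⟩ hφ3
  have hx2γ : x₂ < γ := by
    by_contra hc
    push Not at hc
    have t1 := hanti x₂ x₃ hc h23 h3 hφ3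
    have t2 : B * (x₂ - α) ≤ B * (x₃ - α) := mul_le_mul_of_nonneg_left (by linarith) hB
    linarith
  obtain ⟨x₄, h24, h4γ, p4⟩ : ∃ x₄, x₂ < x₄ ∧ x₄ ≤ γ ∧ A + B * (x₄ - α) < φ x₄ := by
    rcases le_or_gt x₃ γ with hc | hc
    · exact ⟨x₃, h23, hc, p3⟩
    · refine ⟨γ, hx2γ, le_rfl, ?_⟩
      have t1 := hmax x₃ ⟨by linarith, h3⟩
      have t2 : B * (γ - α) ≤ B * (x₃ - α) := mul_le_mul_of_nonneg_left (by linarith) hB
      linarith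
  have hα1 : α < x₁ := by
    rcases eq_or_lt_of_le h1 with e | e
    · rw [← e] at p1; simp at p1; linarith
    · exact e
  have hcont : ∀ p q : ℝ, 1 / 2 ≤ p → q ≤ 1 → ContinuousOn φ (Icc p q) := fun p q hp hq =>
    h.uni.cont.mono (Icc_subset_Icc hp hq)
  obtain ⟨ξ₁, hξ₁, e₁⟩ := exists_hasDerivAt_eq_slope φ φ₁ hα1 (hcont _ _ hα (by linarith [hγ.2]))
    fun y hy => h.d1 y (by linarith [hy.1]) (by linarith [hy.2, hγ.2])
  obtain ⟨ξ₂, hξ₂, e₂⟩ := exists_hasDerivAt_eq_slope φ φ₁ h12 (hcont _ _ (by linarith) (by linarith [hγ.2]))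
    fun y hy => h.d1 y (by linarith [hy.1]) (by linarith [hy.2, hγ.2])
  obtain ⟨ξ₃, hξ₃, e₃⟩ := exists_hasDerivAt_eq_slope φ φ₁ h24 (hcont _ _ (by linarith) (by linarith [hγ.2]))
    fun y hy => h.d1 y (by linarith [hy.1]) (by linarith [hy.2, hγ.2])
  have s1 : B < φ₁ ξ₁ := by
    rw [e₁, lt_div_iff₀ (by linarith)]; linarith
  have s2 : φ₁ ξ₂ < B := by
    rw [e₂, div_lt_iff₀ (by linarith)]; linarith
  have s3 : B < φ₁ ξ₃ := by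
    rw [e₃, lt_div_iff₀ (by linarith)]; linarith
  have hcont1 : ∀ p q : ℝ, 1 / 2 < p → q < 1 → ContinuousOn φ₁ (Icc p q) := fun p q hp hq x hx =>
    (h.d2 x (by linarith [hx.1]) (by linarith [hx.2])).continuousAt.continuousWithinAt
  have l12 : ξ₁ < ξ₂ := hξ₁.2.trans hξ₂.1
  have l23 : ξ₂ < ξ₃ := hξ₂.2.trans hξ₃.1
  obtain ⟨η₁, hη₁, f₁⟩ := exists_hasDerivAt_eq_slope φ₁ φ₂ l12
    (hcont1 _ _ (by linarith [hξ₁.1]) (by linarith [hξ₂.2, hγ.2]))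
    fun y hy => h.d2 y (by linarith [hy.1, hξ₁.1]) (by linarith [hy.2, hξ₂.2, hγ.2])
  obtain ⟨η₂, hη₂, f₂⟩ := exists_hasDerivAt_eq_slope φ₁ φ₂ l23
    (hcont1 _ _ (by linarith [hξ₂.1]) (by linarith [hξ₃.2, hγ.2]))
    fun y hy => h.d2 y (by linarith [hy.1, hξ₂.1]) (by linarith [hy.2, hξ₃.2, hγ.2])
  have t1 : φ₂ η₁ < 0 := by
    rw [f₁]; exact div_neg_of_neg_of_pos (by linarith) (by linarith)
  have t2 : 0 < φ₂ η₂ := by
    rw [f₂]; exact div_pos (by linarith) (by linarith)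
  have g1 : 1 / 2 < η₁ := by linarith [hξ₁.1, hη₁.1]
  have g2 : η₁ < η₂ := hη₁.2.trans hη₂.1
  have g3 : η₂ < γ := by linarith [hη₂.2, hξ₃.2]
  have pos : 0 < φ η₂ := by
    have := hmono (show (1 / 2 : ℝ) ∈ Icc (1 / 2) γ from ⟨le_rfl, hγ.1.le⟩)
      (show η₂ ∈ Icc (1 / 2) γ from ⟨by linarith, g3.le⟩) (by linarith)
    rwa [h.uni.half] at this
  have := h.pat η₁ η₂ g1 g2 (by linarith [hγ.2]) pos
    (deriv_nonneg_of_mono hmono (by linarith) g3 (h.d1 _ (by linarith) (by linarith [hγ.2]))) t2.le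
  linarith

/-- the end points of the interval of positivity -/
lemma crossing_pts {h : ℝ → ℝ} {α : ℝ} (hc : ContinuousOn h (Icc α 1))
    (hoc : ∀ x₁ x₂ x₃, α ≤ x₁ → x₁ < x₂ → x₂ < x₃ → x₃ ≤ 1 → 0 < h x₁ → 0 < h x₃ → 0 < h x₂)
    {x₀ : ℝ} (hx₀ : x₀ ∈ Icc α 1) (hpos : 0 < h x₀) (h1 : h 1 < 0) :
    ∃ p q, α ≤ p ∧ p < q ∧ q < 1 ∧ (∀ x, p < x → x < q → 0 < h x) ∧
      (∀ x, α ≤ x → x < p → h x ≤ 0) ∧ ∀ x, q < x → x ≤ 1 → h x ≤ 0 := by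
  set J := {x : ℝ | x ∈ Icc α 1 ∧ 0 < h x} with hJ
  have hne : J.Nonempty := ⟨x₀, hx₀, hpos⟩
  have hbb : BddBelow J := ⟨α, fun x hx => hx.1.1⟩
  have hba : BddAbove J := ⟨1, fun x hx => hx.1.2⟩
  have hx01 : x₀ < 1 := by
    rcases eq_or_lt_of_le hx₀.2 with e | e
    · rw [e] at hpos; linarith
    · exact e
  have hα1 : α < 1 := lt_of_le_of_lt hx₀.1 hx01
  -- a second point of `J` to the right of `x₀`
  obtain ⟨x₁, hx₀₁, hx₁1, hx₁⟩ : ∃ x₁, x₀ < x₁ ∧ x₁ < 1 ∧ 0 < h x₁ := by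
    have h2 := (hc x₀ hx₀).mono (show Ioo x₀ 1 ⊆ Icc α 1 from fun x hx =>
      ⟨hx₀.1.trans hx.1.le, hx.2.le⟩)
    have h3 := h2.tendsto.eventually (lt_mem_nhds hpos)
    have h4 : (nhdsWithin x₀ (Ioo x₀ 1)).NeBot := by
      rw [nhdsWithin_Ioo_eq_nhdsGT hx01]; infer_instance
    obtain ⟨x₁, hx₁⟩ := (h3.and self_mem_nhdsWithin).exists
    exact ⟨x₁, hx₁.2.1, hx₁.2.2, hx₁.1⟩
  -- `h < 0` near `1`
  obtain ⟨z, hz1, hz2⟩ : ∃ z, z < 1 ∧ ∀ x, z < x → x ≤ 1 → h x < 0 := by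
    have h2 := (hc 1 ⟨hα1.le, le_rfl⟩).mono (show Ioc α 1 ⊆ Icc α 1 from Ioc_subset_Icc_self)
    have h3 := h2.tendsto.eventually (gt_mem_nhds h1)
    rw [nhdsWithin_Ioc_eq_nhdsLE hα1] at h3
    obtain ⟨z, hz, hzz⟩ := (mem_nhdsLE_iff_exists_Ioc_subset' (show (0 : ℝ) < 1 by norm_num)).1 h3
    exact ⟨z, hz, fun x h4 h5 => hzz ⟨h4, h5⟩⟩
  refine ⟨sInf J, sSup J, le_csInf hne fun x hx => hx.1.1, ?_, ?_, ?_, ?_, ?_⟩
  · have t1 : sInf J ≤ x₀ := csInf_le hbb ⟨hx₀, hpos⟩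
    have t2 : x₁ ≤ sSup J := le_csSup hba ⟨⟨by linarith [hx₀.1], hx₁1.le⟩, hx₁⟩
    linarith
  · have : sSup J ≤ z := by
      apply csSup_le hne
      intro x hx
      by_contra hcc
      push Not at hcc
      linarith [hz2 x hcc hx.1.2, hx.2]
    linarith
  · intro x hx1 hx2
    obtain ⟨u, hu, hu'⟩ := exists_lt_of_csInf_lt hne hx1
    obtain ⟨v, hv, hv'⟩ := exists_lt_of_lt_csSup hne hx2
    exact hoc u x v hu.1.1 hu' hv' hv.1.2 hu.2 hv.2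
  · intro x hx1 hx2
    by_contra hcc
    push Not at hcc
    have : sInf J ≤ x := csInf_le hbb ⟨⟨hx1, ?_⟩, hcc⟩
    · linarith
    · have t1 : sInf J ≤ x₀ := csInf_le hbb ⟨hx₀, hpos⟩
      linarith
  · intro x hx1 hx2
    by_contra hcc
    push Not at hcc
    have : x ≤ sSup J := le_csSup hba ⟨⟨?_, hx2⟩, hcc⟩
    · linarith
    · have t1 : x₀ ≤ sSup J := le_csSup hba ⟨hx₀, hpos⟩
      linarith [hx₀.1]

end Pool.Agent.H967.KRU
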