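import Pool.Agent.H967.KRU.Zed

set_option autoImplicit false

/-! # The second derivative of `ψ`: concavity -/

namespace Pool.Agent.H967.KRU

open Real Set
open Pool.Agent.Q82.KR (L M L_pos M_pos M_lt_L w w_strictMonoOn w_lt lt_w w_eq ψ dψ E_pos r r_S1
  ψ_pos_iff hasDerivAt_L hasDerivAt_M hasDerivAt_log1)

variable {a b : ℕ}

/-- if `ψ > 0` and `(a+1) w ≤ b+1` then `ψ' > 0` -/
lemma dψ_pos_of {y : ℝ} (h0 : 0 < y) (h1 : y < 1 / 2) (h : 0 < ψ a b y)
    (hw : ((a : ℝ) + 1) * w y ≤ b + 1) : 0 < dψ a b y := by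
  have hL := L_pos h0 (show y < 1 by linarith)
  have hM := M_pos h0 (show y < 1 by linarith)
  have hz : 0 < 1 - y := by linarith
  have hwP := w_eq h0 (show y < 1 by linarith)
  have hA : 0 < (b + 1) * L y - (a + 1) := by
    have t1 := lt_w h0 h1
    have t2 : (a + 1) * (w y * L y) ≤ (b + 1) * L y := by
      have := mul_le_mul_of_nonneg_right hw hL.le
      linarith
    have t3 : (0 : ℝ) < a + 1 := by positivity
    nlinarith
  have hAB : (((a : ℝ) + 1) - (b + 1) * M y) * (y * L y) ≤
      ((b + 1) * L y - (a + 1)) * ((1 - y) * M y) := by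
    have t3 : (a + 1) * (w y * (L y * M y)) ≤ (b + 1) * (L y * M y) := by
      have := mul_le_mul_of_nonneg_right hw (mul_pos hL hM).le
      linarith
    rw [hwP] at t3
    nlinarith
  have hψ : M y ^ (a + 1) * (1 - y) ^ (b + 1) < L y ^ (a + 1) * y ^ (b + 1) := by
    unfold ψ at h; linarith
  have e : dψ a b y * ((y * L y) * ((1 - y) * M y)) =
      (L y ^ (a + 1) * y ^ (b + 1)) * (((b + 1) * L y - (a + 1)) * ((1 - y) * M y)) -
      (M y ^ (a + 1) * (1 - y) ^ (b + 1)) * ((((a : ℝ) + 1) - (b + 1) * M y) * (y * L y)) := by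
    unfold dψ; ring
  have hX : 0 < ((b + 1) * L y - (a + 1)) * ((1 - y) * M y) := by positivity
  have hT : 0 < M y ^ (a + 1) * (1 - y) ^ (b + 1) := by positivity
  have t4 := mul_le_mul_of_nonneg_left hAB hT.le
  have t5 := mul_lt_mul_of_pos_right hψ hX
  have : 0 < dψ a b y * ((y * L y) * ((1 - y) * M y)) := by rw [e]; linarith
  exact (mul_pos_iff_of_pos_right (by positivity)).1 this

lemma neg_log_seven : -Real.log (7 / 10) ≤ 0.358 := by
  have h : (10 / 7 : ℝ) ≤ Real.exp 0.358 := by
    have h1 := Real.sum_le_exp_of_nonneg (x := 0.358) (by norm_num) 4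
    refine le_trans ?_ h1
    simp only [Finset.sum_range_succ, Finset.sum_range_zero]
    norm_num [Nat.factorial]
  have h2 : Real.log (10 / 7) ≤ 0.358 := by
    rw [Real.log_le_iff_le_exp (by norm_num)]; exact h
  have e : Real.log (10 / 7) = -Real.log (7 / 10) := by
    rw [← Real.log_inv]; norm_num
  linarith

/-- `P (M y) < 0` forces `y ≥ 3/10` -/
lemma y_ge {y : ℝ} (h0 : 0 < y) (h1 : y < 1) (hn : ((b : ℝ) + 1) * Real.log 2 ≤ a + 1)
    (hab : ¬ (a = 0 ∧ b = 0)) (hP : P a b (M y) < 0) : 3 / 10 ≤ y := by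
  by_contra hcon
  push Not at hcon
  have hM := M_pos h0 (show y < 1 by linarith)
  have hMu : M y ≤ 0.358 := by
    refine le_trans ?_ neg_log_seven
    unfold M
    linarith [Real.log_le_log (show (0 : ℝ) < 7 / 10 by norm_num) (show 7 / 10 ≤ 1 - y by linarith)]
  set m := M y with hm
  have hc1 := Real.log_two_gt_d9
  have hc2 := Real.log_two_lt_d9
  set c := Real.log 2 with hc
  apply absurd hP
  push Not
  have e : P a b m = (a + 1 - (b + 1) * m) ^ 2 - (a + 1) * (1 - m) - (b + 1) * m ^ 2 := by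
    unfold P; ring
  rcases Nat.lt_or_ge a 3 with h3 | h3
  · have hb : (b : ℝ) < (a + 1) * 1.45 - 1 := by
      by_contra hb
      push Not at hb
      have : (b + 1 : ℝ) * 0.6931 ≤ (b + 1) * c := mul_le_mul_of_nonneg_left (by linarith) (by positivity)
      have : (0 : ℝ) ≤ a := Nat.cast_nonneg _
      nlinarith
    interval_cases a
    · exfalso
      have hb' : (b : ℝ) < 1 := by norm_num at hb; linarith
      have : b < 1 := by exact_mod_cast hb'
      omega
    · have hb' : (b : ℝ) < 2 := by norm_num at hb; linarith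
      have : b < 2 := by exact_mod_cast hb'
      interval_cases b
      · unfold P; norm_num; nlinarith
      · unfold P; norm_num; nlinarith
    · have hb' : (b : ℝ) < 4 := by norm_num at hb; linarith
      have : b < 4 := by exact_mod_cast hb'
      interval_cases b
      · unfold P; norm_num; nlinarith
      · unfold P; norm_num; nlinarith
      · unfold P; norm_num; nlinarith
      · unfold P; norm_num; nlinarith
  · have ha : (4 : ℝ) ≤ a + 1 := by
      have : (3 : ℝ) ≤ a := by exact_mod_cast h3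
      linarith
    set n : ℝ := a + 1 with hn'
    set K : ℝ := b + 1 with hK'
    have hK : 0 < K := by positivity
    have hcm : 0 < c - m := by linarith
    have t0 : K * c * m ≤ n * m := mul_le_mul_of_nonneg_right hn hM.le
    have t1 : n * (c - m) ≤ c * (n - K * m) := by nlinarith
    have t2 : (n * (c - m)) ^ 2 ≤ (c * (n - K * m)) ^ 2 :=
      pow_le_pow_left₀ (by positivity) t1 2
    have t3 : K * c * (c * m ^ 2) ≤ n * (c * m ^ 2) :=
      mul_le_mul_of_nonneg_right hn (by positivity)
    have t4 : 0 ≤ 4 * (c - m) ^ 2 - c ^ 2 * (1 - m) - c * m ^ 2 := by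
      nlinarith [mul_nonneg (show 0 ≤ 0.358 - m by linarith) (show 0 ≤ m by linarith),
        mul_nonneg (show 0 ≤ 0.358 - m by linarith) (show 0 ≤ c - 0.6931 by linarith),
        mul_nonneg (show 0 ≤ m by linarith) (show 0 ≤ c - 0.6931 by linarith)]
    have t5 : 0 ≤ (n - 4) * (c - m) ^ 2 := mul_nonneg (by linarith) (sq_nonneg _)
    have t6 : 0 ≤ n * (n * (c - m) ^ 2 - c ^ 2 * (1 - m) - c * m ^ 2) :=
      mul_nonneg (by linarith) (by linarith)
    have t7 : 0 ≤ c ^ 2 * ((n - K * m) ^ 2 - n * (1 - m) - K * m ^ 2) := by nlinarith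
    rw [e]
    have hc0 : 0 < c ^ 2 := by positivity
    exact (mul_nonneg_iff_of_pos_left hc0).1 t7

end Pool.Agent.H967.KRU
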