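import Pool.Agent.H967.KRU.Conc

set_option autoImplicit false

/-! # The second derivative of `ψ`: the two cases of negativity -/

namespace Pool.Agent.H967.KRU

open Real Set
open Pool.Agent.Q82.KR (L M L_pos M_pos M_lt_L w w_strictMonoOn w_lt lt_w w_eq ψ dψ E_pos r r_S1
  ψ_pos_iff hasDerivAt_L hasDerivAt_M hasDerivAt_log1)

variable {a b : ℕ}

lemma ddψ_zero {y : ℝ} (h0 : 0 < y) (h1 : y < 1 / 2) : ddψ 0 0 y < 0 := by
  have hL := L_pos h0 (show y < 1 by linarith)
  have hM := M_pos h0 (show y < 1 by linarith)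
  have hz : 0 < 1 - y := by linarith
  have e : ddψ 0 0 y = 1 / (1 - y) - 1 / y := by
    unfold ddψ P
    simp only [pow_zero, Nat.cast_zero]
    field_simp
    ring
  rw [e]
  have : 1 / (1 - y) < 1 / y := one_div_lt_one_div_of_lt h0 (by linarith)
  linarith

/-- general form of the inequality `Z` -/
lemma Z_ineq {y : ℝ} (h0 : 3 / 10 ≤ y) (h1 : y < 1 / 2)
    (hn : ((b : ℝ) + 1) * Real.log 2 ≤ a + 1) (hA : 0 ≤ (b + 1) * L y - (a + 1))
    (hB : 0 ≤ ((a : ℝ) + 1) - (b + 1) * M y) :
    ((b : ℝ) + 1 - ((a + 1) - (b + 1) * M y)) / (M y * (1 - y)) ^ 2 ≤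
      ((b : ℝ) + 1 + ((b + 1) * L y - (a + 1))) / (L y * y) ^ 2 := by
  have hy0 : 0 < y := by linarith
  have hz : 0 < 1 - y := by linarith
  have hL := L_pos hy0 (show y < 1 by linarith)
  have hM := M_pos hy0 (show y < 1 by linarith)
  have hZ := Z_log2 h0 h1
  set p := 1 / (L y * y) ^ 2 with hp
  set q := 1 / (M y * (1 - y)) ^ 2 with hq
  have hp0 : 0 < p := by positivity
  have hq0 : 0 < q := by positivity
  have hK : (0 : ℝ) < b + 1 := by positivity
  have e1 : ∀ x : ℝ, x / (L y * y) ^ 2 = x * p := fun x => by rw [hp]; ring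
  have e2 : ∀ x : ℝ, x / (M y * (1 - y)) ^ 2 = x * q := fun x => by rw [hq]; ring
  rw [e1, e2] at hZ ⊢
  rcases le_total q p with h | h
  · have t1 : (b + 1 - (((a : ℝ) + 1) - (b + 1) * M y)) * q ≤ (b + 1) * q :=
      mul_le_mul_of_nonneg_right (by linarith) hq0.le
    have t2 : ((b : ℝ) + 1) * q ≤ (b + 1) * p := mul_le_mul_of_nonneg_left h hK.le
    have t3 : ((b : ℝ) + 1) * p ≤ ((b : ℝ) + 1 + ((b + 1) * L y - (a + 1))) * p :=
      mul_le_mul_of_nonneg_right (by linarith) hp0.le
    linarith
  · have t1 : 0 ≤ ((a : ℝ) + 1 - (b + 1) * Real.log 2) * (q - p) :=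
      mul_nonneg (by linarith) (by linarith)
    have t2 := mul_le_mul_of_nonneg_left hZ.le hK.le
    nlinarith

/-- concavity to the right of the maximum of the density -/
lemma claim1 {y : ℝ} (h0 : 0 < y) (h1 : y < 1 / 2) (hψ : 0 < ψ a b y) (hd : dψ a b y ≤ 0)
    (hA : 0 ≤ ((b : ℝ) + 1) * L y - (a + 1)) : ddψ a b y < 0 := by
  have hL := L_pos h0 (show y < 1 by linarith)
  have hM := M_pos h0 (show y < 1 by linarith)
  have hz : 0 < 1 - y := by linarith
  have hn0 : (0 : ℝ) < a + 1 := by positivity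
  have hK0 : (0 : ℝ) < b + 1 := by positivity
  have hw : (b : ℝ) + 1 < (a + 1) * w y := by
    by_contra hcon
    push Not at hcon
    exact absurd (dψ_pos_of h0 h1 hψ hcon) (not_lt.2 hd)
  have hB : 0 < ((a : ℝ) + 1) - (b + 1) * M y := by
    have t1 := mul_lt_mul_of_pos_right hw hM
    have t2 := w_lt h0 h1
    nlinarith
  set X := L y ^ a * y ^ b with hX
  set Y := M y ^ a * (1 - y) ^ b with hY
  have hX0 : 0 < X := by positivity
  have hY0 : 0 < Y := by positivity
  set A := ((b : ℝ) + 1) * L y - (a + 1) with hAdef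
  set B := ((a : ℝ) + 1) - (b + 1) * M y with hBdef
  have ed : dψ a b y = X * A - Y * B := rfl
  have edd : ddψ a b y = X * P a b (L y) / (L y * y) - Y * P a b (M y) / (M y * (1 - y)) := rfl
  have ePL : P a b (L y) = -A * (a - b * L y) - (b + 1) * L y := by
    rw [hAdef]; unfold P; ring
  have ePM : P a b (M y) = B * (a - b * M y) - (b + 1) * M y := by
    rw [hBdef]; unfold P; ring
  rcases le_or_gt 0 (P a b (M y)) with hPM | hPM
  · rcases eq_or_lt_of_le hA with hA0 | hA0
    · rw [edd, ePL, ← hA0]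
      have t1 : 0 ≤ Y * P a b (M y) / (M y * (1 - y)) := by positivity
      have t2 : X * (-0 * (a - b * L y) - (b + 1) * L y) / (L y * y) = -(X * (b + 1) / y) := by
        field_simp; ring
      rw [t2]
      have t3 : 0 < X * (b + 1) / y := by positivity
      linarith
    · have hE := E_pos a b h0 h1 hA0 hw
      rw [← hAdef, ← hBdef] at hE
      have eq1 : a * w y - b + (b + 1) * (1 - y) / A - (b + 1) * y / B =
          (1 - y) * (a / L y - b + (b + 1) / A) + y * (a / M y - b - (b + 1) / B) := by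
        unfold w; field_simp; ring
      rw [eq1] at hE
      set p := (1 - y) * (a / L y - b + (b + 1) / A) with hp
      set q := y * (a / M y - b - (b + 1) / B) with hq
      have hq0 : 0 ≤ q := by
        have : q = y * (P a b (M y) / (M y * B)) := by
          rw [hq, ePM]; field_simp
        rw [this]; positivity
      have e3 : ddψ a b y * (y * (1 - y)) = -(X * A * p + Y * B * q) := by
        rw [edd, ePL, ePM, hp, hq]
        field_simp
        ring
      have hXY : X * A ≤ Y * B := by rw [ed] at hd; linarith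
      have t1 : X * A * q ≤ Y * B * q := mul_le_mul_of_nonneg_right hXY hq0
      have t2 : 0 < X * A * (p + q) := by positivity
      have t3 : ddψ a b y * (y * (1 - y)) < 0 := by rw [e3]; linarith
      have t4 : 0 < y * (1 - y) := mul_pos h0 hz
      by_contra hcon
      push Not at hcon
      exact absurd (mul_nonneg hcon t4.le) (not_le.2 t3)
  · by_cases hab : a = 0 ∧ b = 0
    · obtain ⟨rfl, rfl⟩ := hab
      exact ddψ_zero h0 h1
    have hwl := w_lt_half h0 h1
    have hn : ((b : ℝ) + 1) * Real.log 2 ≤ a + 1 := by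
      have t1 : (a + 1) * w y < (a + 1) * (1 / Real.log 2) := mul_lt_mul_of_pos_left hwl hn0
      have t2 : ((b : ℝ) + 1) < (a + 1) * (1 / Real.log 2) := hw.trans t1
      rw [mul_one_div, lt_div_iff₀ log2_pos] at t2
      exact t2.le
    have hy := y_ge h0 (by linarith) hn hab hPM
    have hZ := Z_ineq hy h1 hn hA hB.le
    rw [← hAdef, ← hBdef] at hZ
    set F := X * (L y * y) with hF
    set G := Y * (M y * (1 - y)) with hG
    have hFG : G < F := by
      have : ψ a b y = F - G := by rw [hF, hG, hX, hY]; unfold ψ; ring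
      rw [this] at hψ; linarith
    have hF0 : 0 < F := by positivity
    have hG0 : 0 < G := by positivity
    set u := 1 / (L y * y) with hu
    set v := 1 / (M y * (1 - y)) with hv
    have hu0 : 0 < u := by positivity
    have hv0 : 0 < v := by positivity
    have eX : X = F * u := by rw [hF, hu]; field_simp
    have eY : Y = G * v := by rw [hG, hv]; field_simp
    have hXY : F * u * A ≤ G * v * B := by rw [ed, eX, eY] at hd; linarith
    have h3 : u * A ≤ v * B := by
      have t1 : G * (v * B) ≤ F * (v * B) := mul_le_mul_of_nonneg_right hFG.le (by positivity)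
      have t2 : F * (u * A) ≤ F * (v * B) := by linarith
      exact le_of_mul_le_mul_left t2 hF0
    have h4 : (u * A) ^ 2 ≤ (v * B) ^ 2 := pow_le_pow_left₀ (mul_nonneg hu0.le hA) h3 2
    have hZ' : ((b : ℝ) + 1 - B) * v ^ 2 ≤ (b + 1 + A) * u ^ 2 := by
      rw [hu, hv, one_div_pow, one_div_pow, mul_one_div, mul_one_div]; exact hZ
    have eKL : (b + 1) * P a b (L y) = -((a + 1) * (b + 1 + A) - b * A ^ 2) := by
      rw [hAdef]; unfold P; ring
    have eKM : (b + 1) * P a b (M y) = -((a + 1) * (b + 1 - B) - b * B ^ 2) := by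
      rw [hBdef]; unfold P; ring
    have hβ : 0 < (a + 1) * ((b + 1 - B) * v ^ 2) - b * (v * B) ^ 2 := by
      have t1 : (b + 1) * P a b (M y) < 0 := mul_neg_of_pos_of_neg hK0 hPM
      rw [eKM] at t1
      have t2 : (a + 1) * ((b + 1 - B) * v ^ 2) - b * (v * B) ^ 2 =
        ((a + 1) * (b + 1 - B) - b * B ^ 2) * v ^ 2 := by ring
      rw [t2]
      exact mul_pos (by linarith) (by positivity)
    have hα : (a + 1) * ((b + 1 - B) * v ^ 2) - b * (v * B) ^ 2 ≤
        (a + 1) * ((b + 1 + A) * u ^ 2) - b * (u * A) ^ 2 := by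
      have t1 := mul_le_mul_of_nonneg_left hZ' hn0.le
      have t2 := mul_le_mul_of_nonneg_left h4 (show (0 : ℝ) ≤ b from Nat.cast_nonneg _)
      linarith
    have e5 : (b + 1) * ddψ a b y = -(F * ((a + 1) * ((b + 1 + A) * u ^ 2) - b * (u * A) ^ 2)) +
        G * ((a + 1) * ((b + 1 - B) * v ^ 2) - b * (v * B) ^ 2) := by
      have t1 : ddψ a b y = F * u ^ 2 * P a b (L y) - G * v ^ 2 * P a b (M y) := by
        rw [edd]
        have u1 : X / (L y * y) = F * u ^ 2 := by rw [eX, hu]; ring
        have u2 : Y / (M y * (1 - y)) = G * v ^ 2 := by rw [eY, hv]; ring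
        rw [← u1, ← u2]; ring
      have t2 : (b + 1) * ddψ a b y =
          F * u ^ 2 * ((b + 1) * P a b (L y)) - G * v ^ 2 * ((b + 1) * P a b (M y)) := by
        rw [t1]; ring
      rw [t2, eKL, eKM]; ring
    have h6 : (b + 1) * ddψ a b y < 0 := by
      rw [e5]
      have t1 := mul_lt_mul_of_pos_right hFG hβ
      have t2 := mul_le_mul_of_nonneg_left hα hF0.le
      linarith
    by_contra hcon
    push Not at hcon
    exact absurd (mul_nonneg hK0.le hcon) (not_le.2 h6)

end Pool.Agent.H967.KRU
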