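import Pool.Agent.H967.KRU.Conc2

set_option autoImplicit false

/-! # The second derivative of `ψ`: to the left of the maximum of the density -/

namespace Pool.Agent.H967.KRU

open Real Set
open Pool.Agent.Q82.KR (L M L_pos M_pos M_lt_L w w_strictMonoOn w_lt lt_w w_eq ψ dψ E_pos r r_S1
  ψ_pos_iff hasDerivAt_L hasDerivAt_M hasDerivAt_log1)

variable {a b : ℕ}

lemma hasDerivAt_P (a b : ℕ) (t : ℝ) :
    HasDerivAt (P a b) (-((a + 1) * (2 * b + 1)) + 2 * b * (b + 1) * t) t := by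
  have d := (((hasDerivAt_id t).const_mul (((a : ℝ) + 1) * (2 * b + 1))).const_sub
    ((a : ℝ) * (a + 1))).add (((hasDerivAt_id t).pow 2).const_mul ((b : ℝ) * (b + 1)))
  refine d.congr_deriv ?_
  simp; ring

lemma P_neg_between {s t u : ℝ} (h1 : s ≤ t) (h2 : t ≤ u) (hs : P a b s < 0) (hu : P a b u < 0) :
    P a b t < 0 := by
  rcases eq_or_lt_of_le h1 with e | e
  · rw [← e]; exact hs
  rcases eq_or_lt_of_le h2 with e' | e'
  · rw [e']; exact hu
  have hd : 0 < u - s := by linarith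
  have hb : (0 : ℝ) ≤ b * (b + 1) := by positivity
  have k : (u - s) * P a b t = (u - t) * P a b s + (t - s) * P a b u -
      b * (b + 1) * ((u - s) * (u - t) * (t - s)) := by
    unfold P; ring
  have t1 : 0 ≤ b * (b + 1) * ((u - s) * (u - t) * (t - s)) :=
    mul_nonneg hb (mul_nonneg (mul_nonneg hd.le (by linarith)) (by linarith))
  have t2 : (u - t) * P a b s < 0 := mul_neg_of_pos_of_neg (by linarith) hs
  have t3 : (t - s) * P a b u < 0 := mul_neg_of_pos_of_neg (by linarith) hu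
  by_contra hcon
  push Not at hcon
  have := mul_nonneg hd.le hcon
  linarith

/-- the logarithmic form of the terms of the second derivative -/
lemma term_log {y t p : ℝ} {a b : ℕ} (hy : 0 < y) (ht : 0 < t) (hty : Real.log y = -t) (hp : 0 < p) :
    Real.log (t ^ a * y ^ b * p / (t * y)) = (a - 1) * Real.log t - (b - 1) * t + Real.log p := by
  rw [Real.log_div (by positivity) (by positivity), Real.log_mul (by positivity) hp.ne',
    Real.log_mul (by positivity) (by positivity), Real.log_pow, Real.log_pow,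
    Real.log_mul ht.ne' hy.ne', hty]
  ring

lemma log_y_eq (y : ℝ) : Real.log y = -L y := by unfold L; ring
lemma log_1y_eq (y : ℝ) : Real.log (1 - y) = -M y := by unfold M; ring

/-- concavity between the inflection point and the maximum of the density -/
lemma claim2 {y : ℝ} (h0 : 0 < y) (h1 : y < 1 / 2) (hA : ((b : ℝ) + 1) * L y < a + 1)
    (hP : P a b (L y) < 0) : ddψ a b y < 0 := by
  have hL := L_pos h0 (show y < 1 by linarith)
  have hM := M_pos h0 (show y < 1 by linarith)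
  have hLM := M_lt_L h0 h1
  have hz : 0 < 1 - y := by linarith
  have hn0 : (0 : ℝ) < a + 1 := by positivity
  have hK0 : (0 : ℝ) < b + 1 := by positivity
  have hLc := L_gt h0 h1
  rcases le_or_gt 0 (P a b (M y)) with hPM | hPM
  · unfold ddψ
    have t1 : 0 ≤ M y ^ a * (1 - y) ^ b * P a b (M y) / (M y * (1 - y)) := by positivity
    have t2 : L y ^ a * y ^ b * P a b (L y) / (L y * y) < 0 :=
      div_neg_of_neg_of_pos (mul_neg_of_pos_of_neg (by positivity) hP) (by positivity)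
    linarith
  rcases Nat.eq_zero_or_pos a with ha | ha
  · subst ha
    have hb : b = 0 := by
      by_contra hb
      have : (1 : ℝ) ≤ b := by exact_mod_cast Nat.one_le_iff_ne_zero.2 hb
      have := Real.log_two_gt_d9
      norm_num at hA
      nlinarith
    subst hb
    exact ddψ_zero h0 h1
  have ha1 : (1 : ℝ) ≤ a := by exact_mod_cast ha
  -- the function `h`
  set h : ℝ → ℝ := fun t => (a - 1) * Real.log t - (b - 1) * t + Real.log (-P a b t) with hh
  have hPneg : ∀ t ∈ Icc (M y) (L y), P a b t < 0 := fun t ht => P_neg_between ht.1 ht.2 hPM hP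
  have hder : ∀ t ∈ Icc (M y) (L y), HasDerivAt h ((a - 1) * t⁻¹ - (b - 1) +
      (-(-((a + 1) * (2 * b + 1)) + 2 * b * (b + 1) * t)) / (-P a b t)) t := by
    intro t ht
    have ht0 : 0 < t := lt_of_lt_of_le hM ht.1
    have hp := hPneg t ht
    have d := (((Real.hasDerivAt_log ht0.ne').const_mul ((a : ℝ) - 1)).sub
      ((hasDerivAt_id t).const_mul ((b : ℝ) - 1))).add
      ((hasDerivAt_P a b t).neg.log (show -P a b t ≠ 0 by linarith))
    refine d.congr_deriv ?_
    simp only [Pi.neg_apply]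
    ring
  have hmono : StrictMonoOn h (Icc (M y) (L y)) := by
    apply strictMonoOn_of_deriv_pos (convex_Icc _ _)
    · intro t ht
      exact (hder t ht).continuousAt.continuousWithinAt
    · intro t ht
      rw [interior_Icc] at ht
      have ht' : t ∈ Icc (M y) (L y) := ⟨ht.1.le, ht.2.le⟩
      rw [(hder t ht').deriv]
      have ht0 : 0 < t := hM.trans ht.1
      have hp := hPneg t ht'
      have hp' : 0 < -P a b t := by linarith
      have hKt : (b + 1) * t < (a : ℝ) + 1 := by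
        have : (b + 1) * t < (b + 1) * L y := mul_lt_mul_of_pos_left ht.2 hK0
        linarith
      -- `Q' ≥ Q`
      have q1 : (1 : ℝ) ≤ (-(-((a + 1) * (2 * b + 1)) + 2 * b * (b + 1) * t)) / (-P a b t) := by
        rw [le_div_iff₀ hp']
        have hb0 : (0 : ℝ) ≤ b := Nat.cast_nonneg _
        set m := (a : ℝ) + 1 - (b + 1) * t with hm
        have hm0 : 0 < m := by linarith
        have e1 : (b + 1) * (-(-(((a : ℝ) + 1) * (2 * b + 1)) + 2 * b * (b + 1) * t) - (-P a b t)) =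
          (a + 1) * m + 2 * b * (b + 1) * m + b * m ^ 2 := by
          rw [hm]; unfold P; ring
        have e2 : 0 ≤ ((a : ℝ) + 1) * m + 2 * b * (b + 1) * m + b * m ^ 2 := by positivity
        have e3 : 0 ≤ -(-(((a : ℝ) + 1) * (2 * b + 1)) + 2 * b * (b + 1) * t) - (-P a b t) :=
          (mul_nonneg_iff_of_pos_left hK0).1 (by rw [e1]; exact e2)
        linarith
      -- `(a - 1) / t ≥ (a - 1) (b + 1) / (a + 1)`
      have q2 : ((a : ℝ) - 1) * ((b + 1) / (a + 1)) ≤ (a - 1) * t⁻¹ := by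
        apply mul_le_mul_of_nonneg_left _ (by linarith)
        rw [div_le_iff₀ hn0, inv_mul_eq_div, le_div_iff₀ ht0]
        exact hKt.le
      have q3 : ((a : ℝ) - 1) * ((b + 1) / (a + 1)) = (b + 1) - 2 * ((b + 1) / (a + 1)) := by
        field_simp; ring
      have q4 : ((b : ℝ) + 1) / (a + 1) < 3 / 2 := by
        rw [div_lt_iff₀ hn0]
        have := Real.log_two_gt_d9
        have : (b + 1) * Real.log 2 < (b + 1) * L y := mul_lt_mul_of_pos_left hLc hK0
        nlinarith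
      linarith
  have hlt := hmono (left_mem_Icc.2 hLM.le) (right_mem_Icc.2 hLM.le) hLM
  have e1 := term_log (a := a) (b := b) h0 hL (log_y_eq y) (show 0 < -P a b (L y) by linarith)
  have e2 := term_log (a := a) (b := b) hz hM (log_1y_eq y) (show 0 < -P a b (M y) by linarith)
  simp only [hh] at hlt
  rw [← e1, ← e2] at hlt
  have hp1 : 0 < -P a b (L y) := by linarith
  have hp2 : 0 < -P a b (M y) := by linarith
  have := (Real.log_lt_log_iff (by positivity) (by positivity)).1 hlt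
  unfold ddψ
  have s1 : L y ^ a * y ^ b * P a b (L y) / (L y * y) =
    -(L y ^ a * y ^ b * (-P a b (L y)) / (L y * y)) := by ring
  have s2 : M y ^ a * (1 - y) ^ b * P a b (M y) / (M y * (1 - y)) =
    -(M y ^ a * (1 - y) ^ b * (-P a b (M y)) / (M y * (1 - y))) := by ring
  rw [s1, s2]
  linarith

/-- the contribution of a linear factor `ρ - σ t` -/
noncomputable def Gf (ρ σ y : ℝ) : ℝ := (1 - y) * σ / (ρ - σ * L y) + y * σ / (ρ - σ * M y)

lemma hasDerivAt_Gf {ρ σ y : ℝ} (h0 : 0 < y) (h1 : y < 1) (hA : 0 < ρ - σ * L y)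
    (hB : 0 < ρ - σ * M y) :
    HasDerivAt (Gf ρ σ) (-(σ * (1 / (ρ - σ * L y) - 1 / (ρ - σ * M y))) -
      σ ^ 2 * ((1 - y) / (y * (ρ - σ * L y) ^ 2) - y / ((1 - y) * (ρ - σ * M y) ^ 2))) y := by
  have hz : 0 < 1 - y := by linarith
  have dA : HasDerivAt (fun y => ρ - σ * L y) (-(σ * (-(1 / y)))) y :=
    ((hasDerivAt_L h0).const_mul σ).const_sub _
  have dB : HasDerivAt (fun y => ρ - σ * M y) (-(σ * (1 / (1 - y)))) y :=
    ((hasDerivAt_M h1).const_mul σ).const_sub _
  have d := ((((hasDerivAt_id y).const_sub 1).mul_const σ).div dA hA.ne').add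
    (((hasDerivAt_id y).mul_const σ).div dB hB.ne')
  refine d.congr_deriv ?_
  simp only [id]
  field_simp
  ring

lemma Gf_deriv_nonpos {ρ σ y : ℝ} (h0 : 0 < y) (h1 : y < 1 / 2) (hσ : 0 ≤ σ)
    (hA : 0 < ρ - σ * L y) : 0 < ρ - σ * M y ∧
    -(σ * (1 / (ρ - σ * L y) - 1 / (ρ - σ * M y))) -
      σ ^ 2 * ((1 - y) / (y * (ρ - σ * L y) ^ 2) - y / ((1 - y) * (ρ - σ * M y) ^ 2)) ≤ 0 ∧
    (0 < σ → -(σ * (1 / (ρ - σ * L y) - 1 / (ρ - σ * M y))) -
      σ ^ 2 * ((1 - y) / (y * (ρ - σ * L y) ^ 2) - y / ((1 - y) * (ρ - σ * M y) ^ 2)) < 0) := by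
  have hz : 0 < 1 - y := by linarith
  have hLM := M_lt_L h0 h1
  have hAB : ρ - σ * L y ≤ ρ - σ * M y := by
    have := mul_le_mul_of_nonneg_left hLM.le hσ
    linarith
  have hB : 0 < ρ - σ * M y := lt_of_lt_of_le hA hAB
  have t1 : 1 / (ρ - σ * M y) ≤ 1 / (ρ - σ * L y) := one_div_le_one_div_of_le hA hAB
  have t2 : y / ((1 - y) * (ρ - σ * M y) ^ 2) ≤ (1 - y) / (y * (ρ - σ * L y) ^ 2) := by
    apply div_le_div₀ hz.le (by linarith) (by positivity)
    apply mul_le_mul (by linarith) _ (by positivity) hz.le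
    exact pow_le_pow_left₀ hA.le hAB 2
  refine ⟨hB, ?_, ?_⟩
  · have s1 : 0 ≤ σ * (1 / (ρ - σ * L y) - 1 / (ρ - σ * M y)) := mul_nonneg hσ (by linarith)
    have s2 : 0 ≤ σ ^ 2 * ((1 - y) / (y * (ρ - σ * L y) ^ 2) - y / ((1 - y) * (ρ - σ * M y) ^ 2)) :=
      mul_nonneg (sq_nonneg _) (by linarith)
    linarith
  · intro hσ0
    have hAB' : ρ - σ * L y < ρ - σ * M y := by
      have := mul_lt_mul_of_pos_left hLM hσ0
      linarith
    have t3 : 1 / (ρ - σ * M y) < 1 / (ρ - σ * L y) := one_div_lt_one_div_of_lt hA hAB'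
    have s1 : 0 < σ * (1 / (ρ - σ * L y) - 1 / (ρ - σ * M y)) := mul_pos hσ0 (by linarith)
    have s2 : 0 ≤ σ ^ 2 * ((1 - y) / (y * (ρ - σ * L y) ^ 2) - y / ((1 - y) * (ρ - σ * M y) ^ 2)) :=
      mul_nonneg (sq_nonneg _) (by linarith)
    linarith

lemma Gf_anti {ρ σ y₁ : ℝ} (h0 : 0 < y₁) (hσ : 0 ≤ σ) (hA : 0 < ρ - σ * L y₁) :
    AntitoneOn (Gf ρ σ) (Ico y₁ (1 / 2)) ∧
      (0 < σ → StrictAntiOn (Gf ρ σ) (Ico y₁ (1 / 2))) := by
  have hpos : ∀ y ∈ Ico y₁ (1 / 2 : ℝ), 0 < ρ - σ * L y := by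
    intro y hy
    have : L y ≤ L y₁ := by
      unfold L; linarith [Real.log_le_log h0 hy.1]
    have := mul_le_mul_of_nonneg_left this hσ
    linarith
  have hc : ContinuousOn (Gf ρ σ) (Ico y₁ (1 / 2)) := by
    intro y hy
    have y0 : 0 < y := lt_of_lt_of_le h0 hy.1
    obtain ⟨hB, _, _⟩ := Gf_deriv_nonpos y0 hy.2 hσ (hpos y hy)
    exact (hasDerivAt_Gf y0 (by linarith [hy.2]) (hpos y hy) hB).continuousAt.continuousWithinAt
  constructor
  · apply antitoneOn_of_deriv_nonpos (convex_Ico _ _) hc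
    · intro y hy
      rw [interior_Ico] at hy
      have y0 : 0 < y := h0.trans hy.1
      obtain ⟨hB, _, _⟩ := Gf_deriv_nonpos y0 hy.2 hσ (hpos y ⟨hy.1.le, hy.2⟩)
      exact (hasDerivAt_Gf y0 (by linarith [hy.2]) (hpos y ⟨hy.1.le, hy.2⟩)
        hB).differentiableAt.differentiableWithinAt
    · intro y hy
      rw [interior_Ico] at hy
      have y0 : 0 < y := h0.trans hy.1
      obtain ⟨hB, h2, _⟩ := Gf_deriv_nonpos y0 hy.2 hσ (hpos y ⟨hy.1.le, hy.2⟩)
      rw [(hasDerivAt_Gf y0 (by linarith [hy.2]) (hpos y ⟨hy.1.le, hy.2⟩) hB).deriv]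
      exact h2
  · intro hσ0
    apply strictAntiOn_of_deriv_neg (convex_Ico _ _) hc
    intro y hy
    rw [interior_Ico] at hy
    have y0 : 0 < y := h0.trans hy.1
    obtain ⟨hB, _, h3⟩ := Gf_deriv_nonpos y0 hy.2 hσ (hpos y ⟨hy.1.le, hy.2⟩)
    rw [(hasDerivAt_Gf y0 (by linarith [hy.2]) (hpos y ⟨hy.1.le, hy.2⟩) hB).deriv]
    exact h3 hσ0

/-- in the first region `P` is a product of positive linear factors -/
lemma P_factor (a b : ℕ) {t : ℝ} (ha : 1 ≤ a) (hA : ((b : ℝ) + 1) * t < a + 1) (hP : 0 < P a b t) :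
    ∃ C ρ σ ρ' σ' : ℝ, 0 < C ∧ 0 < σ ∧ 0 ≤ σ' ∧ 0 < ρ - σ * t ∧ 0 < ρ' - σ' * t ∧
      ∀ s, P a b s = C * (ρ - σ * s) * (ρ' - σ' * s) := by
  rcases Nat.eq_zero_or_pos b with hb | hb
  · subst hb
    refine ⟨a + 1, a, 1, 1, 0, by positivity, one_pos, le_rfl, ?_, by norm_num, ?_⟩
    · unfold P at hP
      norm_num at hP
      have : 0 < ((a : ℝ) + 1) * (a - 1 * t) := by linarith
      exact (mul_pos_iff_of_pos_left (by positivity)).1 this
    · intro s; unfold P; norm_num; ring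
  · have hb1 : (1 : ℝ) ≤ b := by exact_mod_cast hb
    have hn0 : (0 : ℝ) < a + 1 := by positivity
    have hK0 : (0 : ℝ) < b + 1 := by positivity
    set Δ : ℝ := ((a : ℝ) + 1) ^ 2 + 4 * (a + 1) * (b + 1) * b with hΔ
    have hΔ0 : 0 < Δ := by positivity
    have hs : √Δ ^ 2 = Δ := Real.sq_sqrt hΔ0.le
    set D := √Δ with hD
    have hD0 : 0 < D := Real.sqrt_pos.2 hΔ0
    have hc : 0 < 2 * (b + 1) * (b : ℝ) := by positivity
    have hfac : ∀ s : ℝ, P a b s = (b + 1) * b *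
        ((((a : ℝ) + 1) * (2 * b + 1) - D) / (2 * (b + 1) * b) - 1 * s) *
        ((((a : ℝ) + 1) * (2 * b + 1) + D) / (2 * (b + 1) * b) - 1 * s) := by
      intro s
      have e : (b + 1) * b *
        ((((a : ℝ) + 1) * (2 * b + 1) - D) / (2 * (b + 1) * b) - 1 * s) *
        ((((a : ℝ) + 1) * (2 * b + 1) + D) / (2 * (b + 1) * b) - 1 * s) =
        ((((a : ℝ) + 1) * (2 * b + 1)) ^ 2 - D ^ 2) / (4 * (b + 1) * b) -
          (a + 1) * (2 * b + 1) * s + b * (b + 1) * s ^ 2 := by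
        field_simp; ring
      rw [e, hs, hΔ]
      unfold P
      field_simp
      ring
    -- the larger root exceeds `t`
    have hDn : (a : ℝ) + 1 < D := by
      rw [hD]
      apply Real.lt_sqrt_of_sq_lt
      rw [hΔ]
      have : 0 < 4 * ((a : ℝ) + 1) * (b + 1) * b := by positivity
      linarith
    have h2 : 0 < (((a : ℝ) + 1) * (2 * b + 1) + D) / (2 * (b + 1) * b) - 1 * t := by
      rw [sub_pos, lt_div_iff₀ hc, one_mul]
      have t1 : t * (2 * (b + 1) * b) = 2 * b * ((b + 1) * t) := by ring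
      have t2 : 2 * b * ((b + 1) * t) < 2 * b * ((a : ℝ) + 1) :=
        mul_lt_mul_of_pos_left hA (by positivity)
      rw [t1]
      nlinarith
    refine ⟨(b + 1) * b, _, 1, _, 1, by positivity, one_pos, zero_le_one, ?_, h2, hfac⟩
    have h3 := hfac t
    rw [h3] at hP
    have h4 := (mul_pos_iff_of_pos_right h2).1 hP
    exact (mul_pos_iff_of_pos_left (by positivity)).1 h4

end Pool.Agent.H967.KRU
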