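import Pool.Agent.H967.KRU.Conc3

set_option autoImplicit false

/-! # The second derivative of `ψ`: the sign pattern -/

namespace Pool.Agent.H967.KRU

open Real Set
open Pool.Agent.Q82.KR (L M L_pos M_pos M_lt_L w w_strictMonoOn w_lt lt_w w_eq ψ dψ E_pos r r_S1
  ψ_pos_iff hasDerivAt_L hasDerivAt_M hasDerivAt_log1)

variable {a b : ℕ}

/-- the logarithm of the quotient of the two terms of the second derivative -/
noncomputable def Rf (a b : ℕ) (ρ σ ρ' σ' y : ℝ) : ℝ :=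
  (a - 1) * (Real.log (L y) - Real.log (M y)) + (b - 1) * (Real.log y - Real.log (1 - y)) +
    (Real.log (ρ - σ * L y) - Real.log (ρ - σ * M y)) +
    (Real.log (ρ' - σ' * L y) - Real.log (ρ' - σ' * M y))

/-- minus its derivative, up to a factor -/
noncomputable def Nf (a b : ℕ) (ρ σ ρ' σ' y : ℝ) : ℝ :=
  (a - 1) * w y - (b - 1) - Gf ρ σ y - Gf ρ' σ' y

lemma hasDerivAt_fac {ρ σ y : ℝ} (h0 : 0 < y) (h1 : y < 1) (hA : 0 < ρ - σ * L y)
    (hB : 0 < ρ - σ * M y) :
    HasDerivAt (fun y => Real.log (ρ - σ * L y) - Real.log (ρ - σ * M y))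
      (Gf ρ σ y / (y * (1 - y))) y := by
  have hz : 0 < 1 - y := by linarith
  have dA : HasDerivAt (fun y => ρ - σ * L y) (-(σ * (-(1 / y)))) y :=
    ((hasDerivAt_L h0).const_mul σ).const_sub _
  have dB : HasDerivAt (fun y => ρ - σ * M y) (-(σ * (1 / (1 - y)))) y :=
    ((hasDerivAt_M h1).const_mul σ).const_sub _
  have d := (dA.log hA.ne').sub (dB.log hB.ne')
  refine d.congr_deriv ?_
  unfold Gf
  field_simp
  ring

lemma hasDerivAt_Rf {ρ σ ρ' σ' y : ℝ} (h0 : 0 < y) (h1 : y < 1) (hA : 0 < ρ - σ * L y)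
    (hB : 0 < ρ - σ * M y) (hA' : 0 < ρ' - σ' * L y) (hB' : 0 < ρ' - σ' * M y) :
    HasDerivAt (Rf a b ρ σ ρ' σ') (-Nf a b ρ σ ρ' σ' y / (y * (1 - y))) y := by
  have hL := L_pos h0 h1
  have hM := M_pos h0 h1
  have hz : 0 < 1 - y := by linarith
  have d1 : HasDerivAt (fun y => (a - 1) * (Real.log (L y) - Real.log (M y)) +
      (b - 1) * (Real.log y - Real.log (1 - y)))
      (-((a - 1) * w y - (b - 1)) / (y * (1 - y))) y := by
    have d := ((((hasDerivAt_L h0).log hL.ne').sub ((hasDerivAt_M h1).log hM.ne')).const_mul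
      ((a : ℝ) - 1)).add (((Real.hasDerivAt_log h0.ne').sub (hasDerivAt_log1 h1)).const_mul
      ((b : ℝ) - 1))
    refine d.congr_deriv ?_
    unfold w
    field_simp
    ring
  have d := (d1.add (hasDerivAt_fac h0 h1 hA hB)).add (hasDerivAt_fac h0 h1 hA' hB')
  refine d.congr_deriv ?_
  unfold Nf
  ring

lemma Rf_half {ρ σ ρ' σ' : ℝ} : Rf a b ρ σ ρ' σ' (1 / 2) = 0 := by
  unfold Rf; rw [L_half, M_half]; norm_num

/-- the sign of the second derivative to the left of the first inflection point -/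
lemma claim3 {y₁ y₂ : ℝ} (h0 : 0 < y₁) (h12 : y₁ < y₂) (h2 : y₂ < 1 / 2)
    (hA : ((b : ℝ) + 1) * L y₁ < a + 1) (hP : 0 ≤ P a b (L y₁)) (hdd : 0 ≤ ddψ a b y₁) :
    0 < ddψ a b y₂ := by
  have h1 : y₁ < 1 / 2 := h12.trans h2
  have hL := L_pos h0 (show y₁ < 1 by linarith)
  have hM := M_pos h0 (show y₁ < 1 by linarith)
  have hLM := M_lt_L h0 h1
  have hz : 0 < 1 - y₁ := by linarith
  -- `a ≥ 1`
  have ha : 1 ≤ a := by
    by_contra hcon
    have ha0 : a = 0 := by omega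
    subst ha0
    unfold P at hP
    norm_num at hP hA
    have hb0 : (0 : ℝ) ≤ b := Nat.cast_nonneg _
    have t1 : (0 : ℝ) ≤ L y₁ * (b * (b + 1) * L y₁ - (2 * b + 1)) := by nlinarith
    have t2 := (mul_nonneg_iff_of_pos_left hL).1 t1
    have t3 : b * ((b + 1) * L y₁) ≤ b * 1 := mul_le_mul_of_nonneg_left hA.le hb0
    nlinarith
  have ha1 : (1 : ℝ) ≤ a := by exact_mod_cast ha
  have hn0 : (0 : ℝ) < a + 1 := by positivity
  have hK0 : (0 : ℝ) < b + 1 := by positivity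
  -- `P (L y₁) > 0`
  have hP' : 0 < P a b (L y₁) := by
    rcases eq_or_lt_of_le hP with e | e
    · exfalso
      -- then `P (M y₁) > 0`
      have hPM : 0 < P a b (M y₁) := by
        have k : P a b (M y₁) - P a b (L y₁) =
            (L y₁ - M y₁) * ((a + 1) * (2 * b + 1) - b * (b + 1) * (L y₁ + M y₁)) := by
          unfold P; ring
        have hb0 : (0 : ℝ) ≤ b := Nat.cast_nonneg _
        have t1 : b * ((b + 1) * L y₁) ≤ b * ((a : ℝ) + 1) := mul_le_mul_of_nonneg_left hA.le hb0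
        have t2 : b * ((b + 1) * M y₁) ≤ b * ((b + 1) * L y₁) :=
          mul_le_mul_of_nonneg_left (mul_le_mul_of_nonneg_left hLM.le hK0.le) hb0
        have t3 : 0 < (L y₁ - M y₁) * ((a + 1) * (2 * b + 1) - b * (b + 1) * (L y₁ + M y₁)) := by
          apply mul_pos (by linarith)
          nlinarith
        rw [← e] at k
        linarith
      have : ddψ a b y₁ < 0 := by
        unfold ddψ
        rw [← e]
        have : 0 < M y₁ ^ a * (1 - y₁) ^ b * P a b (M y₁) / (M y₁ * (1 - y₁)) := by positivity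
        simp only [mul_zero, zero_div]
        linarith
      linarith
    · exact e
  obtain ⟨C, ρ, σ, ρ', σ', hC, hσ, hσ', hρ, hρ', hfac⟩ := P_factor a b ha hA hP'
  -- positivity of the factors
  have posL : ∀ y ∈ Icc y₁ (1 / 2 : ℝ), 0 < ρ - σ * L y ∧ 0 < ρ' - σ' * L y := by
    intro y hy
    have : L y ≤ L y₁ := by
      unfold L; linarith [Real.log_le_log h0 hy.1]
    have t1 := mul_le_mul_of_nonneg_left this hσ.le
    have t2 := mul_le_mul_of_nonneg_left this hσ'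
    constructor <;> linarith
  have posM : ∀ y ∈ Icc y₁ (1 / 2 : ℝ), 0 < ρ - σ * M y ∧ 0 < ρ' - σ' * M y := by
    intro y hy
    have h3 := posL y hy
    have : M y ≤ L y := by
      unfold M L; linarith [Real.log_le_log (lt_of_lt_of_le h0 hy.1) (show y ≤ 1 - y by linarith [hy.2])]
    have t1 := mul_le_mul_of_nonneg_left this hσ.le
    have t2 := mul_le_mul_of_nonneg_left this hσ'
    constructor <;> linarith [h3.1, h3.2]
  -- equivalence of the signs
  have iffp : ∀ y ∈ Ico y₁ (1 / 2 : ℝ), (0 ≤ ddψ a b y ↔ 0 ≤ Rf a b ρ σ ρ' σ' y) ∧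
      (0 < ddψ a b y ↔ 0 < Rf a b ρ σ ρ' σ' y) := by
    intro y hy
    have y0 : 0 < y := lt_of_lt_of_le h0 hy.1
    have yz : 0 < 1 - y := by linarith [hy.2]
    have hLy := L_pos y0 (show y < 1 by linarith [hy.2])
    have hMy := M_pos y0 (show y < 1 by linarith [hy.2])
    have pl := posL y ⟨hy.1, hy.2.le⟩
    have pm := posM y ⟨hy.1, hy.2.le⟩
    have hp1 : 0 < P a b (L y) := by rw [hfac]; exact mul_pos (mul_pos hC pl.1) pl.2
    have hp2 : 0 < P a b (M y) := by rw [hfac]; exact mul_pos (mul_pos hC pm.1) pm.2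
    have e1 := term_log (a := a) (b := b) y0 hLy (log_y_eq y) hp1
    have e2 := term_log (a := a) (b := b) yz hMy (log_1y_eq y) hp2
    have l1 : Real.log (P a b (L y)) = Real.log C + Real.log (ρ - σ * L y) +
        Real.log (ρ' - σ' * L y) := by
      rw [hfac, Real.log_mul (mul_pos hC pl.1).ne' pl.2.ne', Real.log_mul hC.ne' pl.1.ne']
    have l2 : Real.log (P a b (M y)) = Real.log C + Real.log (ρ - σ * M y) +
        Real.log (ρ' - σ' * M y) := by
      rw [hfac, Real.log_mul (mul_pos hC pm.1).ne' pm.2.ne', Real.log_mul hC.ne' pm.1.ne']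
    have e3 : Rf a b ρ σ ρ' σ' y = Real.log (L y ^ a * y ^ b * P a b (L y) / (L y * y)) -
        Real.log (M y ^ a * (1 - y) ^ b * P a b (M y) / (M y * (1 - y))) := by
      rw [e1, e2, l1, l2]
      unfold Rf
      rw [log_y_eq y, log_1y_eq y]; ring
    rw [e3]
    unfold ddψ
    rw [sub_nonneg, sub_nonneg, sub_pos, sub_pos, Real.log_le_log_iff (by positivity) (by positivity),
      Real.log_lt_log_iff (by positivity) (by positivity)]
    exact ⟨Iff.rfl, Iff.rfl⟩
  have hR1 : 0 ≤ Rf a b ρ σ ρ' σ' y₁ := ((iffp y₁ ⟨le_rfl, h1⟩).1).1 hdd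
  have goal : 0 < Rf a b ρ σ ρ' σ' y₂ → 0 < ddψ a b y₂ := ((iffp y₂ ⟨h12.le, h2⟩).2).2
  apply goal
  -- monotonicity of `N`
  have hNmono : ∀ x ∈ Ico y₁ (1 / 2 : ℝ), ∀ y ∈ Ico y₁ (1 / 2 : ℝ), x < y →
      Nf a b ρ σ ρ' σ' x < Nf a b ρ σ ρ' σ' y := by
    intro x hx y hy hxy
    have g1 := (Gf_anti h0 hσ.le hρ).2 hσ hx hy hxy
    have g2 := (Gf_anti h0 hσ' hρ').1 hx hy hxy.le
    have g3 := (w_strictMonoOn ⟨lt_of_lt_of_le h0 hx.1, hx.2⟩ ⟨lt_of_lt_of_le h0 hy.1, hy.2⟩ hxy).le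
    have g4 : ((a : ℝ) - 1) * w x ≤ (a - 1) * w y := mul_le_mul_of_nonneg_left g3 (by linarith)
    unfold Nf
    linarith
  have hder : ∀ y ∈ Icc y₁ (1 / 2 : ℝ), HasDerivAt (Rf a b ρ σ ρ' σ')
      (-Nf a b ρ σ ρ' σ' y / (y * (1 - y))) y := by
    intro y hy
    have pl := posL y hy
    have pm := posM y hy
    exact hasDerivAt_Rf (lt_of_lt_of_le h0 hy.1) (by linarith [hy.2]) pl.1 pm.1 pl.2 pm.2
  rcases le_or_gt (Nf a b ρ σ ρ' σ' y₂) 0 with hN | hN
  · have hm : StrictMonoOn (Rf a b ρ σ ρ' σ') (Icc y₁ y₂) := by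
      apply strictMonoOn_of_deriv_pos (convex_Icc _ _)
      · intro y hy
        exact (hder y ⟨hy.1, by linarith [hy.2]⟩).continuousAt.continuousWithinAt
      · intro y hy
        rw [interior_Icc] at hy
        have y0 : 0 < y := h0.trans hy.1
        have yz : 0 < 1 - y := by linarith [hy.2]
        rw [(hder y ⟨hy.1.le, by linarith [hy.2]⟩).deriv]
        have := hNmono y ⟨hy.1.le, by linarith [hy.2]⟩ y₂ ⟨h12.le, h2⟩ hy.2
        apply div_pos (by linarith)
        exact mul_pos y0 yz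
    have := hm (left_mem_Icc.2 h12.le) (right_mem_Icc.2 h12.le) h12
    linarith
  · have hm : StrictAntiOn (Rf a b ρ σ ρ' σ') (Icc y₂ (1 / 2)) := by
      apply strictAntiOn_of_deriv_neg (convex_Icc _ _)
      · intro y hy
        exact (hder y ⟨by linarith [hy.1], hy.2⟩).continuousAt.continuousWithinAt
      · intro y hy
        rw [interior_Icc] at hy
        have y0 : 0 < y := (h0.trans h12).trans hy.1
        have yz : 0 < 1 - y := by linarith [hy.2]
        rw [(hder y ⟨by linarith [hy.1], hy.2.le⟩).deriv]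
        have := hNmono y₂ ⟨h12.le, h2⟩ y ⟨by linarith [hy.1], hy.2⟩ hy.1
        apply div_neg_of_neg_of_pos (by linarith)
        exact mul_pos y0 yz
    have := hm (left_mem_Icc.2 h2.le) (right_mem_Icc.2 h2.le) h2
    rw [Rf_half] at this
    exact this

/-- **the sign pattern of the second derivative of `ψ`** -/
theorem ddψ_pattern {y₁ y₂ : ℝ} (h0 : 0 < y₁) (h12 : y₁ < y₂) (h2 : y₂ < 1 / 2)
    (hψ : 0 < ψ a b y₁) (hd : dψ a b y₁ ≤ 0) (hdd : 0 ≤ ddψ a b y₁) : 0 < ddψ a b y₂ := by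
  have h1 : y₁ < 1 / 2 := h12.trans h2
  have hA : ((b : ℝ) + 1) * L y₁ < a + 1 := by
    by_contra hcon
    push Not at hcon
    have := claim1 h0 h1 hψ hd (by linarith)
    linarith
  have hP : 0 ≤ P a b (L y₁) := by
    by_contra hcon
    push Not at hcon
    have := claim2 h0 h1 hA hcon
    linarith
  exact claim3 h0 h12 h2 hA hP hdd

end Pool.Agent.H967.KRU
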