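import Pool.Agent.H967.KRU.Law

set_option autoImplicit false

/-! # The law of `p(U)` for an odd increasing function `p`, convex on `(1/2, 1)` -/

namespace Pool.Agent.H967.KRU

open Real Set MeasureTheory Filter Topology
open Pool.Agent.Q82.KR (Uni f φ quantile mean sd recordMean Sym quantile_eq F_quantile F_symm
  map_refl_lam refl_int)
open Q287.ISD (lam)

/-- hypotheses on the quantile function -/
structure QF (p d : ℝ → ℝ) (T : Set ℝ) : Prop where
  meas : Measurable p
  mono : StrictMonoOn p (Ioo 0 1)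
  cont : ContinuousOn p (Ioo 0 1)
  odd : ∀ x, p (1 - x) = -p x
  ctb : T.Countable
  half : (1 / 2 : ℝ) ∈ T
  deriv : ∀ x, 0 < x → x < 1 → x ∉ T → HasDerivAt p (d x) x
  dpos : ∀ x, 1 / 2 < x → x < 1 → 0 < d x
  dmono : MonotoneOn d (Ioo (1 / 2) 1)
  dsymm : ∀ x, d (1 - x) = d x
  sq : Integrable (fun x => p x ^ 2) lam

variable {p d : ℝ → ℝ} {T : Set ℝ}

/-- the density -/
noncomputable def rho (p d : ℝ → ℝ) (t : ℝ) : ℝ :=
  open Classical in if t ∈ p '' Ioo 0 1 then |d (Function.invFunOn p (Ioo 0 1) t)|⁻¹ else 0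

lemma rho_nonneg (t : ℝ) : 0 ≤ rho p d t := by
  unfold rho; split_ifs
  · positivity
  · exact le_rfl

lemma QF.rho_p (h : QF p d T) {x : ℝ} (hx : x ∈ Ioo (0 : ℝ) 1) : rho p d (p x) = |d x|⁻¹ := by
  unfold rho
  rw [if_pos (mem_image_of_mem _ hx), h.mono.injOn.leftInvOn_invFunOn hx]

lemma rho_of_notMem {t : ℝ} (ht : t ∉ p '' Ioo 0 1) : rho p d t = 0 := by
  unfold rho; rw [if_neg ht]

lemma QF.p_half (h : QF p d T) : p (1 / 2) = 0 := by
  have := h.odd (1 / 2)
  norm_num at this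
  norm_num
  linarith

lemma QF.pos_iff (h : QF p d T) {x : ℝ} (hx : x ∈ Ioo (0 : ℝ) 1) : 0 < p x ↔ 1 / 2 < x := by
  rw [← h.p_half]
  exact h.mono.lt_iff_lt ⟨by norm_num, by norm_num⟩ hx

lemma QF.rho_anti (h : QF p d T) : AntitoneOn (rho p d) (Ioi 0) := by
  intro s hs t ht hst
  have hs0 : 0 < s := hs
  by_cases h1 : t ∈ p '' Ioo 0 1
  · obtain ⟨y, hy, rfl⟩ := h1
    have hy2 : 1 / 2 < y := (h.pos_iff hy).1 ht
    -- `s` is also a value
    have hsv : s ∈ p '' Icc (1 / 2) y := by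
      have hc : ContinuousOn p (Icc (1 / 2) y) := h.cont.mono fun z hz =>
        ⟨by linarith [hz.1], lt_of_le_of_lt hz.2 hy.2⟩
      exact intermediate_value_Icc hy2.le hc ⟨by rw [h.p_half]; exact hs0.le, hst⟩
    obtain ⟨x, hx, rfl⟩ := hsv
    have hx01 : x ∈ Ioo (0 : ℝ) 1 := ⟨by linarith [hx.1], lt_of_le_of_lt hx.2 hy.2⟩
    have hx2 : 1 / 2 < x := (h.pos_iff hx01).1 hs0
    rw [h.rho_p hx01, h.rho_p hy]
    have d1 := h.dpos x hx2 hx01.2
    have d2 := h.dpos y hy2 hy.2
    rw [abs_of_pos d1, abs_of_pos d2]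
    exact inv_anti₀ d1 (h.dmono ⟨hx2, hx01.2⟩ ⟨hy2, hy.2⟩ hx.2)
  · rw [rho_of_notMem h1]; exact rho_nonneg _

lemma QF.rho_even (h : QF p d T) (t : ℝ) : rho p d (-t) = rho p d t := by
  by_cases h1 : t ∈ p '' Ioo 0 1
  · obtain ⟨x, hx, rfl⟩ := h1
    have hx' : 1 - x ∈ Ioo (0 : ℝ) 1 := ⟨by linarith [hx.2], by linarith [hx.1]⟩
    rw [← h.odd, h.rho_p hx, h.rho_p hx', h.dsymm]
  · have h2 : -t ∉ p '' Ioo 0 1 := by
      rintro ⟨x, hx, e⟩
      apply h1
      exact ⟨1 - x, ⟨by linarith [hx.2], by linarith [hx.1]⟩, by rw [h.odd, e, neg_neg]⟩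
    rw [rho_of_notMem h1, rho_of_notMem h2]

lemma QF.rho_mono (h : QF p d T) : MonotoneOn (rho p d) (Iio 0) := by
  intro s hs t ht hst
  rw [← h.rho_even s, ← h.rho_even t]
  have hs' : s < 0 := hs
  have ht' : t < 0 := ht
  exact h.rho_anti (show -t ∈ Ioi 0 by simp only [mem_Ioi]; linarith)
    (show -s ∈ Ioi 0 by simp only [mem_Ioi]; linarith) (by linarith)

lemma QF.d_ne (h : QF p d T) {x : ℝ} (hx : x ∈ Ioo (0 : ℝ) 1) (hT : x ∉ T) : d x ≠ 0 := by
  rcases lt_trichotomy x (1 / 2) with c | c | c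
  · rw [← h.dsymm]
    exact (h.dpos (1 - x) (by linarith) (by linarith [hx.1])).ne'
  · rw [c] at hT; exact absurd h.half hT
  · exact (h.dpos x c hx.2).ne'

lemma QF.map_eq (h : QF p d T) :
    lam.map p = volume.withDensity fun t => ENNReal.ofReal (rho p d t) := by
  set S := Ioo (0 : ℝ) 1 \ T with hS
  have hSm : MeasurableSet S := measurableSet_Ioo.diff h.ctb.measurableSet
  have hSI : S ⊆ Ioo 0 1 := sdiff_subset
  have hinj : InjOn p S := h.mono.injOn.mono hSI
  have himg : MeasurableSet (p '' S) := hSm.image_of_continuousOn_injOn (h.cont.mono hSI) hinj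
  ext B hB
  rw [Measure.map_apply h.meas hB, withDensity_apply _ hB]
  -- left side
  have e1 : lam (p ⁻¹' B) = ∫⁻ x in S, B.indicator (fun _ => (1 : ENNReal)) (p x) := by
    have t1 : ∫⁻ x in S, B.indicator (fun _ => (1 : ENNReal)) (p x) =
        ∫⁻ x in S, (p ⁻¹' B).indicator (fun _ => (1 : ENNReal)) x := rfl
    rw [t1, lintegral_indicator (h.meas hB), setLIntegral_one, Measure.restrict_apply (h.meas hB),
      Measure.restrict_apply (h.meas hB)]
    apply measure_congr
    have : (p ⁻¹' B ∩ S : Set ℝ) = (p ⁻¹' B ∩ Ioo 0 1) \ T := by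
      rw [hS, inter_sdiff_assoc]
    rw [this]
    exact (sdiff_null_ae_eq_self (h.ctb.measure_zero _)).symm
  -- right side
  have e2 : ∫⁻ t in B, ENNReal.ofReal (rho p d t) =
      ∫⁻ t in p '' S, B.indicator (fun t => ENNReal.ofReal (rho p d t)) t := by
    rw [← lintegral_indicator hB, ← lintegral_indicator himg]
    apply lintegral_congr_ae
    have hnull : volume (p '' T) = 0 := (h.ctb.image p).measure_zero _
    have : ∀ᵐ t ∂(volume : Measure ℝ), t ∉ p '' T := by
      rw [ae_iff]; simp only [not_not]; exact hnull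
    filter_upwards [this] with t ht
    by_cases h1 : t ∈ p '' S
    · rw [indicator_of_mem h1]
    · rw [indicator_of_notMem h1]
      have h2 : t ∉ p '' Ioo 0 1 := by
        rintro ⟨x, hx, e⟩
        by_cases hxT : x ∈ T
        · exact ht ⟨x, hxT, e⟩
        · exact h1 ⟨x, ⟨hx, hxT⟩, e⟩
      by_cases h3 : t ∈ B
      · rw [indicator_of_mem h3, rho_of_notMem h2, ENNReal.ofReal_zero]
      · rw [indicator_of_notMem h3]
  rw [e1, e2, lintegral_image_eq_lintegral_abs_deriv_mul hSm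
    (fun x hx => (h.deriv x hx.1.1 hx.1.2 hx.2).hasDerivWithinAt) hinj]
  apply setLIntegral_congr_fun hSm
  intro x hx
  simp only
  by_cases h3 : p x ∈ B
  · rw [indicator_of_mem h3, indicator_of_mem h3, h.rho_p hx.1, ← ENNReal.ofReal_mul (abs_nonneg _),
      mul_inv_cancel₀ (abs_ne_zero.2 (h.d_ne hx.1 hx.2)), ENNReal.ofReal_one]
  · rw [indicator_of_notMem h3, indicator_of_notMem h3, mul_zero]

lemma QF.int_p (h : QF p d T) : Integrable p lam := by
  refine ((integrable_const (1 : ℝ)).add h.sq).mono' h.meas.aestronglyMeasurable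
    (Eventually.of_forall fun t => ?_)
  simp only [Pi.add_apply, Real.norm_eq_abs]
  nlinarith [sq_abs (p t), sq_nonneg (|p t| - 1), abs_nonneg (p t)]

lemma QF.mean_eq (h : QF p d T) : mean (lam.map p) = 0 := by
  unfold mean
  rw [integral_map (f := fun t : ℝ => t) h.meas.aemeasurable measurable_id.aestronglyMeasurable]
  have h1 : ∫ x in Ioo (0 : ℝ) 1, p (1 - x) = ∫ x in Ioo (0 : ℝ) 1, p x := refl_int p
  simp only [h.odd] at h1
  rw [integral_neg] at h1
  have : ∫ x in Ioo (0 : ℝ) 1, p x = 0 := by linarith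
  exact this

lemma QF.quantile_eq' (h : QF p d T) {x : ℝ} (hx : x ∈ Ioo (0 : ℝ) 1) :
    quantile (lam.map p) x = p x := by
  rw [quantile_eq]
  exact Q287.ISD.quantile_map h.mono.monotoneOn h.meas
    (fun y hy => (h.cont.continuousAt (Ioo_mem_nhds hy.1 hy.2)).continuousWithinAt) hx

lemma QF.sq_pos (h : QF p d T) : 0 < ∫ x in Ioo (0 : ℝ) 1, p x ^ 2 := by
  rw [integral_pos_iff_support_of_nonneg (fun x => sq_nonneg _) h.sq]
  by_contra hcon
  push Not at hcon
  have h0 : lam (Function.support fun x => p x ^ 2) = 0 := le_antisymm hcon bot_le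
  have h1 : volume (Ioo (1 / 2 : ℝ) 1) ≤ lam (Function.support fun x => p x ^ 2) := by
    rw [Measure.restrict_apply' measurableSet_Ioo]
    apply measure_mono
    intro x hx
    have hx' : x ∈ Ioo (0 : ℝ) 1 := ⟨by linarith [hx.1], hx.2⟩
    refine ⟨?_, hx'⟩
    have := (h.pos_iff hx').2 hx.1
    simp only [Function.mem_support]
    positivity
  rw [h0, Real.volume_Ioo] at h1
  norm_num at h1

lemma QF.sym (h : QF p d T) : Sym (lam.map p) := by
  have hprob : IsProbabilityMeasure (lam.map p) := Measure.isProbabilityMeasure_map h.meas.aemeasurable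
  have hmean := h.mean_eq
  have hsd : sd (lam.map p) = √(∫ x in Ioo (0 : ℝ) 1, p x ^ 2) := by
    unfold sd
    rw [hmean]
    simp only [sub_zero]
    rw [integral_map (f := fun t : ℝ => t ^ 2) h.meas.aemeasurable
      (measurable_id.pow_const 2).aestronglyMeasurable]
  refine ⟨hprob, ?_, ?_, ?_, ?_⟩
  · intro t
    rw [Measure.map_apply h.meas (measurableSet_singleton t),
      Measure.restrict_apply (h.meas (measurableSet_singleton t))]
    have hs : (p ⁻¹' {t} ∩ Ioo 0 1).Subsingleton := by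
      rintro x ⟨hx, hx1⟩ y ⟨hy, hy1⟩
      simp only [mem_preimage, mem_singleton_iff] at hx hy
      exact h.mono.injOn hx1 hy1 (hx.trans hy.symm)
    exact hs.measure_zero _
  · rw [integrable_map_measure (g := fun t : ℝ => t ^ 2)
      (measurable_id.pow_const 2).aestronglyMeasurable h.meas.aemeasurable]
    exact h.sq
  · rw [hsd]; exact Real.sqrt_pos.2 h.sq_pos
  · rw [hmean]
    have e1 : (lam.map p).map (fun t => 2 * 0 - t) = lam.map (fun x => p (1 - x)) := by
      rw [Measure.map_map (g := fun t : ℝ => 2 * 0 - t)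
        (measurable_const.sub measurable_id) h.meas]
      congr 1
      funext x
      simp only [Function.comp, h.odd]; ring
    have e2 : lam.map (fun x => p (1 - x)) = (lam.map (fun x : ℝ => 1 - x)).map p := by
      rw [Measure.map_map (f := fun x : ℝ => 1 - x) h.meas (measurable_const.sub measurable_id)]
      rfl
    rw [e1, e2, map_refl_lam]

lemma QF.unimodal (h : QF p d T) : Unimodal (lam.map p) := by
  refine ⟨rho p d, rho_nonneg, ?_, ?_, h.map_eq⟩
  · rw [h.mean_eq]; exact h.rho_mono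
  · rw [h.mean_eq]; exact h.rho_anti

lemma QF.value (h : QF p d T) {k n : ℕ} (hk : 1 ≤ k) :
    (recordMean k n (lam.map p) - mean (lam.map p)) / sd (lam.map p) =
      (∫ x in Ioo (0 : ℝ) 1, p x * φ k n x) / 2 / √(∫ x in Ioo (0 : ℝ) 1, p x ^ 2) := by
  rw [recordMean_eq' hk h.sym, sd_eq h.sym, h.mean_eq]
  have e1 : ∫ x in Ioo (0 : ℝ) 1, (quantile (lam.map p) x - 0) * φ k n x =
      ∫ x in Ioo (0 : ℝ) 1, p x * φ k n x := by
    refine setIntegral_congr_fun measurableSet_Ioo fun x hx => ?_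
    rw [h.quantile_eq' hx, sub_zero]
  have e2 : ∫ x in Ioo (0 : ℝ) 1, (quantile (lam.map p) x - 0) ^ 2 =
      ∫ x in Ioo (0 : ℝ) 1, p x ^ 2 := by
    refine setIntegral_congr_fun measurableSet_Ioo fun x hx => ?_
    rw [h.quantile_eq' hx, sub_zero]
  rw [e1, e2]

end Pool.Agent.H967.KRU
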