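import Pool.Graph.R_pool_sql_team_seeded_3997aac3.Q82.KR.Psi

set_option autoImplicit false

/-! # The sign of the second derivative of `ψ` -/

namespace Pool.Agent.H967.KRU

open Real Set
open Pool.Agent.Q82.KR (L M L_pos M_pos M_lt_L w w_strictMonoOn w_lt lt_w w_eq ψ dψ E_pos r r_S1
  ψ_pos_iff hasDerivAt_L hasDerivAt_M hasDerivAt_log1)

variable (a b : ℕ)

/-- the quadratic polynomial -/
noncomputable def P (t : ℝ) : ℝ :=
  a * (a + 1) - (a + 1) * (2 * b + 1) * t + b * (b + 1) * t ^ 2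

/-- the second derivative of `ψ` -/
noncomputable def ddψ (y : ℝ) : ℝ :=
  L y ^ a * y ^ b * P a b (L y) / (L y * y) - M y ^ a * (1 - y) ^ b * P a b (M y) / (M y * (1 - y))

lemma mul_pow_pred (m : ℕ) {x : ℝ} (hx : x ≠ 0) : (m : ℝ) * x ^ (m - 1) = m * x ^ m / x := by
  rcases Nat.eq_zero_or_pos m with h | h
  · subst h; simp
  · obtain ⟨j, rfl⟩ : ∃ j, m = j + 1 := ⟨m - 1, by omega⟩
    rw [Nat.add_sub_cancel, pow_succ]; field_simp

lemma hasDerivAt_dψ {y : ℝ} (h0 : 0 < y) (h1 : y < 1) : HasDerivAt (dψ a b) (ddψ a b y) y := by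
  have hL := L_pos h0 h1
  have hM := M_pos h0 h1
  have hz : 0 < 1 - y := by linarith
  have dA : HasDerivAt (fun y => (b + 1) * L y - (a + 1)) ((b + 1) * (-(1 / y))) y :=
    ((hasDerivAt_L h0).const_mul ((b : ℝ) + 1)).sub_const _
  have dB : HasDerivAt (fun y => (a + 1) - (b + 1) * M y) (-((b + 1) * (1 / (1 - y)))) y :=
    ((hasDerivAt_M h1).const_mul ((b : ℝ) + 1)).const_sub _
  have d1 := (((hasDerivAt_L h0).pow a).mul ((hasDerivAt_id y).pow b)).mul dA
  have d2 := (((hasDerivAt_M h1).pow a).mul (((hasDerivAt_id y).const_sub 1).pow b)).mul dB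
  have d := d1.sub d2
  refine d.congr_deriv ?_
  unfold ddψ P
  simp only [id, Pi.mul_apply, Pi.pow_apply, mul_pow_pred a hL.ne', mul_pow_pred b h0.ne', mul_pow_pred a hM.ne',
    mul_pow_pred b hz.ne']
  field_simp
  ring

end Pool.Agent.H967.KRU
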