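import Pool.Agent.H967.KRU.Rec

set_option autoImplicit false

/-! # Symmetric unimodal laws -/

namespace Pool.Agent.H967.KRU

open Real Set MeasureTheory Filter Topology
open Pool.Agent.Q82.KR (Uni f φ quantile mean sd recordMean Sym quantile_eq F_quantile F_symm)
open Q287.ISD (lam)

/-- `P` has a density which is nondecreasing to the left of the mean and nonincreasing to the right
of the mean -/
def Unimodal (P : Measure ℝ) : Prop :=
  ∃ p : ℝ → ℝ, (∀ t, 0 ≤ p t) ∧ MonotoneOn p (Iio (mean P)) ∧ AntitoneOn p (Ioi (mean P)) ∧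
    P = volume.withDensity (fun t => ENNReal.ofReal (p t))

variable {P : Measure ℝ}

lemma F_diff [IsProbabilityMeasure P] {s t : ℝ} (hst : s ≤ t) :
    P.real (Iic t) - P.real (Iic s) = P.real (Ioc s t) := by
  have h : Iic t = Iic s ∪ Ioc s t := (Iic_union_Ioc_eq_Iic hst).symm
  have hd : Disjoint (Iic s) (Ioc s t) :=
    Set.disjoint_left.2 fun x hx hx' => absurd (show x ≤ s from hx) (not_le.2 hx'.1)
  rw [h, measureReal_union hd measurableSet_Ioc]
  ring

lemma F_concave (h : Sym P) (hu : Unimodal P) :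
    ConcaveOn ℝ (Ici (mean P)) fun t => P.real (Iic t) := by
  have := h.prob
  obtain ⟨p, hp0, _, hanti, hP⟩ := hu
  set m := mean P with hm
  apply concaveOn_of_slope_anti_adjacent (convex_Ici _)
  intro s t r hs hr hst htr
  have hs' : m ≤ s := hs
  have hmt : m < t := lt_of_le_of_lt hs' hst
  have d1 : 0 < t - s := by linarith
  have d2 : 0 < r - t := by linarith
  have e1 : p t * (t - s) ≤ P.real (Ioc s t) := by
    have : ENNReal.ofReal (p t * (t - s)) ≤ P (Ioc s t) := by
      rw [hP, withDensity_apply _ measurableSet_Ioc]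
      calc ENNReal.ofReal (p t * (t - s)) = ∫⁻ _ in Ioc s t, ENNReal.ofReal (p t) := by
            rw [setLIntegral_const, Real.volume_Ioc, ENNReal.ofReal_mul (hp0 t)]
        _ ≤ ∫⁻ x in Ioc s t, ENNReal.ofReal (p x) := by
            apply setLIntegral_mono' measurableSet_Ioc
            intro x hx
            apply ENNReal.ofReal_le_ofReal
            exact hanti (show x ∈ Ioi m from lt_of_le_of_lt hs' hx.1) hmt hx.2
    rw [measureReal_def]
    exact (ENNReal.ofReal_le_iff_le_toReal (measure_ne_top P _)).1 this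
  have e2 : P.real (Ioc t r) ≤ p t * (r - t) := by
    have : P (Ioc t r) ≤ ENNReal.ofReal (p t * (r - t)) := by
      rw [hP, withDensity_apply _ measurableSet_Ioc]
      calc ∫⁻ x in Ioc t r, ENNReal.ofReal (p x) ≤ ∫⁻ _ in Ioc t r, ENNReal.ofReal (p t) := by
            apply setLIntegral_mono' measurableSet_Ioc
            intro x hx
            apply ENNReal.ofReal_le_ofReal
            exact hanti hmt (show x ∈ Ioi m from hmt.trans hx.1) hx.1.le
        _ = ENNReal.ofReal (p t * (r - t)) := by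
            rw [setLIntegral_const, Real.volume_Ioc, ENNReal.ofReal_mul (hp0 t)]
    rw [measureReal_def]
    exact ENNReal.toReal_le_of_le_ofReal (mul_nonneg (hp0 t) d2.le) this
  rw [F_diff htr.le, F_diff hst.le, div_le_div_iff₀ d2 d1]
  nlinarith

lemma F_mean (h : Sym P) : P.real (Iic (mean P)) = 1 / 2 := by
  have := h.prob
  have := F_symm h.cont h.symm (mean P)
  rw [show 2 * mean P - mean P = mean P by ring] at this
  linarith

lemma mean_lt_quantile (h : Sym P) {x : ℝ} (hx : x ∈ Ioo (1 / 2 : ℝ) 1) :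
    mean P < quantile P x := by
  have := h.prob
  by_contra hcon
  push Not at hcon
  have h1 : P.real (Iic (quantile P x)) ≤ P.real (Iic (mean P)) :=
    measureReal_mono (Iic_subset_Iic.2 hcon)
  rw [F_mean h, F_quantile h.cont ⟨by linarith [hx.1], hx.2⟩] at h1
  linarith [hx.1]

lemma q_nonneg (h : Sym P) {x : ℝ} (h1 : 1 / 2 < x) (h2 : x < 1) :
    0 ≤ quantile P x - mean P := by
  linarith [mean_lt_quantile h ⟨h1, h2⟩]

lemma q_convex (h : Sym P) (hu : Unimodal P) :
    ConvexOn ℝ (Ioo (1 / 2) 1) fun x => quantile P x - mean P := by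
  have := h.prob
  refine ⟨convex_Ioo _ _, fun x hx y hy a b ha hb hab => ?_⟩
  simp only [smul_eq_mul]
  have hxy : a * x + b * y ∈ Ioo (1 / 2 : ℝ) 1 := by
    have := (convex_Ioo (1 / 2 : ℝ) 1) hx hy ha hb hab
    simpa using this
  have hF := (F_concave h hu).2 (show quantile P x ∈ Ici (mean P) from (mean_lt_quantile h hx).le)
    (show quantile P y ∈ Ici (mean P) from (mean_lt_quantile h hy).le) ha hb hab
  simp only [smul_eq_mul] at hF
  rw [F_quantile h.cont ⟨by linarith [hx.1], hx.2⟩, F_quantile h.cont ⟨by linarith [hy.1], hy.2⟩]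
    at hF
  have := (Q287.ISD.quantile_le_iff P (by linarith [hxy.1]) hxy.2 _).2 hF
  rw [← quantile_eq] at this
  have e : mean P = a * mean P + b * mean P := by rw [← add_mul, hab, one_mul]
  linarith

lemma q_star (h : Sym P) (hu : Unimodal P) {x x' : ℝ} (h1 : 1 / 2 < x) (h2 : x < x')
    (h3 : x' < 1) :
    (quantile P x - mean P) * (x' - 1 / 2) ≤ (quantile P x' - mean P) * (x - 1 / 2) := by
  have := h.prob
  have hd : 0 < x' - 1 / 2 := by linarith
  have ha : 0 ≤ (x' - x) / (x' - 1 / 2) := div_nonneg (by linarith) hd.le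
  have hb : 0 ≤ (x - 1 / 2) / (x' - 1 / 2) := div_nonneg (by linarith) hd.le
  have hab : (x' - x) / (x' - 1 / 2) + (x - 1 / 2) / (x' - 1 / 2) = 1 := by
    rw [← add_div, div_eq_one_iff_eq hd.ne']; ring
  have hF := (F_concave h hu).2 (show mean P ∈ Ici (mean P) from self_mem_Ici)
    (show quantile P x' ∈ Ici (mean P) from (mean_lt_quantile h ⟨by linarith, h3⟩).le) ha hb hab
  simp only [smul_eq_mul] at hF
  rw [F_quantile h.cont ⟨by linarith, h3⟩, F_mean h] at hF
  have e1 : (x' - x) / (x' - 1 / 2) * (1 / 2) + (x - 1 / 2) / (x' - 1 / 2) * x' = x := by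
    rw [div_mul_eq_mul_div, div_mul_eq_mul_div, ← add_div, div_eq_iff hd.ne']; ring
  rw [e1] at hF
  have h4 := (Q287.ISD.quantile_le_iff P (by linarith) (by linarith) _).2 hF
  rw [← quantile_eq] at h4
  have h5 := mul_le_mul_of_nonneg_right h4 hd.le
  have e2 : ((x' - x) / (x' - 1 / 2) * mean P + (x - 1 / 2) / (x' - 1 / 2) * quantile P x') *
      (x' - 1 / 2) = (x' - x) * mean P + (x - 1 / 2) * quantile P x' := by
    have e3 : (x' - x) / (x' - 1 / 2) * (x' - 1 / 2) = x' - x := div_mul_cancel₀ _ hd.ne'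
    have e4 : (x - 1 / 2) / (x' - 1 / 2) * (x' - 1 / 2) = x - 1 / 2 := div_mul_cancel₀ _ hd.ne'
    linear_combination mean P * e3 + quantile P x' * e4
  rw [e2] at h5
  linarith

end Pool.Agent.H967.KRU
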