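import Pool.Agent.H967.KRU.Dens

set_option autoImplicit false

/-! # The sharp bounds for symmetric unimodal parents -/

namespace Pool.Agent.H967.KRU

open Real Set MeasureTheory Filter Topology
open Pool.Agent.Q82.KR (Uni f φ φ_symm φ_half φ_one φ_cont quantile mean sd recordMean Sym
  quantile_eq F_quantile F_symm map_refl_lam refl_int pairing measurable_φ Ioo_eq cl cl_symm cl_mem
  cl_of_mem cl_of_ge cl_cont integrable_cont integrable_mul_φ φ_bdd int_even_pow uni_φ φ_int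
  integral_φ measurable_f)
open Q287.ISD (lam)

/-- the values of `(E R - μ) / σ` over the symmetric unimodal laws -/
def suValues (k n : ℕ) : Set ℝ :=
  {v | ∃ P : Measure ℝ, Sym P ∧ Unimodal P ∧ v = (recordMean k n P - mean P) / sd P}

lemma ii_eq (g : ℝ → ℝ) : ∫ x in Ioo (1 / 2 : ℝ) 1, g x = ∫ x in (1 / 2 : ℝ)..1, g x := by
  rw [← integral_Ioc_eq_integral_Ioo, ← intervalIntegral.integral_of_le (by norm_num)]

/-- reduction of the upper bound to the interval `(1/2, 1)` -/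
lemma upper {k n : ℕ} (hk : 1 ≤ k) {G : ℝ → ℝ} (hG : Measurable G) (hodd : ∀ x, G (1 - x) = -G x)
    (hG2 : Integrable (fun x => G x ^ 2) lam)
    (hK : ∀ P : Measure ℝ, Sym P → Unimodal P →
      Integrable (fun x => (quantile P x - mean P) * (φ k n x - G x)) lam →
      ∫ x in (1 / 2 : ℝ)..1, (quantile P x - mean P) * (φ k n x - G x) ≤ 0)
    {v : ℝ} (hv : v ∈ suValues k n) : v ≤ √(∫ x in Ioo (0 : ℝ) 1, G x ^ 2) / 2 := by
  obtain ⟨P, h, hu, rfl⟩ := hv
  have hprob := h.prob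
  have i1 : Integrable (fun x => (quantile P x - mean P) * φ k n x) lam :=
    int_mul_of_sq (meas_q h) (measurable_φ k n).aestronglyMeasurable (sq_int_q h)
      (integrable_sq_φ hk n)
  have i2 : Integrable (fun x => (quantile P x - mean P) * G x) lam :=
    int_mul_of_sq (meas_q h) hG.aestronglyMeasurable (sq_int_q h) hG2
  have i3 : Integrable (fun x => (quantile P x - mean P) * (φ k n x - G x)) lam := by
    refine (i1.sub i2).congr (Eventually.of_forall fun x => ?_)
    simp only [Pi.sub_apply]; ring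
  apply value_le' hk h hG hG2
  have e : ∫ x in Ioo (0 : ℝ) 1, (quantile P x - mean P) * (φ k n x - G x) =
      (∫ x in Ioo (0 : ℝ) 1, (quantile P x - mean P) * φ k n x) -
        ∫ x in Ioo (0 : ℝ) 1, (quantile P x - mean P) * G x := by
    rw [← integral_sub i1 i2]
    refine integral_congr_ae (Eventually.of_forall fun x => ?_)
    simp only; ring
  have e2 := int_odd h (g := fun x => φ k n x - G x) ((measurable_φ k n).sub hG)
    (fun x => by rw [φ_symm, hodd]; ring) i3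
  rw [ii_eq] at e2
  have := hK P h hu i3
  linarith

lemma intervalInt_of_lam {g : ℝ → ℝ} (hg : Integrable g lam) {α : ℝ} (hα : 0 ≤ α) (hα1 : α ≤ 1) :
    IntervalIntegrable g volume α 1 := by
  rw [intervalIntegrable_iff_integrableOn_Ioo_of_le hα1]
  have : IntegrableOn g (Ioo 0 1) := hg
  exact this.mono_set (Ioo_subset_Ioo hα le_rfl)

/-- the general form of the attained cases -/
lemma isGreatest_of {k n : ℕ} (hk : 1 ≤ k) {G d : ℝ → ℝ} {T : Set ℝ} (hQ : QF G d T)
    (hK : ∀ P : Measure ℝ, Sym P → Unimodal P →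
      Integrable (fun x => (quantile P x - mean P) * (φ k n x - G x)) lam →
      ∫ x in (1 / 2 : ℝ)..1, (quantile P x - mean P) * (φ k n x - G x) ≤ 0)
    (hO : ∫ x in (1 / 2 : ℝ)..1, G x * (φ k n x - G x) = 0) :
    IsGreatest (suValues k n) (√((∫ x in (1 / 2 : ℝ)..1, G x ^ 2) / 2)) := by
  have i1 : Integrable (fun x => G x * φ k n x) lam :=
    int_mul_of_sq hQ.meas.aestronglyMeasurable (measurable_φ k n).aestronglyMeasurable hQ.sq
      (integrable_sq_φ hk n)
  have i2 : Integrable (fun x => G x * G x) lam :=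
    int_mul_of_sq hQ.meas.aestronglyMeasurable hQ.meas.aestronglyMeasurable hQ.sq hQ.sq
  have i3 : Integrable (fun x => G x * (φ k n x - G x)) lam := by
    refine (i1.sub i2).congr (Eventually.of_forall fun x => ?_)
    simp only [Pi.sub_apply]; ring
  have e1 : ∫ x in Ioo (0 : ℝ) 1, G x * (φ k n x - G x) = 0 := by
    rw [pairing (g := fun x => φ k n x - G x) i3 (fun x => by rw [φ_symm, hQ.odd]; ring)]
    have : ∫ x in (1 / 2 : ℝ)..1, (G x - G (1 - x)) * (φ k n x - G x) =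
        2 * ∫ x in (1 / 2 : ℝ)..1, G x * (φ k n x - G x) := by
      rw [← intervalIntegral.integral_const_mul]
      apply intervalIntegral.integral_congr
      intro x _
      simp only
      rw [hQ.odd]; ring
    rw [this, hO, mul_zero]
  have e2 : ∫ x in Ioo (0 : ℝ) 1, G x ^ 2 = 2 * ∫ x in (1 / 2 : ℝ)..1, G x ^ 2 := by
    have : ∫ x in Ioo (0 : ℝ) 1, G x ^ 2 = ∫ x in Ioo (0 : ℝ) 1, G x * G x := by
      refine integral_congr_ae (Eventually.of_forall fun x => ?_)
      simp only; ring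
    rw [this, pairing i2 hQ.odd, ← intervalIntegral.integral_const_mul]
    apply intervalIntegral.integral_congr
    intro x _
    simp only
    rw [hQ.odd]; ring
  have e3 : ∫ x in Ioo (0 : ℝ) 1, G x * φ k n x = ∫ x in Ioo (0 : ℝ) 1, G x ^ 2 := by
    have h1 : ∫ x in Ioo (0 : ℝ) 1, G x * (φ k n x - G x) =
        (∫ x in Ioo (0 : ℝ) 1, G x * φ k n x) - ∫ x in Ioo (0 : ℝ) 1, G x ^ 2 := by
      rw [← integral_sub i1 hQ.sq]
      refine integral_congr_ae (Eventually.of_forall fun x => ?_)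
      simp only; ring
    linarith
  have hA0 : 0 < ∫ x in Ioo (0 : ℝ) 1, G x ^ 2 := hQ.sq_pos
  have eN : √((∫ x in (1 / 2 : ℝ)..1, G x ^ 2) / 2) = √(∫ x in Ioo (0 : ℝ) 1, G x ^ 2) / 2 := by
    rw [e2, show (∫ x in (1 / 2 : ℝ)..1, G x ^ 2) / 2 =
      (2 * ∫ x in (1 / 2 : ℝ)..1, G x ^ 2) / 2 ^ 2 by ring,
      Real.sqrt_div (by rw [← e2]; exact hA0.le), Real.sqrt_sq (by norm_num)]
  rw [eN]
  constructor
  · refine ⟨lam.map G, hQ.sym, hQ.unimodal, ?_⟩
    rw [hQ.value hk, e3, div_right_comm, Real.div_sqrt]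
  · intro v hv
    exact upper hk hQ.meas hQ.odd hQ.sq hK hv

/-! ### The case `k = 1` -/

lemma hasDerivAt_f1 {n : ℕ} (hn : 1 ≤ n) {x : ℝ} (hx : x < 1) :
    HasDerivAt (f 1 n) ((-Real.log (1 - x)) ^ (n - 1) / (1 - x) / ((n - 1).factorial : ℝ)) x := by
  obtain ⟨m, rfl⟩ : ∃ m, n = m + 1 := ⟨n - 1, by omega⟩
  have hM := Pool.Agent.Q82.KR.hasDerivAt_M hx
  have d := ((hM.pow (m + 1)).const_mul ((((1 : ℕ) : ℝ)) ^ (m + 1 + 1) / ((m + 1).factorial : ℝ))).mul_const
    ((1 - x) ^ (1 - 1))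
  have e : f 1 (m + 1) = fun y : ℝ => (((1 : ℕ) : ℝ)) ^ (m + 1 + 1) / ((m + 1).factorial : ℝ) *
      (Pool.Agent.Q82.KR.M y) ^ (m + 1) * (1 - x) ^ (1 - 1) := by
    funext y
    unfold f Pool.Agent.Q82.KR.M
    simp
  rw [e]
  refine d.congr_deriv ?_
  simp only [Nat.cast_one, one_pow, Nat.sub_self, pow_zero, Nat.add_sub_cancel, mul_one]
  rw [Nat.factorial_succ]
  unfold Pool.Agent.Q82.KR.M
  push_cast
  field_simp

/-- the derivative of `φ 1 n` -/
noncomputable def d1 (n : ℕ) (x : ℝ) : ℝ :=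
  ((-Real.log (1 - x)) ^ (n - 1) / (1 - x) + (-Real.log x) ^ (n - 1) / x) / ((n - 1).factorial : ℝ)

lemma hasDerivAt_φ1 {n : ℕ} (hn : 1 ≤ n) {x : ℝ} (h0 : 0 < x) (h1 : x < 1) :
    HasDerivAt (φ 1 n) (d1 n x) x := by
  have hd : HasDerivAt (fun x : ℝ => 1 - x) (-1) x := by
    simpa using (hasDerivAt_id x).const_sub 1
  have d := (hasDerivAt_f1 hn h1).sub ((hasDerivAt_f1 hn (x := 1 - x) (by linarith)).comp x hd)
  refine d.congr_deriv ?_
  unfold d1
  rw [sub_sub_cancel]
  ring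

lemma neglog_pos {x : ℝ} (h0 : 0 < x) (h1 : x < 1) : 0 < -Real.log x := by
  linarith [Real.log_neg h0 h1]

lemma d1_pos {n : ℕ} {x : ℝ} (h0 : 0 < x) (h1 : x < 1) : 0 < d1 n x := by
  unfold d1
  have a := neglog_pos h0 h1
  have b := neglog_pos (show 0 < 1 - x by linarith) (by linarith)
  have c : 0 < 1 - x := by linarith
  positivity

lemma d1_mono (n : ℕ) : MonotoneOn (d1 n) (Ioo (1 / 2) 1) := by
  have hder : ∀ x ∈ Ioo (1 / 2 : ℝ) 1, HasDerivAt (d1 n)
      ((((n - 1 : ℕ) : ℝ) * (-Real.log (1 - x)) ^ (n - 1 - 1) / (1 - x) ^ 2 +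
        (-Real.log (1 - x)) ^ (n - 1) / (1 - x) ^ 2 -
        (((n - 1 : ℕ) : ℝ) * (-Real.log x) ^ (n - 1 - 1) / x ^ 2 +
        (-Real.log x) ^ (n - 1) / x ^ 2)) / ((n - 1).factorial : ℝ)) x := by
    intro x hx
    have hx0 : 0 < x := by linarith [hx.1]
    have hx1 : 0 < 1 - x := by linarith [hx.2]
    have hM : HasDerivAt (fun x : ℝ => -Real.log (1 - x)) (1 / (1 - x)) x :=
      Pool.Agent.Q82.KR.hasDerivAt_M hx.2
    have hL : HasDerivAt (fun x : ℝ => -Real.log x) (-(1 / x)) x :=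
      Pool.Agent.Q82.KR.hasDerivAt_L hx0
    have hd : HasDerivAt (fun x : ℝ => 1 - x) (-1) x := by
      simpa using (hasDerivAt_id x).const_sub 1
    have d := (((hM.pow (n - 1)).div hd hx1.ne').add
      ((hL.pow (n - 1)).div (hasDerivAt_id x) hx0.ne')).div_const (((n - 1).factorial : ℝ))
    refine d.congr_deriv ?_
    simp only [id, Pi.pow_apply]
    field_simp
    ring
  apply monotoneOn_of_deriv_nonneg (convex_Ioo _ _)
  · intro x hx
    exact (hder x hx).continuousAt.continuousWithinAt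
  · intro x hx
    rw [interior_Ioo] at hx
    exact (hder x hx).differentiableAt.differentiableWithinAt
  · intro x hx
    rw [interior_Ioo] at hx
    rw [(hder x hx).deriv]
    have hx0 : 0 < x := by linarith [hx.1]
    have hx1 : 0 < 1 - x := by linarith [hx.2]
    have a0 := (neglog_pos hx0 hx.2).le
    have b0 := (neglog_pos hx1 (by linarith)).le
    have ab : -Real.log x ≤ -Real.log (1 - x) := by
      linarith [Real.log_le_log hx1 (show 1 - x ≤ x by linarith [hx.1])]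
    have xx : (1 - x) ^ 2 ≤ x ^ 2 := pow_le_pow_left₀ hx1.le (by linarith [hx.1]) 2
    have t1 : ((n - 1 : ℕ) : ℝ) * (-Real.log x) ^ (n - 1 - 1) / x ^ 2 ≤
        ((n - 1 : ℕ) : ℝ) * (-Real.log (1 - x)) ^ (n - 1 - 1) / (1 - x) ^ 2 := by
      apply div_le_div₀ (by positivity) _ (by positivity) xx
      exact mul_le_mul_of_nonneg_left (pow_le_pow_left₀ a0 ab _) (Nat.cast_nonneg _)
    have t2 : (-Real.log x) ^ (n - 1) / x ^ 2 ≤ (-Real.log (1 - x)) ^ (n - 1) / (1 - x) ^ 2 := by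
      apply div_le_div₀ (by positivity) _ (by positivity) xx
      exact pow_le_pow_left₀ a0 ab _
    apply div_nonneg _ (by positivity)
    linarith

lemma QF_one {n : ℕ} (hn : 1 ≤ n) : QF (φ 1 n) (d1 n) {1 / 2} where
  meas := measurable_φ 1 n
  mono := by
    apply strictMonoOn_of_deriv_pos (convex_Ioo _ _)
    · intro x hx
      exact (hasDerivAt_φ1 hn hx.1 hx.2).continuousAt.continuousWithinAt
    · intro x hx
      rw [interior_Ioo] at hx
      rw [(hasDerivAt_φ1 hn hx.1 hx.2).deriv]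
      exact d1_pos hx.1 hx.2
  cont := fun x hx => (hasDerivAt_φ1 hn hx.1 hx.2).continuousAt.continuousWithinAt
  odd := φ_symm 1 n
  ctb := countable_singleton _
  half := rfl
  deriv := fun x h0 h1 _ => hasDerivAt_φ1 hn h0 h1
  dpos := fun x h0 h1 => d1_pos (by linarith) h1
  dmono := d1_mono n
  dsymm := fun x => by unfold d1; rw [sub_sub_cancel]; ring
  sq := integrable_sq_φ le_rfl n

theorem case_one {n : ℕ} (hn : 1 ≤ n) :
    IsGreatest (suValues 1 n) (√((∫ x in (1 / 2 : ℝ)..1, φ 1 n x ^ 2) / 2)) := by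
  apply isGreatest_of le_rfl (QF_one hn)
  · intro P _ _ _
    simp
  · simp

end Pool.Agent.H967.KRU
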