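import Pool.Agent.H967.KRU.Main

set_option autoImplicit false

/-! # The sharp bounds for symmetric unimodal parents, `k ≥ 2` -/

namespace Pool.Agent.H967.KRU

open Real Set MeasureTheory Filter Topology
open Pool.Agent.Q82.KR (Uni f φ φ_symm φ_half φ_one φ_cont quantile mean sd recordMean Sym
  quantile_eq F_quantile F_symm map_refl_lam refl_int pairing measurable_φ Ioo_eq cl cl_symm cl_mem
  cl_of_mem cl_of_ge cl_cont integrable_cont integrable_mul_φ φ_bdd int_even_pow uni_φ φ_int
  integral_φ measurable_f)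
open Q287.ISD (lam)

/-! ### The mean of the record value from the uniform parent -/

lemma xf_eq {k : ℕ} (hk : 1 ≤ k) (n : ℕ) (x : ℝ) :
    (1 - x) * f k n x = ((k : ℝ) / (k + 1)) ^ (n + 1) * f (k + 1) n x := by
  unfold f
  obtain ⟨b, rfl⟩ : ∃ b, k = b + 1 := ⟨k - 1, by omega⟩
  simp only [Nat.add_sub_cancel, div_pow]
  push_cast
  field_simp
  ring

lemma int_xf {k : ℕ} (hk : 1 ≤ k) (n : ℕ) :
    ∫ x in Ioo (0 : ℝ) 1, (1 - x) * f k n x = ((k : ℝ) / (k + 1)) ^ (n + 1) := by
  simp only [xf_eq hk]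
  rw [integral_const_mul, integral_f1 (by omega), mul_one]

/-- `∫_{1/2}^1 (x - 1/2) φ` -/
lemma J_eq {k : ℕ} (hk : 1 ≤ k) (n : ℕ) :
    ∫ x in (1 / 2 : ℝ)..1, (x - 1 / 2) * φ k n x = 1 / 2 - ((k : ℝ) / (k + 1)) ^ (n + 1) := by
  have mℓ : AEStronglyMeasurable (fun x : ℝ => x - 1 / 2) lam := by fun_prop
  have sℓ : Integrable (fun x : ℝ => (x - 1 / 2) ^ 2) lam := integrable_cont (by fun_prop)
  have iφ : Integrable (fun x => (x - 1 / 2) * φ k n x) lam :=
    int_mul_of_sq mℓ (measurable_φ k n).aestronglyMeasurable sℓ (integrable_sq_φ hk n)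
  have if1 : Integrable (fun x => (x - 1 / 2) * f k n x) lam :=
    int_mul_of_sq mℓ (measurable_f k n).aestronglyMeasurable sℓ (integrable_sq_f hk n)
  have if2 : Integrable (fun x => (x - 1 / 2) * f k n (1 - x)) lam := by
    have := int_refl if1
    refine this.neg.congr (Eventually.of_forall fun x => ?_)
    simp only [Pi.neg_apply]; ring
  have h1 := pairing (q := fun x => x - 1 / 2) (g := φ k n) iφ (φ_symm k n)
  have h2 : ∫ x in (1 / 2 : ℝ)..1, ((x - 1 / 2) - ((1 - x) - 1 / 2)) * φ k n x =
      2 * ∫ x in (1 / 2 : ℝ)..1, (x - 1 / 2) * φ k n x := by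
    rw [← intervalIntegral.integral_const_mul]
    apply intervalIntegral.integral_congr
    intro x _
    simp only; ring
  rw [h2] at h1
  have h3 : ∫ x in Ioo (0 : ℝ) 1, (x - 1 / 2) * φ k n x =
      (∫ x in Ioo (0 : ℝ) 1, (x - 1 / 2) * f k n x) -
        ∫ x in Ioo (0 : ℝ) 1, (x - 1 / 2) * f k n (1 - x) := by
    rw [← integral_sub if1 if2]
    refine integral_congr_ae (Eventually.of_forall fun x => ?_)
    simp only [φ]; ring
  have h4 : ∫ x in Ioo (0 : ℝ) 1, (x - 1 / 2) * f k n (1 - x) =
      -∫ x in Ioo (0 : ℝ) 1, (x - 1 / 2) * f k n x := by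
    rw [← refl_int (fun x => (x - 1 / 2) * f k n x), ← integral_neg]
    refine integral_congr_ae (Eventually.of_forall fun x => ?_)
    simp only; ring
  have h5 : ∫ x in Ioo (0 : ℝ) 1, (x - 1 / 2) * f k n x = 1 / 2 - ((k : ℝ) / (k + 1)) ^ (n + 1) := by
    have e : ∀ x, (x - 1 / 2) * f k n x = 1 / 2 * f k n x - (1 - x) * f k n x := fun x => by ring
    simp only [e]
    have i1 : Integrable (fun x => 1 / 2 * f k n x) lam := (integrable_f hk n).const_mul _
    have i2 : Integrable (fun x => (1 - x) * f k n x) lam := by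
      simp only [xf_eq hk]
      exact (integrable_f (by omega) n).const_mul _
    rw [integral_sub i1 i2, integral_const_mul, integral_f1 hk, int_xf hk]
    ring
  rw [h3, h4, h5] at h1
  linarith

/-! ### The uniform law -/

lemma QF_unif {c : ℝ} (hc : 0 < c) : QF (fun x => c * (x - 1 / 2)) (fun _ => c) {1 / 2} where
  meas := by fun_prop
  mono := fun x _ y _ hxy => mul_lt_mul_of_pos_left (by linarith) hc
  cont := by fun_prop
  odd := fun x => by ring
  ctb := countable_singleton _
  half := rfl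
  deriv := fun x _ _ _ => by
    have := ((hasDerivAt_id x).sub_const (1 / 2)).const_mul c
    rw [mul_one] at this
    exact this
  dpos := fun _ _ _ => hc
  dmono := fun _ _ _ _ _ => le_rfl
  dsymm := fun _ => rfl
  sq := integrable_cont (by fun_prop)

theorem case_unif {k n : ℕ} (hk : 2 ≤ k) (hn : 1 ≤ n)
    (h1 : ((k : ℝ) / (k + 1)) ^ (n + 1) < 1 / 2)
    (h2 : 3 * (1 / 2 - ((k : ℝ) / (k + 1)) ^ (n + 1)) ≤ ∫ x in (1 / 2 : ℝ)..1, φ k n x) :
    IsGreatest (suValues k n) (√3 * (1 - 2 * ((k : ℝ) / (k + 1)) ^ (n + 1))) := by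
  have hJ := J_eq (show 1 ≤ k by omega) n
  have hs := shp_φ hk hn
  set J := ∫ x in (1 / 2 : ℝ)..1, (x - 1 / 2) * φ k n x with hJdef
  have hJ0 : 0 < J := by rw [hJ]; linarith
  have hI : 3 * J ≤ ∫ x in (1 / 2 : ℝ)..1, φ k n x := by rw [hJ]; exact h2
  have hQ := QF_unif (show 0 < 24 * J by linarith)
  have key := isGreatest_of (k := k) (n := n) (by omega) hQ ?_ ?_
  · have e : √((∫ x in (1 / 2 : ℝ)..1, (24 * J * (x - 1 / 2)) ^ 2) / 2) =
        √3 * (1 - 2 * ((k : ℝ) / (k + 1)) ^ (n + 1)) := by
      have e1 : ∫ x in (1 / 2 : ℝ)..1, (24 * J * (x - 1 / 2)) ^ 2 = 24 * J ^ 2 := by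
        have := int_affine (1 / 2) 0 0 ((24 * J) ^ 2)
        have e2 : ∫ x in (1 / 2 : ℝ)..1, (24 * J * (x - 1 / 2)) ^ 2 =
            ∫ x in (1 / 2 : ℝ)..1, ((24 * J) ^ 2 * (x - 1 / 2) ^ 2 + 0 * (x - 1 / 2) + 0) := by
          apply intervalIntegral.integral_congr
          intro x _
          simp only; ring
        rw [e2, this]; ring
      rw [e1, show 24 * J ^ 2 / 2 = 3 * (2 * J) ^ 2 by ring, Real.sqrt_mul (by norm_num),
        Real.sqrt_sq (by linarith), hJ]
      ring
    rw [e] at key
    exact key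
  · intro P hP hu hi
    have := hP.prob
    have hi2 := intervalInt_of_lam hi (show (0 : ℝ) ≤ 1 / 2 by norm_num) (by norm_num)
    have hk := kkt_unif hs hJ0 hI (q_convex hP hu) (fun x x' a b c => q_star hP hu a b c)
      (by simpa only [zero_add] using hi2)
    simpa only [zero_add] using hk
  · have := unif_orth hs.uni 0 (24 * J)
    simpa only [zero_add, zero_mul] using this

/-! ### The case of a knot -/

/-- the projection: `φ` up to the knot, then affine -/
noncomputable def GK (k n : ℕ) (α x : ℝ) : ℝ :=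
  φ k n (cl α x) + bk (φ k n) α * (x - cl α x)

/-- its derivative -/
noncomputable def dK (k n : ℕ) (α x : ℝ) : ℝ :=
  open Classical in if max x (1 - x) < α then φ₁ k n (max x (1 - x)) else bk (φ k n) α

section knot

variable {k n : ℕ} {α : ℝ}

lemma GK_cont (hk : 2 ≤ k) (hα : α ∈ Ioo (1 / 2 : ℝ) 1) : Continuous (GK k n α) := by
  have h1 : Continuous fun x => φ k n (cl α x) := by
    apply ContinuousOn.comp_continuous (φ_cont hk) (cl_cont α)
    intro x
    have := cl_mem hα.1 x
    exact ⟨by linarith [this.1, hα.2], by linarith [this.2, hα.2]⟩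
  have := cl_cont α
  unfold GK
  fun_prop

lemma GK_symm (hα : α ∈ Ioo (1 / 2 : ℝ) 1) (x : ℝ) : GK k n α (1 - x) = -GK k n α x := by
  unfold GK; rw [cl_symm hα.1, φ_symm]; ring

lemma GK_mid (hα : α ∈ Ioo (1 / 2 : ℝ) 1) {x : ℝ} (h1 : 1 / 2 ≤ x) (h2 : x ≤ α) :
    GK k n α x = φ k n x := by
  unfold GK; rw [cl_of_mem ⟨by linarith [hα.1], h2⟩]; ring

lemma GK_top (hα : α ∈ Ioo (1 / 2 : ℝ) 1) {x : ℝ} (h : α ≤ x) :
    GK k n α x = φ k n α + bk (φ k n) α * (x - α) := by
  unfold GK; rw [cl_of_ge hα.1 h]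

lemma odd_strictMono {G : ℝ → ℝ} (hodd : ∀ x, G (1 - x) = -G x)
    (hm : StrictMonoOn G (Icc (1 / 2) 1)) : StrictMonoOn G (Icc 0 1) := by
  have h1 : StrictMonoOn G (Icc 0 (1 / 2)) := by
    intro x hx y hy hxy
    have := hm (show 1 - y ∈ Icc (1 / 2 : ℝ) 1 from ⟨by linarith [hy.2], by linarith [hy.1]⟩)
      (show 1 - x ∈ Icc (1 / 2 : ℝ) 1 from ⟨by linarith [hx.2], by linarith [hx.1]⟩) (by linarith)
    rw [hodd, hodd] at this
    linarith
  have h2 := h1.union hm (isGreatest_Icc (by norm_num)) (isLeast_Icc (by norm_num))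
  rwa [Icc_union_Icc_eq_Icc (by norm_num) (by norm_num)] at h2

lemma QF_knot (hk : 2 ≤ k) (hn : 1 ≤ n) (hα : IsKnotA (φ k n) α) :
    QF (GK k n α) (dK k n α) {1 / 2, α, 1 - α} := by
  have hs := shp_φ hk hn
  obtain ⟨s1, s2, s3, s4⟩ := knot_shape hs hα
  have hαI := hα.1
  have hb0 : 0 < bk (φ k n) α := (s3 α hαI.1 le_rfl).trans s4
  have hmono1 : StrictMonoOn (GK k n α) (Icc (1 / 2) 1) := by
    have m1 : StrictMonoOn (GK k n α) (Icc (1 / 2) α) := by
      intro x hx y hy hxy
      rw [GK_mid hαI hx.1 hx.2, GK_mid hαI hy.1 hy.2]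
      exact s1 hx hy hxy
    have m2 : StrictMonoOn (GK k n α) (Icc α 1) := by
      intro x hx y hy hxy
      rw [GK_top hαI hx.1, GK_top hαI hy.1]
      have := mul_lt_mul_of_pos_left hxy hb0
      linarith
    have := m1.union m2 (isGreatest_Icc hαI.1.le) (isLeast_Icc hαI.2.le)
    rwa [Icc_union_Icc_eq_Icc hαI.1.le hαI.2.le] at this
  have hcont := GK_cont (n := n) hk hαI
  have hd1 : ∀ x, 1 / 2 < x → x < 1 → x ≠ α → HasDerivAt (GK k n α) (dK k n α x) x := by
    intro x h1 h2 h3
    have emax : max x (1 - x) = x := max_eq_left (by linarith)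
    unfold dK
    rw [emax]
    rcases lt_or_gt_of_ne h3 with c | c
    · rw [if_pos c]
      refine (hs.d1 x h1 h2).congr_of_eventuallyEq ?_
      filter_upwards [Ioo_mem_nhds h1 c] with z hz
      exact GK_mid hαI hz.1.le hz.2.le
    · rw [if_neg (not_lt.2 c.le)]
      have d : HasDerivAt (fun z => φ k n α + bk (φ k n) α * (z - α)) (bk (φ k n) α) x := by
        simpa using (((hasDerivAt_id x).sub_const α).const_mul (bk (φ k n) α)).const_add (φ k n α)
      refine d.congr_of_eventuallyEq ?_
      filter_upwards [Ioi_mem_nhds c] with z hz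
      exact GK_top hαI (le_of_lt hz)
  have dsymm : ∀ x, dK k n α (1 - x) = dK k n α x := by
    intro x
    unfold dK
    rw [sub_sub_cancel, max_comm]
  exact {
    meas := hcont.measurable
    mono := (odd_strictMono (GK_symm hαI) hmono1).mono Ioo_subset_Icc_self
    cont := hcont.continuousOn
    odd := GK_symm hαI
    ctb := by
      apply Set.Countable.insert
      apply Set.Countable.insert
      exact countable_singleton _
    half := by simp
    deriv := by
      intro x h0 h1 hT
      simp only [mem_insert_iff, mem_singleton_iff, not_or] at hT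
      rcases lt_or_gt_of_ne hT.1 with c | c
      · have d0 := hd1 (1 - x) (by linarith) (by linarith) (fun e => hT.2.2 (by linarith))
        have hd : HasDerivAt (fun x : ℝ => 1 - x) (-1) x := by
          simpa using (hasDerivAt_id x).const_sub 1
        have d := (d0.comp x hd).neg
        rw [dsymm] at d
        have e : GK k n α = fun x => -GK k n α (1 - x) := by
          funext z; rw [GK_symm hαI, neg_neg]
        rw [e]
        refine d.congr_deriv ?_
        ring
      · exact hd1 x c h1 hT.2.1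
    dpos := by
      intro x h1 h2
      have emax : max x (1 - x) = x := max_eq_left (by linarith)
      unfold dK
      rw [emax]
      split_ifs with c
      · exact s3 x h1 c.le
      · exact hb0
    dmono := by
      have hm1 : StrictMonoOn (φ₁ k n) (Ioc (1 / 2) α) := by
        apply strictMonoOn_of_deriv_pos (convex_Ioc _ _)
        · intro x hx
          exact (hs.d2 x hx.1 (by linarith [hx.2, hαI.2])).continuousAt.continuousWithinAt
        · intro x hx
          rw [interior_Ioc] at hx
          rw [(hs.d2 x hx.1 (by linarith [hx.2, hαI.2])).deriv]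
          exact s2 x hx.1 hx.2.le
      intro x hx y hy hxy
      have emx : max x (1 - x) = x := max_eq_left (by linarith [hx.1])
      have emy : max y (1 - y) = y := max_eq_left (by linarith [hy.1])
      unfold dK
      rw [emx, emy]
      by_cases c : x < α
      · rw [if_pos c]
        by_cases c2 : y < α
        · rw [if_pos c2]
          exact hm1.monotoneOn ⟨hx.1, c.le⟩ ⟨hy.1, c2.le⟩ hxy
        · rw [if_neg c2]
          have := hm1.monotoneOn (show x ∈ Ioc (1 / 2) α from ⟨hx.1, c.le⟩)
            (show α ∈ Ioc (1 / 2) α from ⟨hαI.1, le_rfl⟩) c.le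
          linarith
      · rw [if_neg c, if_neg (fun h => c (lt_of_le_of_lt hxy h))]
    dsymm := dsymm
    sq := integrable_cont (hcont.pow 2) }

/-- the value in the case of a knot -/
noncomputable def valK (k n : ℕ) (α : ℝ) : ℝ :=
  √(((∫ x in (1 / 2 : ℝ)..α, φ k n x ^ 2) + (1 - α) / 3 * (φ k n α ^ 2 -
    2 * φ k n α * ((∫ x in α..1, φ k n x) / (1 - α)) +
      4 * ((∫ x in α..1, φ k n x) / (1 - α)) ^ 2)) / 2)

theorem case_knot (hk : 2 ≤ k) (hn : 1 ≤ n) (hα : IsKnotA (φ k n) α) :
    IsGreatest (suValues k n) (valK k n α) := by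
  have hs := shp_φ hk hn
  have hαI := hα.1
  have hQ := QF_knot hk hn hα
  have hcont := GK_cont (n := n) hk hαI
  have hφi : ∀ p q : ℝ, 0 ≤ p → p ≤ q → q ≤ 1 → IntervalIntegrable (φ k n) volume p q :=
    fun p q hp hpq hq => φ_int hk hp hpq hq
  have split : ∀ g : ℝ → ℝ, IntervalIntegrable g volume (1 / 2) α → IntervalIntegrable g volume α 1 →
      ∫ x in (1 / 2 : ℝ)..1, g x = (∫ x in (1 / 2 : ℝ)..α, g x) + ∫ x in α..1, g x :=
    fun g h1 h2 => (intervalIntegral.integral_add_adjacent_intervals h1 h2).symm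
  have key := isGreatest_of (k := k) (n := n) (by omega) hQ ?_ ?_
  · have e : √((∫ x in (1 / 2 : ℝ)..1, GK k n α x ^ 2) / 2) = valK k n α := by
      unfold valK
      congr 2
      rw [split (fun x => GK k n α x ^ 2) ((hcont.pow 2).intervalIntegrable _ _)
        ((hcont.pow 2).intervalIntegrable _ _)]
      congr 1
      · apply intervalIntegral.integral_congr
        intro x hx
        rw [uIcc_of_le hαI.1.le] at hx
        simp only
        rw [GK_mid hαI hx.1 hx.2]
      · have e1 : ∫ x in α..1, GK k n α x ^ 2 = ∫ x in α..1,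
            (bk (φ k n) α ^ 2 * (x - α) ^ 2 + 2 * φ k n α * bk (φ k n) α * (x - α) + φ k n α ^ 2) := by
          apply intervalIntegral.integral_congr
          intro x hx
          rw [uIcc_of_le hαI.2.le] at hx
          simp only
          rw [GK_top hαI hx.1]; ring
        rw [e1, int_affine]
        have hL : (1 - α) ≠ 0 := by linarith [hαI.2]
        unfold bk
        field_simp
        ring
    rw [e] at key
    exact key
  · intro P hP hu hi
    have := hP.prob
    set q := fun x => quantile P x - mean P with hq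
    have hi1 : IntervalIntegrable (fun x => q x * (φ k n x - GK k n α x)) volume (1 / 2) 1 :=
      intervalInt_of_lam hi (by norm_num) (by norm_num)
    have hi2 : IntervalIntegrable (fun x => q x * (φ k n x - GK k n α x)) volume α 1 :=
      intervalInt_of_lam hi (by linarith [hαI.1]) hαI.2.le
    have hi3 : IntervalIntegrable (fun x => q x * (φ k n x - GK k n α x)) volume (1 / 2) α :=
      hi1.mono_set (by
        rw [uIcc_of_le hαI.1.le, uIcc_of_le (by norm_num)]
        exact Icc_subset_Icc le_rfl hαI.2.le)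
    have e0 : ∫ x in (1 / 2 : ℝ)..α, q x * (φ k n x - GK k n α x) = 0 := by
      have : ∫ x in (1 / 2 : ℝ)..α, q x * (φ k n x - GK k n α x) = ∫ x in (1 / 2 : ℝ)..α, (0 : ℝ) := by
        apply intervalIntegral.integral_congr
        intro x hx
        rw [uIcc_of_le hαI.1.le] at hx
        simp only
        rw [GK_mid hαI hx.1 hx.2]; ring
      rw [this]; simp
    have e1 : ∫ x in α..1, q x * (φ k n x - GK k n α x) =
        ∫ x in α..1, q x * (φ k n x - (φ k n α + bk (φ k n) α * (x - α))) := by
      apply intervalIntegral.integral_congr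
      intro x hx
      rw [uIcc_of_le hαI.2.le] at hx
      simp only
      rw [GK_top hαI hx.1]
    have hi4 : IntervalIntegrable (fun x => q x *
        (φ k n x - (φ k n α + bk (φ k n) α * (x - α)))) volume α 1 := by
      refine hi2.congr ?_
      intro x hx
      rw [uIoc_of_le hαI.2.le] at hx
      simp only
      rw [GK_top hαI hx.1.le]
    have := kkt_knot hs hα (q_convex hP hu) hi4
    show ∫ x in (1 / 2 : ℝ)..1, q x * (φ k n x - GK k n α x) ≤ 0
    rw [split _ hi3 hi2, e0, e1, zero_add]
    exact this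
  · have hgi : ∀ p q : ℝ, 0 ≤ p → p ≤ q → q ≤ 1 →
        IntervalIntegrable (fun x => GK k n α x * (φ k n x - GK k n α x)) volume p q :=
      fun p q hp hpq hq => ((hφi p q hp hpq hq).sub
        (hcont.intervalIntegrable _ _)).continuousOn_mul hcont.continuousOn
    rw [split _ (hgi _ _ (by norm_num) hαI.1.le hαI.2.le) (hgi _ _ (by linarith [hαI.1]) hαI.2.le le_rfl)]
    have e0 : ∫ x in (1 / 2 : ℝ)..α, GK k n α x * (φ k n x - GK k n α x) = 0 := by
      have : ∫ x in (1 / 2 : ℝ)..α, GK k n α x * (φ k n x - GK k n α x) =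
          ∫ x in (1 / 2 : ℝ)..α, (0 : ℝ) := by
        apply intervalIntegral.integral_congr
        intro x hx
        rw [uIcc_of_le hαI.1.le] at hx
        simp only
        rw [GK_mid hαI hx.1 hx.2]; ring
      rw [this]; simp
    have e1 : ∫ x in α..1, GK k n α x * (φ k n x - GK k n α x) =
        ∫ x in α..1, (φ k n α + bk (φ k n) α * (x - α)) *
          (φ k n x - (φ k n α + bk (φ k n) α * (x - α))) := by
      apply intervalIntegral.integral_congr
      intro x hx
      rw [uIcc_of_le hαI.2.le] at hx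
      simp only
      rw [GK_top hαI hx.1]
    rw [e0, e1, knot_orth hs.uni hα, zero_add]

end knot

end Pool.Agent.H967.KRU
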