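import Pool.Agent.H967.KRU.Main2

set_option autoImplicit false

/-! # The trivial case, and the closed form for `k = 1` -/

namespace Pool.Agent.H967.KRU

open Real Set MeasureTheory Filter Topology
open Pool.Agent.Q82.KR (Uni f φ φ_symm φ_half φ_one φ_cont quantile mean sd recordMean Sym
  quantile_eq F_quantile F_symm map_refl_lam refl_int pairing measurable_φ Ioo_eq cl cl_symm cl_mem
  cl_of_mem cl_of_ge cl_cont integrable_cont integrable_mul_φ φ_bdd int_even_pow uni_φ φ_int
  integral_φ measurable_f)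
open Q287.ISD (lam)

lemma QF_pow (N : ℕ) : QF (fun x : ℝ => (2 * x - 1) ^ (2 * N + 1))
    (fun x => 2 * (2 * N + 1) * (2 * x - 1) ^ (2 * N)) {1 / 2} where
  meas := by fun_prop
  mono := fun x _ y _ hxy =>
    (Odd.strictMono_pow ⟨N, rfl⟩) (show 2 * x - 1 < 2 * y - 1 by linarith)
  cont := by fun_prop
  odd := fun x => by rw [← Odd.neg_pow ⟨N, rfl⟩]; congr 1; ring
  ctb := countable_singleton _
  half := rfl
  deriv := fun x _ _ _ => by
    have d := (((hasDerivAt_id x).const_mul 2).sub_const 1).pow (2 * N + 1)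
    refine d.congr_deriv ?_
    simp only [id, Nat.add_sub_cancel, mul_one]
    push_cast
    ring
  dpos := fun x h0 _ => by
    have : 0 < 2 * x - 1 := by linarith
    positivity
  dmono := fun x hx y _ hxy => by
    have : 0 ≤ 2 * x - 1 := by linarith [hx.1]
    exact mul_le_mul_of_nonneg_left (pow_le_pow_left₀ this (by linarith) _) (by positivity)
  dsymm := fun x => by
    have : (2 * (1 - x) - 1) = -(2 * x - 1) := by ring
    rw [this, Even.neg_pow ⟨N, by ring⟩]
  sq := integrable_cont (by fun_prop)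

theorem case_zero {k n : ℕ} (hk : 2 ≤ k) (hn : 1 ≤ n)
    (h1 : 1 / 2 ≤ ((k : ℝ) / (k + 1)) ^ (n + 1)) : IsLUB (suValues k n) 0 := by
  have hJ := J_eq (show 1 ≤ k by omega) n
  constructor
  · intro v hv
    have h := upper (k := k) (n := n) (by omega) (G := fun _ => 0) measurable_const (fun _ => by simp)
      (by simp) ?_ hv
    · simpa using h
    · intro P hP hu hi
      have := hP.prob
      simp only [sub_zero] at hi ⊢
      exact kkt_zero (uni_φ hk hn) (by rw [hJ]; linarith) (fun x a b => q_nonneg hP a b)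
        (fun x x' a b c => q_star hP hu a b c) (intervalInt_of_lam hi (by norm_num) (by norm_num))
  · intro B hB
    obtain ⟨C, hC⟩ := φ_bdd (n := n) hk
    have hC0 : 0 ≤ C := (abs_nonneg _).trans (hC 0 ⟨le_rfl, zero_le_one⟩)
    have hval : ∀ N : ℕ, -(C / √(N + 1)) ≤ B := by
      intro N
      have hQ := QF_pow N
      have hc : Continuous fun x : ℝ => (2 * x - 1) ^ (2 * N + 1) := by fun_prop
      have h1 : (∫ x in Ioo (0 : ℝ) 1, (2 * x - 1) ^ (2 * N + 1) * φ k n x) / 2 /
          √(∫ x in Ioo (0 : ℝ) 1, ((2 * x - 1) ^ (2 * N + 1)) ^ 2) ∈ suValues k n :=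
        ⟨lam.map (fun x : ℝ => (2 * x - 1) ^ (2 * N + 1)), hQ.sym, hQ.unimodal,
          (hQ.value (by omega)).symm⟩
      refine le_trans ?_ (hB h1)
      have e1 : ∫ x in Ioo (0 : ℝ) 1, ((2 * x - 1) ^ (2 * N + 1)) ^ 2 =
          (1 : ℝ) / (4 * (N : ℝ) + 3) := by
        have h2 := int_even_pow (2 * N + 1)
        have h3 : ∀ x : ℝ, ((2 * x - 1) ^ (2 * N + 1)) ^ 2 = (2 * x - 1) ^ (2 * (2 * N + 1)) :=
          fun x => by rw [← pow_mul]; congr 1; ring
        simp only [h3]
        rw [h2]; push_cast; congr 1; ring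
      rw [e1]
      have hi : Integrable (fun x : ℝ => (2 * x - 1) ^ (2 * N + 1) * φ k n x) lam :=
        integrable_mul_φ hk (integrable_cont hc)
      have hj : Integrable (fun x : ℝ => C * (2 * x - 1) ^ (2 * N)) lam :=
        integrable_cont (by fun_prop)
      have e2 : -(C / (2 * N + 1)) ≤
          ∫ x in Ioo (0 : ℝ) 1, (2 * x - 1) ^ (2 * N + 1) * φ k n x := by
        have e3 : ∫ x in Ioo (0 : ℝ) 1, C * (2 * x - 1) ^ (2 * N) = C / (2 * N + 1) := by
          rw [integral_const_mul, int_even_pow]; ring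
        rw [← e3, ← integral_neg]
        apply setIntegral_mono_on hj.neg hi measurableSet_Ioo
        intro x hx
        have b1 := hC x ⟨hx.1.le, hx.2.le⟩
        have b2 : |2 * x - 1| ≤ 1 := by rw [abs_le]; constructor <;> linarith [hx.1, hx.2]
        have b3 : |(2 * x - 1) ^ (2 * N + 1) * φ k n x| ≤ C * (2 * x - 1) ^ (2 * N) := by
          rw [abs_mul, abs_pow, pow_succ]
          have b4 : |2 * x - 1| ^ (2 * N) = (2 * x - 1) ^ (2 * N) := by
            rw [pow_mul, sq_abs, ← pow_mul]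
          rw [b4]
          have b5 : 0 ≤ (2 * x - 1) ^ (2 * N) := by rw [pow_mul]; positivity
          calc (2 * x - 1) ^ (2 * N) * |2 * x - 1| * |φ k n x|
              ≤ (2 * x - 1) ^ (2 * N) * 1 * C := by
                apply mul_le_mul _ b1 (abs_nonneg _) (by positivity)
                exact mul_le_mul_of_nonneg_left b2 b5
            _ = C * (2 * x - 1) ^ (2 * N) := by ring
        have b6 := neg_abs_le ((2 * x - 1) ^ (2 * N + 1) * φ k n x)
        simp only [Pi.neg_apply]
        linarith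
      have e5 : √(1 / (4 * (N : ℝ) + 3)) = 1 / √(4 * N + 3) := by
        rw [Real.sqrt_div (by norm_num), Real.sqrt_one]
      rw [e5, div_div_eq_mul_div, div_one]
      have p1 : (0 : ℝ) < N + 1 := by positivity
      have s1 : √(4 * (N : ℝ) + 3) ≤ 2 * √(N + 1) := by
        rw [show (2 : ℝ) * √(N + 1) = √(4 * (N + 1)) by
          rw [Real.sqrt_mul (by norm_num)]; norm_num]
        exact Real.sqrt_le_sqrt (by linarith)
      have s0 : 0 < √((N : ℝ) + 1) := Real.sqrt_pos.2 p1
      have s2 : √((N : ℝ) + 1) * √(N + 1) = N + 1 := Real.mul_self_sqrt p1.le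
      have s3 : 0 ≤ √(4 * (N : ℝ) + 3) := Real.sqrt_nonneg _
      have t1 : -(C / (2 * N + 1)) / 2 * √(4 * N + 3) ≤
          (∫ x in Ioo (0 : ℝ) 1, (2 * x - 1) ^ (2 * N + 1) * φ k n x) / 2 * √(4 * N + 3) :=
        mul_le_mul_of_nonneg_right (by linarith) s3
      refine le_trans ?_ t1
      have t2 : C / (2 * N + 1) / 2 * √(4 * N + 3) ≤ C / √(N + 1) := by
        calc C / (2 * N + 1) / 2 * √(4 * N + 3) ≤ C / (2 * N + 1) / 2 * (2 * √(N + 1)) :=
              mul_le_mul_of_nonneg_left s1 (by positivity)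
          _ = C * √(N + 1) / (2 * N + 1) := by ring
          _ ≤ C * √(N + 1) / (N + 1) :=
              div_le_div_of_nonneg_left (by positivity) p1 (by linarith [p1])
          _ = C / √(N + 1) := by
              rw [div_eq_div_iff p1.ne' s0.ne']
              calc C * √(↑N + 1) * √(↑N + 1) = C * (√(↑N + 1) * √(↑N + 1)) := by ring
                _ = C * (↑N + 1) := by rw [s2]
      have t3 : -(C / (2 * N + 1)) / 2 * √(4 * N + 3) = -(C / (2 * N + 1) / 2 * √(4 * N + 3)) := by
        ring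
      rw [t3]
      linarith
    have hlim : Tendsto (fun N : ℕ => -(C / √((N : ℝ) + 1))) atTop (𝓝 (-0)) := by
      apply Tendsto.neg
      apply Tendsto.div_atTop tendsto_const_nhds
      exact Real.tendsto_sqrt_atTop.comp (tendsto_natCast_atTop_atTop.atTop_add tendsto_const_nhds)
    rw [neg_zero] at hlim
    exact le_of_tendsto' hlim hval

/-- the closed form of the integral for `k = 1` -/
theorem closed_one (n : ℕ) : ∫ x in (1 / 2 : ℝ)..1, φ 1 n x ^ 2 =
    (Nat.centralBinom n : ℝ) -
      (∫ x in (0 : ℝ)..1, Real.log x ^ n * Real.log (1 - x) ^ n) / (n.factorial : ℝ) ^ 2 := by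
  have hsφ := integrable_sq_φ le_rfl n
  have i2 : Integrable (fun x => φ 1 n x * φ 1 n x) lam :=
    hsφ.congr (Eventually.of_forall fun x => by simp only; ring)
  have e2 : ∫ x in Ioo (0 : ℝ) 1, φ 1 n x ^ 2 = 2 * ∫ x in (1 / 2 : ℝ)..1, φ 1 n x ^ 2 := by
    have : ∫ x in Ioo (0 : ℝ) 1, φ 1 n x ^ 2 = ∫ x in Ioo (0 : ℝ) 1, φ 1 n x * φ 1 n x := by
      refine integral_congr_ae (Eventually.of_forall fun x => ?_)
      simp only; ring
    rw [this, pairing i2 (φ_symm 1 n), ← intervalIntegral.integral_const_mul]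
    apply intervalIntegral.integral_congr
    intro x _
    simp only
    rw [φ_symm]; ring
  have h1 := integrable_sq_f (k := 1) le_rfl n
  have h2 := int_refl h1
  have mf := (measurable_f 1 n).aestronglyMeasurable (μ := lam)
  have mf' : AEStronglyMeasurable (fun x => f 1 n (1 - x)) lam :=
    ((measurable_f 1 n).comp (measurable_const.sub measurable_id)).aestronglyMeasurable
  have h3 : Integrable (fun x => f 1 n x * f 1 n (1 - x)) lam := int_mul_of_sq mf mf' h1 h2
  have e3 : ∫ x in Ioo (0 : ℝ) 1, φ 1 n x ^ 2 = (∫ x in Ioo (0 : ℝ) 1, f 1 n x ^ 2) +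
      (∫ x in Ioo (0 : ℝ) 1, f 1 n (1 - x) ^ 2) - 2 * ∫ x in Ioo (0 : ℝ) 1, f 1 n x * f 1 n (1 - x) := by
    have h12 : Integrable (fun x => f 1 n x ^ 2 + f 1 n (1 - x) ^ 2) lam := h1.add h2
    rw [← integral_const_mul, ← integral_add h1 h2, ← integral_sub h12 (h3.const_mul 2)]
    refine integral_congr_ae (Eventually.of_forall fun x => ?_)
    simp only [φ]; ring
  have e4 : ∫ x in Ioo (0 : ℝ) 1, f 1 n (1 - x) ^ 2 = ∫ x in Ioo (0 : ℝ) 1, f 1 n x ^ 2 :=
    refl_int (fun x => f 1 n x ^ 2)
  have e5 : ∫ x in Ioo (0 : ℝ) 1, f 1 n x ^ 2 = (Nat.centralBinom n : ℝ) := by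
    have e : ∀ x, f 1 n x ^ 2 = (Nat.centralBinom n : ℝ) * f 1 (2 * n) x := by
      intro x
      have hc : (Nat.centralBinom n : ℝ) * (n.factorial : ℝ) ^ 2 = ((2 * n).factorial : ℝ) := by
        have := Nat.choose_mul_factorial_mul_factorial (show n ≤ 2 * n by omega)
        rw [show 2 * n - n = n by omega] at this
        rw [Nat.centralBinom_eq_two_mul_choose]
        rw [← this]; push_cast; ring
      have hn0 : ((n.factorial : ℝ)) ≠ 0 := by positivity
      have h2n0 : (((2 * n).factorial : ℝ)) ≠ 0 := by positivity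
      unfold f
      simp only [Nat.cast_one, one_pow, Nat.sub_self, pow_zero, mul_one]
      rw [mul_pow, ← pow_mul, mul_comm n 2, one_div_pow]
      rw [show (Nat.centralBinom n : ℝ) * (1 / ((2 * n).factorial : ℝ) * (-Real.log (1 - x)) ^ (2 * n)) =
        ((Nat.centralBinom n : ℝ) / ((2 * n).factorial : ℝ)) * (-Real.log (1 - x)) ^ (2 * n) by ring]
      congr 1
      rw [div_eq_div_iff (by positivity) h2n0]
      linarith
    simp only [e]
    rw [integral_const_mul, integral_f1 le_rfl, mul_one]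
  have e6 : ∫ x in Ioo (0 : ℝ) 1, f 1 n x * f 1 n (1 - x) =
      (∫ x in (0 : ℝ)..1, Real.log x ^ n * Real.log (1 - x) ^ n) / (n.factorial : ℝ) ^ 2 := by
    rw [Ioo_eq, ← intervalIntegral.integral_div]
    apply intervalIntegral.integral_congr
    intro x _
    simp only
    unfold f
    simp only [Nat.cast_one, one_pow, Nat.sub_self, pow_zero, mul_one, sub_sub_cancel]
    have : (-Real.log (1 - x)) ^ n * (-Real.log x) ^ n = Real.log x ^ n * Real.log (1 - x) ^ n := by
      rw [← mul_pow, ← mul_pow]; congr 1; ring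
    rw [← this]
    have hn0 : ((n.factorial : ℝ)) ≠ 0 := by positivity
    field_simp
  rw [e4, e5, e6] at e3
  linarith

end Pool.Agent.H967.KRU
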