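import Pool.Graph.R_pool_sql_team_seeded_3997aac3.Q82.KR.Fin
import Pool.Agent.H967.KRU.Conc4
import Pool.Agent.H967.KRU.AbsE

set_option autoImplicit false

/-! # Record means in `L²`, for all `k ≥ 1` -/

namespace Pool.Agent.H967.KRU

open Real Set MeasureTheory Filter Topology
open Pool.Agent.Q82.KR (Uni f φ φ_symm φ_eq uni_φ Sf cont_Sf hasDerivAt_Sf Sf_zero Sf_one
  quantile mean sd recordMean Sym quantile_eq F_quantile J_eq F_symm J_symm measurable_f
  integrable_id_of_sq cauchy ψ dψ refl_int Ioo_eq map_refl_lam measurable_φ)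
open Q287.ISD (lam)

/-- the derivative of `φ` -/
noncomputable def φ₁ (k n : ℕ) (x : ℝ) : ℝ :=
  -((k : ℝ) ^ (n + 1) / (n.factorial : ℝ) * dψ (n - 1) (k - 2) (1 - x))

/-- the second derivative of `φ` -/
noncomputable def φ₂ (k n : ℕ) (x : ℝ) : ℝ :=
  (k : ℝ) ^ (n + 1) / (n.factorial : ℝ) * ddψ (n - 1) (k - 2) (1 - x)

lemma shp_φ {k n : ℕ} (hk : 2 ≤ k) (hn : 1 ≤ n) : Shp (φ k n) (φ₁ k n) (φ₂ k n) := by
  obtain ⟨b, rfl⟩ : ∃ b, k = b + 2 := ⟨k - 2, by omega⟩
  obtain ⟨a, rfl⟩ : ∃ a, n = a + 1 := ⟨n - 1, by omega⟩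
  have hC : 0 < (((b + 2 : ℕ) : ℝ)) ^ (a + 1 + 1) / ((a + 1).factorial : ℝ) := by positivity
  set C := (((b + 2 : ℕ) : ℝ)) ^ (a + 1 + 1) / ((a + 1).factorial : ℝ) with hCdef
  have e0 : φ (b + 2) (a + 1) = fun x => C * ψ a b (1 - x) := by
    funext x; rw [φ_eq]
  have e1 : φ₁ (b + 2) (a + 1) = fun x => -(C * dψ a b (1 - x)) := by
    funext x; unfold φ₁; simp only [Nat.add_sub_cancel]; rfl
  have e2 : φ₂ (b + 2) (a + 1) = fun x => C * ddψ a b (1 - x) := by
    funext x; unfold φ₂; simp only [Nat.add_sub_cancel]; rfl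
  refine ⟨uni_φ hk hn, ?_, ?_, ?_⟩
  · intro x h1 h2
    rw [e0, e1]
    have hd : HasDerivAt (fun x : ℝ => 1 - x) (-1) x := by
      simpa using (hasDerivAt_id x).const_sub 1
    have d := (((Pool.Agent.Q82.KR.hasDerivAt_ψ a b (y := 1 - x) (by linarith)
      (by linarith)).comp x hd).const_mul C)
    refine d.congr_deriv ?_
    ring
  · intro x h1 h2
    rw [e1, e2]
    have hd : HasDerivAt (fun x : ℝ => 1 - x) (-1) x := by
      simpa using (hasDerivAt_id x).const_sub 1
    have d := (((hasDerivAt_dψ a b (y := 1 - x) (by linarith)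
      (by linarith)).comp x hd).const_mul C).neg
    refine d.congr_deriv ?_
    ring
  · intro x₁ x₂ h1 h12 h2 p0 p1 p2
    rw [e0] at p0
    rw [e1] at p1
    rw [e2] at p2 ⊢
    have q0 := (mul_pos_iff_of_pos_left hC).1 p0
    have q2 := (mul_nonneg_iff_of_pos_left hC).1 p2
    have q1 : dψ a b (1 - x₂) ≤ 0 := by
      by_contra hcon
      push Not at hcon
      have := mul_pos hC hcon
      linarith
    have := ddψ_pattern (y₁ := 1 - x₂) (y₂ := 1 - x₁) (by linarith) (by linarith) (by linarith)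
      q0 q1 q2
    exact mul_pos hC this

/-! ### Integrals of the density -/

lemma f_nonneg {k n : ℕ} {x : ℝ} (h0 : 0 ≤ x) (h1 : x ≤ 1) : 0 ≤ f k n x := by
  unfold f
  have h2 : 0 ≤ 1 - x := by linarith
  have h3 : 0 ≤ -Real.log (1 - x) := by
    have := Real.log_nonpos h2 (by linarith)
    linarith
  positivity

lemma integrableOn_f {k : ℕ} (hk : 1 ≤ k) (n : ℕ) : IntegrableOn (f k n) (Ioc 0 1) := by
  have hc : ContinuousOn (fun x => -Sf k n x) (Icc 0 1) :=
    ((cont_Sf hk).mono fun x hx => hx.2).neg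
  apply intervalIntegral.integrableOn_deriv_of_nonneg hc
  · intro x hx
    have := (hasDerivAt_Sf hk n hx.2).neg
    rw [neg_neg] at this
    exact this
  · intro x hx
    exact f_nonneg hx.1.le hx.2.le

lemma integrable_f {k : ℕ} (hk : 1 ≤ k) (n : ℕ) : Integrable (f k n) lam :=
  (integrableOn_f hk n).mono_set Ioo_subset_Ioc_self

lemma integral_f1 {k : ℕ} (hk : 1 ≤ k) (n : ℕ) : ∫ x in Ioo (0 : ℝ) 1, f k n x = 1 := by
  rw [Ioo_eq]
  have hc : ContinuousOn (Sf k n) (Icc 0 1) := (cont_Sf hk).mono fun x hx => hx.2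
  have hi : IntervalIntegrable (fun x => -f k n x) volume 0 1 := by
    rw [intervalIntegrable_iff_integrableOn_Ioc_of_le (by norm_num)]
    exact (integrableOn_f hk n).neg
  have h := intervalIntegral.integral_eq_sub_of_hasDerivAt_of_le (by norm_num) hc
    (fun x hx => hasDerivAt_Sf hk n hx.2) hi
  rw [intervalIntegral.integral_neg, Sf_one hk, Sf_zero] at h
  linarith

lemma sq_f_le {k : ℕ} (hk : 1 ≤ k) (n : ℕ) : ∃ C, ∀ x ∈ Ioo (0 : ℝ) 1,
    f k n x ^ 2 ≤ C * f 1 (2 * n) x := by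
  refine ⟨((k : ℝ) ^ (n + 1) / (n.factorial : ℝ)) ^ 2 * ((2 * n).factorial : ℝ), fun x hx => ?_⟩
  unfold f
  have h2 : 0 < 1 - x := by linarith [hx.2]
  have h3 : 0 ≤ -Real.log (1 - x) := by
    have := Real.log_nonpos h2.le (by linarith [hx.1])
    linarith
  have h4 : (1 - x) ^ (k - 1) ≤ 1 := pow_le_one₀ h2.le (by linarith [hx.1])
  have h5 : ((1 - x) ^ (k - 1)) ^ 2 ≤ 1 := pow_le_one₀ (by positivity) h4
  have e1 : ((k : ℝ) ^ (n + 1) / (n.factorial : ℝ) * (-Real.log (1 - x)) ^ n * (1 - x) ^ (k - 1)) ^ 2 =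
      ((k : ℝ) ^ (n + 1) / (n.factorial : ℝ)) ^ 2 * (-Real.log (1 - x)) ^ (2 * n) *
        ((1 - x) ^ (k - 1)) ^ 2 := by
    rw [mul_pow, mul_pow, ← pow_mul (-Real.log (1 - x)), mul_comm n 2]
  have e2 : ((k : ℝ) ^ (n + 1) / (n.factorial : ℝ)) ^ 2 * ((2 * n).factorial : ℝ) *
      (((1 : ℕ) : ℝ) ^ (2 * n + 1) / ((2 * n).factorial : ℝ) * (-Real.log (1 - x)) ^ (2 * n) *
        (1 - x) ^ (1 - 1)) = ((k : ℝ) ^ (n + 1) / (n.factorial : ℝ)) ^ 2 *
        (-Real.log (1 - x)) ^ (2 * n) * 1 := by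
    simp only [Nat.cast_one, one_pow, Nat.sub_self, pow_zero]
    field_simp
  rw [e1, e2]
  exact mul_le_mul_of_nonneg_left h5 (by positivity)

lemma integrable_sq_f {k : ℕ} (hk : 1 ≤ k) (n : ℕ) : Integrable (fun x => f k n x ^ 2) lam := by
  obtain ⟨C, hC⟩ := sq_f_le hk n
  refine ((integrable_f le_rfl (2 * n)).const_mul C).mono'
    ((measurable_f k n).pow_const 2).aestronglyMeasurable ?_
  rw [ae_restrict_iff' measurableSet_Ioo]
  refine Eventually.of_forall fun x hx => ?_
  rw [Real.norm_eq_abs, abs_of_nonneg (sq_nonneg _)]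
  exact hC x hx

lemma int_mul_of_sq {μ : Measure ℝ} {q g : ℝ → ℝ} (mq : AEStronglyMeasurable q μ)
    (mg : AEStronglyMeasurable g μ) (hq : Integrable (fun x => q x ^ 2) μ)
    (hg : Integrable (fun x => g x ^ 2) μ) : Integrable (fun x => q x * g x) μ := by
  refine (hq.add hg).mono' (mq.mul mg) (Eventually.of_forall fun x => ?_)
  simp only [Pi.add_apply, Real.norm_eq_abs, abs_mul]
  nlinarith [sq_abs (q x), sq_abs (g x), sq_nonneg (|q x| - |g x|), abs_nonneg (q x),
    abs_nonneg (g x)]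

lemma int_refl {g : ℝ → ℝ} (hg : Integrable g lam) : Integrable (fun x => g (1 - x)) lam := by
  have h := hg
  rw [← map_refl_lam] at h
  exact h.comp_measurable (measurable_const.sub measurable_id)

lemma integrable_sq_φ {k : ℕ} (hk : 1 ≤ k) (n : ℕ) : Integrable (fun x => φ k n x ^ 2) lam := by
  have h1 := integrable_sq_f hk n
  have h2 := int_refl h1
  refine ((h1.add h2).const_mul 2).mono' ((measurable_φ k n).pow_const 2).aestronglyMeasurable
    (Eventually.of_forall fun x => ?_)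
  simp only [Pi.add_apply, Real.norm_eq_abs, abs_of_nonneg (sq_nonneg (φ k n x))]
  unfold φ
  nlinarith [sq_nonneg (f k n x + f k n (1 - x))]

/-! ### The record mean -/

section
variable {P : Measure ℝ}

lemma sq_int (h : Sym P) : Integrable (fun t : ℝ => (t - mean P) ^ 2) P := by
  haveI := h.prob
  have hid : Integrable (fun t : ℝ => t) P := integrable_id_of_sq h.sq
  have e : ∀ t : ℝ, (t - mean P) ^ 2 = t ^ 2 - (2 * mean P) * t + mean P ^ 2 := fun t => by ring
  simp only [e]
  exact (h.sq.sub (hid.const_mul _)).add (integrable_const _)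

lemma sq_int_q (h : Sym P) : Integrable (fun x => (quantile P x - mean P) ^ 2) lam := by
  haveI := h.prob
  have hmq := Q287.ISD.aemeasurable_quantile P
  have h3 : Integrable (fun t : ℝ => (t - mean P) ^ 2) (lam.map (Q287.ISD.quantile P)) := by
    rw [Q287.ISD.map_quantile]; exact sq_int h
  exact h3.comp_aemeasurable hmq

lemma sd_eq (h : Sym P) : sd P = √(∫ x in Ioo (0 : ℝ) 1, (quantile P x - mean P) ^ 2) := by
  haveI := h.prob
  have hmq := Q287.ISD.aemeasurable_quantile P
  have h3 := integral_map (μ := lam) hmq (f := fun t : ℝ => (t - mean P) ^ 2)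
    ((measurable_id.sub_const _).pow_const 2).aestronglyMeasurable
  rw [Q287.ISD.map_quantile] at h3
  unfold sd
  rw [h3]; rfl

lemma meas_q (h : Sym P) : AEStronglyMeasurable (fun x => quantile P x - mean P) lam := by
  haveI := h.prob
  exact ((Q287.ISD.aemeasurable_quantile P).sub_const _).aestronglyMeasurable

/-- symmetrisation of an integral against an odd function -/
lemma int_odd (h : Sym P) {g : ℝ → ℝ} (hg : Measurable g) (hodd : ∀ x, g (1 - x) = -g x)
    (hi : Integrable (fun x => (quantile P x - mean P) * g x) lam) :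
    ∫ x in Ioo (0 : ℝ) 1, (quantile P x - mean P) * g x =
      2 * ∫ x in Ioo (1 / 2 : ℝ) 1, (quantile P x - mean P) * g x := by
  haveI := h.prob
  set G : ℝ → ℝ := (Ioi (1 / 2 : ℝ)).indicator g with hG
  have hGm : Measurable G := hg.indicator measurableSet_Ioi
  have h1 := J_symm h.cont h.symm hGm
  have hsub : Ioo (1 / 2 : ℝ) 1 ⊆ Ioo 0 1 := Ioo_subset_Ioo (by norm_num) le_rfl
  have hsub2 : Ioo (0 : ℝ) (1 / 2) ⊆ Ioo 0 1 := Ioo_subset_Ioo le_rfl (by norm_num)
  have e1 : ∫ x in Ioo (0 : ℝ) 1, (quantile P x - mean P) * G x =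
      ∫ x in Ioo (1 / 2 : ℝ) 1, (quantile P x - mean P) * g x := by
    have : ∀ x, (quantile P x - mean P) * G x =
        (Ioi (1 / 2 : ℝ)).indicator (fun x => (quantile P x - mean P) * g x) x := by
      intro x
      by_cases hx : x ∈ Ioi (1 / 2 : ℝ)
      · rw [hG, indicator_of_mem hx, indicator_of_mem hx]
      · rw [hG, indicator_of_notMem hx, indicator_of_notMem hx, mul_zero]
    simp only [this]
    rw [setIntegral_indicator measurableSet_Ioi]
    congr 2
    ext x; simp only [mem_inter_iff, mem_Ioo, mem_Ioi]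
    constructor
    · rintro ⟨⟨_, a⟩, b⟩; exact ⟨b, a⟩
    · rintro ⟨a, b⟩; exact ⟨⟨by linarith, b⟩, a⟩
  have e2 : ∫ x in Ioo (0 : ℝ) 1, (quantile P x - mean P) * G (1 - x) =
      -∫ x in Ioo (0 : ℝ) (1 / 2), (quantile P x - mean P) * g x := by
    have : ∀ x, (quantile P x - mean P) * G (1 - x) =
        (Iio (1 / 2 : ℝ)).indicator (fun x => -((quantile P x - mean P) * g x)) x := by
      intro x
      by_cases hx : x ∈ Iio (1 / 2 : ℝ)
      · have hx' : 1 - x ∈ Ioi (1 / 2 : ℝ) := by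
          simp only [mem_Iio] at hx; simp only [mem_Ioi]; linarith
        rw [hG, indicator_of_mem hx, indicator_of_mem hx', hodd]; ring
      · have hx' : 1 - x ∉ Ioi (1 / 2 : ℝ) := by
          simp only [mem_Iio, not_lt] at hx; simp only [mem_Ioi, not_lt]; linarith
        rw [hG, indicator_of_notMem hx, indicator_of_notMem hx', mul_zero]
    simp only [this]
    rw [setIntegral_indicator measurableSet_Iio, integral_neg]
    congr 3
    ext x; simp only [mem_inter_iff, mem_Ioo, mem_Iio]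
    constructor
    · rintro ⟨⟨a, _⟩, b⟩; exact ⟨a, b⟩
    · rintro ⟨a, b⟩; exact ⟨⟨a, by linarith⟩, b⟩
  rw [e1, e2] at h1
  have hdisj : Disjoint (Ioo (0 : ℝ) (1 / 2)) (Ioo (1 / 2) 1) := by
    rw [Set.disjoint_left]
    rintro x ⟨_, a⟩ ⟨b, _⟩
    linarith
  have hunion : ∫ x in Ioo (0 : ℝ) 1, (quantile P x - mean P) * g x =
      ∫ x in Ioo (0 : ℝ) (1 / 2) ∪ Ioo (1 / 2) 1, (quantile P x - mean P) * g x := by
    apply setIntegral_congr_set
    have : Ioo (0 : ℝ) 1 = (Ioo (0 : ℝ) (1 / 2) ∪ Ioo (1 / 2) 1) ∪ {1 / 2} := by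
      ext x
      simp only [mem_union, mem_Ioo, mem_singleton_iff]
      constructor
      · rintro ⟨a, b⟩
        rcases lt_trichotomy x (1 / 2) with c | c | c
        · left; left; exact ⟨a, c⟩
        · right; exact c
        · left; right; exact ⟨c, b⟩
      · rintro ((⟨a, b⟩ | ⟨a, b⟩) | a)
        · exact ⟨a, by linarith⟩
        · exact ⟨by linarith, b⟩
        · rw [a]; norm_num
    rw [this]
    exact union_ae_eq_left_of_ae_eq_empty (by
      rw [ae_eq_empty]; exact Real.volume_singleton)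
  have hi' : IntegrableOn (fun x => (quantile P x - mean P) * g x) (Ioo 0 1) := hi
  rw [hunion, setIntegral_union hdisj measurableSet_Ioo (hi'.mono_set hsub2) (hi'.mono_set hsub)]
  linarith

lemma recordMean_eq' {k n : ℕ} (hk : 1 ≤ k) (h : Sym P) :
    recordMean k n P - mean P =
      (∫ x in Ioo (0 : ℝ) 1, (quantile P x - mean P) * φ k n x) / 2 := by
  haveI := h.prob
  have hq2 := sq_int_q h
  have hmq := meas_q h
  have mf := (measurable_f k n).aestronglyMeasurable (μ := lam)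
  have mf' : AEStronglyMeasurable (fun x => f k n (1 - x)) lam :=
    ((measurable_f k n).comp (measurable_const.sub measurable_id)).aestronglyMeasurable
  have hf1 : Integrable (fun x => (quantile P x - mean P) * f k n x) lam :=
    int_mul_of_sq hmq mf hq2 (integrable_sq_f hk n)
  have hf2 : Integrable (fun x => (quantile P x - mean P) * f k n (1 - x)) lam :=
    int_mul_of_sq hmq mf' hq2 (int_refl (integrable_sq_f hk n))
  have e1 : recordMean k n P - mean P =
      ∫ x in Ioo (0 : ℝ) 1, (quantile P x - mean P) * f k n x := by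
    have e : ∀ x, quantile P x * f k n x =
      (quantile P x - mean P) * f k n x + mean P * f k n x := fun x => by ring
    unfold recordMean
    simp only [e]
    rw [integral_add hf1 ((integrable_f hk n).const_mul _), integral_const_mul, integral_f1 hk,
      mul_one]
    ring
  have e2 := J_symm h.cont h.symm (measurable_f k n)
  have e3 : ∫ x in Ioo (0 : ℝ) 1, (quantile P x - mean P) * φ k n x =
      (∫ x in Ioo (0 : ℝ) 1, (quantile P x - mean P) * f k n x) -
      ∫ x in Ioo (0 : ℝ) 1, (quantile P x - mean P) * f k n (1 - x) := by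
    rw [← integral_sub hf1 hf2]
    refine integral_congr_ae (Eventually.of_forall fun x => ?_)
    simp only [φ]; ring
  rw [e3, e2, e1]
  ring

/-- the upper bound -/
lemma value_le' {k n : ℕ} (hk : 1 ≤ k) (h : Sym P) {G : ℝ → ℝ} (hG : Measurable G)
    (hG2 : Integrable (fun x => G x ^ 2) lam)
    (hI : ∫ x in Ioo (0 : ℝ) 1, (quantile P x - mean P) * φ k n x ≤
      ∫ x in Ioo (0 : ℝ) 1, (quantile P x - mean P) * G x) :
    (recordMean k n P - mean P) / sd P ≤ √(∫ x in Ioo (0 : ℝ) 1, G x ^ 2) / 2 := by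
  rw [div_le_iff₀ h.pos, recordMean_eq' hk h]
  have h4 := cauchy (sq_int_q h) hG2
    (int_mul_of_sq (meas_q h) hG.aestronglyMeasurable (sq_int_q h) hG2)
  rw [sd_eq h]
  linarith

end

end Pool.Agent.H967.KRU
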