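import Pool.Agent.H967.KRU.Ineq

set_option autoImplicit false

/-! # A numerical inequality for `L = -log y`, `M = -log (1 - y)`, `3/10 ≤ y < 1/2` -/

namespace Pool.Agent.H967.KRU

open Real Set
open Pool.Agent.Q82.KR (L M L_pos M_pos M_lt_L w w_strictMonoOn w_lt lt_w w_eq ψ dψ E_pos r r_S1
  ψ_pos_iff hasDerivAt_L hasDerivAt_M hasDerivAt_log1 hasDerivAt_w key D_bounds)

lemma L_half : L (1 / 2) = Real.log 2 := by
  unfold L; rw [one_div, Real.log_inv, neg_neg]

lemma M_half : M (1 / 2) = Real.log 2 := by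
  unfold M; rw [show (1 : ℝ) - 1 / 2 = 2⁻¹ by norm_num, Real.log_inv, neg_neg]

lemma log2_pos : (0 : ℝ) < Real.log 2 := Real.log_pos (by norm_num)

lemma w_half : w (1 / 2) = 1 / Real.log 2 := by
  unfold w; rw [L_half, M_half]
  have := log2_pos
  field_simp
  norm_num

lemma w_strictMonoOn' : StrictMonoOn w (Ioc 0 (1 / 2)) := by
  apply strictMonoOn_of_deriv_pos (convex_Ioc _ _)
  · intro y hy
    exact (hasDerivAt_w hy.1 (by linarith [hy.2])).continuousAt.continuousWithinAt
  · intro y hy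
    rw [interior_Ioc] at hy
    rw [(hasDerivAt_w hy.1 (by linarith [hy.2])).deriv]
    have h1 := L_pos hy.1 (show y < 1 by linarith [hy.2])
    have h2 := M_pos hy.1 (show y < 1 by linarith [hy.2])
    have h3 : 0 < 1 - y := by linarith [hy.2]
    have h4 := hy.1
    exact div_pos (key hy.1 hy.2) (by positivity)

lemma w_lt_half {y : ℝ} (h0 : 0 < y) (h1 : y < 1 / 2) : w y < 1 / Real.log 2 := by
  rw [← w_half]
  exact w_strictMonoOn' ⟨h0, h1.le⟩ ⟨by norm_num, le_rfl⟩ h1

lemma L_gt {y : ℝ} (h0 : 0 < y) (h1 : y < 1 / 2) : Real.log 2 < L y := by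
  rw [← L_half]; unfold L
  linarith [Real.log_lt_log h0 h1]

lemma M_lt {y : ℝ} (h1 : y < 1 / 2) : M y < Real.log 2 := by
  rw [← M_half]; unfold M
  linarith [Real.log_lt_log (show (0 : ℝ) < 1 - 1 / 2 by norm_num) (show 1 - 1 / 2 < 1 - y by linarith)]

/-- the difference of the logarithms of the two sides -/
noncomputable def Dz (y : ℝ) : ℝ :=
  2 * (L y - M y) - 2 * (Real.log (L y) - Real.log (M y)) + Real.log (1 + L y - Real.log 2) -
    Real.log (1 + M y - Real.log 2)

lemma hasDerivAt_Dz {y : ℝ} (h0 : 0 < y) (h1 : y < 1) (hA : 0 < 1 + L y - Real.log 2)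
    (hB : 0 < 1 + M y - Real.log 2) :
    HasDerivAt Dz (-(2 - 2 * w y + (1 - y) / (1 + L y - Real.log 2) +
      y / (1 + M y - Real.log 2)) / (y * (1 - y))) y := by
  have hL := L_pos h0 h1
  have hM := M_pos h0 h1
  have hz : 0 < 1 - y := by linarith
  have dA : HasDerivAt (fun y => 1 + L y - Real.log 2) (-(1 / y)) y :=
    ((hasDerivAt_L h0).const_add 1).sub_const _
  have dB : HasDerivAt (fun y => 1 + M y - Real.log 2) (1 / (1 - y)) y :=
    ((hasDerivAt_M h1).const_add 1).sub_const _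
  have d := (((((hasDerivAt_L h0).sub (hasDerivAt_M h1)).const_mul 2).sub
    (((hasDerivAt_L h0).log hL.ne').sub ((hasDerivAt_M h1).log hM.ne') |>.const_mul 2)).add
    (dA.log hA.ne')).sub (dB.log hB.ne')
  refine d.congr_deriv ?_
  unfold w
  field_simp
  ring

lemma S_bound {y : ℝ} (h0 : 3 / 10 ≤ y) (h1 : y < 1 / 2) :
    0 < 1 + L y - Real.log 2 ∧ 0 < 1 + M y - Real.log 2 ∧
    0 < 2 - 2 * w y + (1 - y) / (1 + L y - Real.log 2) + y / (1 + M y - Real.log 2) := by
  have hy0 : 0 < y := by linarith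
  have hz : 0 < 1 - y := by linarith
  -- upper bound for `L`
  have hL := L_gt hy0 h1
  obtain ⟨_, hD, _⟩ := D_bounds (u := 2 * y) (by linarith) (by linarith)
  have eL : L y - Real.log 2 = -Real.log (2 * y) := by
    rw [Real.log_mul (by norm_num) hy0.ne']; unfold L; ring
  have eM : Real.log 2 - M y = Real.log (1 + (1 - 2 * y)) := by
    rw [show 1 + (1 - 2 * y) = 2 * (1 - y) by ring, Real.log_mul (by norm_num) hz.ne']; unfold M; ring
  have hLu : 1 + L y - Real.log 2 ≤ (4 * y + 1 - 4 * y ^ 2) / (4 * y) := by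
    rw [le_div_iff₀ (by linarith)]
    rw [← eL] at hD
    nlinarith
  have hMl : 2 * (1 - 2 * y) / ((1 - 2 * y) + 2) ≤ Real.log (1 + (1 - 2 * y)) :=
    Real.le_log_one_add_of_nonneg (by linarith)
  have hMu : Real.log (1 + (1 - 2 * y)) ≤ 1 - 2 * y := by
    have := Real.log_le_sub_one_of_pos (show 0 < 1 + (1 - 2 * y) by linarith)
    linarith
  have hA : 0 < 1 + L y - Real.log 2 := by linarith
  have hB : 0 < 1 + M y - Real.log 2 := by linarith
  refine ⟨hA, hB, ?_⟩
  have hBu : 1 + M y - Real.log 2 ≤ (1 + 2 * y) / (3 - 2 * y) := by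
    have e : (1 + 2 * y) / (3 - 2 * y) = 1 - 2 * (1 - 2 * y) / ((1 - 2 * y) + 2) := by
      have : (3 - 2 * y) ≠ 0 := by linarith
      have h2 : (1 - 2 * y) + 2 ≠ 0 := by linarith
      rw [show (1 - 2 * y) + 2 = 3 - 2 * y by ring]
      field_simp
      ring
    rw [e]; linarith
  have t1 : (84 / 184 : ℝ) ≤ (1 - y) / (1 + L y - Real.log 2) := by
    rw [le_div_iff₀ hA]
    have h2 : 84 / 184 * (1 + L y - Real.log 2) ≤ 84 / 184 * ((4 * y + 1 - 4 * y ^ 2) / (4 * y)) :=
      mul_le_mul_of_nonneg_left hLu (by norm_num)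
    refine h2.trans ?_
    rw [← mul_div_assoc, div_le_iff₀ (by linarith)]
    nlinarith [mul_nonneg (show 0 ≤ y - 3 / 10 by linarith) (show 0 ≤ 7 / 10 - y by linarith)]
  have t2 : (9 / 20 : ℝ) ≤ y / (1 + M y - Real.log 2) := by
    rw [le_div_iff₀ hB]
    have h2 : 9 / 20 * (1 + M y - Real.log 2) ≤ 9 / 20 * ((1 + 2 * y) / (3 - 2 * y)) :=
      mul_le_mul_of_nonneg_left hBu (by norm_num)
    refine h2.trans ?_
    rw [← mul_div_assoc, div_le_iff₀ (by linarith)]
    nlinarith [mul_nonneg (show 0 ≤ y - 3 / 10 by linarith) (show 0 ≤ 3 / 4 - y by linarith)]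
  have hw := w_lt_half hy0 h1
  have h2 : 1 / Real.log 2 < 1.4428 := by
    rw [div_lt_iff₀ log2_pos]
    nlinarith [Real.log_two_gt_d9]
  have h3 : w y < 1.4428 := hw.trans h2
  norm_num at t1 t2 h3 ⊢
  linarith

/-- the numerical inequality, in logarithmic form -/
lemma Dz_pos {y : ℝ} (h0 : 3 / 10 ≤ y) (h1 : y < 1 / 2) : 0 < Dz y := by
  have hm : StrictAntiOn Dz (Icc y (1 / 2)) := by
    apply strictAntiOn_of_deriv_neg (convex_Icc _ _)
    · intro z hz
      have hz0 : 3 / 10 ≤ z := h0.trans hz.1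
      rcases eq_or_lt_of_le hz.2 with e | e
      · refine (hasDerivAt_Dz (by linarith) (by linarith) ?_ ?_).continuousAt.continuousWithinAt
        · rw [e, L_half]; linarith
        · rw [e, M_half]; linarith
      · obtain ⟨s1, s2, _⟩ := S_bound hz0 e
        exact (hasDerivAt_Dz (by linarith) (by linarith) s1 s2).continuousAt.continuousWithinAt
    · intro z hz
      rw [interior_Icc] at hz
      have hz0 : 3 / 10 ≤ z := h0.trans hz.1.le
      obtain ⟨s1, s2, s3⟩ := S_bound hz0 hz.2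
      rw [(hasDerivAt_Dz (by linarith) (by linarith [hz.2]) s1 s2).deriv]
      apply div_neg_of_neg_of_pos (by linarith)
      exact mul_pos (by linarith) (by linarith [hz.2])
  have h := hm (left_mem_Icc.2 h1.le) (right_mem_Icc.2 h1.le) h1
  have e : Dz (1 / 2) = 0 := by
    unfold Dz; rw [L_half, M_half]; ring
  linarith

/-- the numerical inequality -/
lemma Z_log2 {y : ℝ} (h0 : 3 / 10 ≤ y) (h1 : y < 1 / 2) :
    (1 + M y - Real.log 2) / (M y * (1 - y)) ^ 2 < (1 + L y - Real.log 2) / (L y * y) ^ 2 := by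
  have hy0 : 0 < y := by linarith
  have hz : 0 < 1 - y := by linarith
  have hL := L_pos hy0 (show y < 1 by linarith)
  have hM := M_pos hy0 (show y < 1 by linarith)
  obtain ⟨hA, hB, _⟩ := S_bound h0 h1
  have hD := Dz_pos h0 h1
  rw [← Real.log_lt_log_iff (by positivity) (by positivity), Real.log_div hB.ne' (by positivity),
    Real.log_div hA.ne' (by positivity), Real.log_pow, Real.log_pow, Real.log_mul hM.ne' hz.ne',
    Real.log_mul hL.ne' hy0.ne']
  have e1 : Real.log y = -L y := by unfold L; ring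
  have e2 : Real.log (1 - y) = -M y := by unfold M; ring
  rw [e1, e2]
  unfold Dz at hD
  push_cast
  linarith

end Pool.Agent.H967.KRU
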